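import Pool.Agent.Work.MP_db9399_ch_helper26.Levels

/-!
# MP_db9399, all scales: chained Kempe coins, part 5 (helper26)

Vectors which are halved exactly up to `1` at every level.
-/

set_option autoImplicit false

namespace Pool.Agent.Work.MP_db9399_ch

open Finset Classical
open Pool.Agent.Work.MP_db9399_tk

universe u v w

section bal
variable {m : ℕ}

/-- all class sums are halved up to `1` -/
def Bal (x : Cl m → ℝ) : Prop :=
  ∀ a, ∀ j < m, |∑ b ∈ univ.filter (fun b => ag (j + 1) a b), x b -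
    1 / 2 * ∑ b ∈ univ.filter (fun b => ag j a b), x b| ≤ 1

theorem bal_class (x : Cl m → ℝ) (hx : Bal x) (j : ℕ) (hj : j ≤ m) (a : Cl m) :
    |∑ b ∈ univ.filter (fun b => ag j a b), x b - (∑ b, x b) / 2 ^ j| ≤ 2 - 2 / 2 ^ j := by
  induction j with
  | zero =>
    rw [Finset.filter_true_of_mem fun b _ => ag_zero a b, pow_zero, div_one, div_one, sub_self,
      abs_zero, sub_self]
  | succ j ih =>
    have h1 := ih (by omega)
    have h2 := hx a j (by omega)
    have h3 : ∑ b ∈ univ.filter (fun b => ag (j + 1) a b), x b - (∑ b, x b) / 2 ^ (j + 1) =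
        (∑ b ∈ univ.filter (fun b => ag (j + 1) a b), x b -
          1 / 2 * ∑ b ∈ univ.filter (fun b => ag j a b), x b) +
        1 / 2 * (∑ b ∈ univ.filter (fun b => ag j a b), x b - (∑ b, x b) / 2 ^ j) := by
      rw [pow_succ]
      field_simp
      ring
    rw [h3]
    refine (abs_add_le _ _).trans ?_
    rw [abs_mul, abs_of_nonneg (by norm_num : (0 : ℝ) ≤ 1 / 2)]
    have h4 : (2 : ℝ) / 2 ^ (j + 1) = 1 / 2 * (2 / 2 ^ j) := by
      rw [pow_succ]
      field_simp
    rw [h4]
    linarith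

theorem filter_full (a : Cl m) : univ.filter (fun b => ag m a b) = {a} := by
  ext b
  rw [Finset.mem_filter, Finset.mem_singleton, ag_full]
  exact ⟨fun h => h.2.symm, fun h => ⟨Finset.mem_univ _, h.symm⟩⟩

theorem bal_one (x : Cl m → ℝ) (hx : Bal x) (a : Cl m) : |x a - (∑ b, x b) / 2 ^ m| ≤ 2 := by
  have h1 := bal_class x hx m le_rfl a
  rw [filter_full, Finset.sum_singleton] at h1
  have h2 : (0 : ℝ) ≤ 2 / 2 ^ m := by positivity
  linarith

theorem bal_pos (x : Cl m → ℝ) (hx : Bal x) :
    ∑ a, max 0 (x a - (∑ b, x b) / 2 ^ m) ≤ 2 ^ m / 2 := by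
  set T := ∑ b, x b with hT
  rcases Nat.eq_zero_or_pos m with h0 | h0
  · subst h0
    have h1 : ∀ a : Cl 0, max 0 (x a - T / 2 ^ 0) = 0 := by
      intro a
      have h2 := bal_class x hx 0 le_rfl a
      rw [filter_full, Finset.sum_singleton] at h2
      have h3 : |x a - T / 2 ^ 0| ≤ 0 := by
        refine h2.trans (le_of_eq ?_)
        norm_num
      have h4 := abs_nonpos_iff.1 h3
      rw [h4, max_self]
    rw [Finset.sum_eq_zero fun a _ => h1 a]
    norm_num
  · obtain ⟨n, rfl⟩ : ∃ n, m = n + 1 := ⟨m - 1, by omega⟩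
    set i : Fin (n + 1) := ⟨n, by omega⟩ with hi
    have hiv : (i : ℕ) = n := rfl
    rw [← sum_half' i (fun a => max 0 (x a - T / 2 ^ (n + 1)))]
    have h1 : ∀ b ∈ univ.filter (fun b : Cl (n + 1) => b i = false),
        max 0 (x b - T / 2 ^ (n + 1)) + max 0 (x (fl i b) - T / 2 ^ (n + 1)) ≤
          1 + 1 / 2 * (x b + x (fl i b)) - T / 2 ^ (n + 1) := by
      intro b _
      have e1 : ∑ c ∈ univ.filter (fun c => ag n b c), x c = x b + x (fl i b) := by
        have := sum_split i b x
        rw [hiv] at this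
        rw [this, filter_full, Finset.sum_singleton]
      have e2 := hx b n (by omega)
      rw [filter_full, Finset.sum_singleton, e1] at e2
      have e3 := bal_class x hx n (by omega) b
      rw [e1, ← hT] at e3
      have e4 : (0 : ℝ) ≤ 2 / 2 ^ n := by positivity
      have e5 : T / 2 ^ n = 2 * (T / 2 ^ (n + 1)) := by
        rw [pow_succ]
        field_simp
      rw [e5] at e3
      obtain ⟨e6, e7⟩ := abs_le.1 e2
      obtain ⟨e8, e9⟩ := abs_le.1 e3
      rcases max_cases (0 : ℝ) (x b - T / 2 ^ (n + 1)) with ⟨f1, _⟩ | ⟨f1, _⟩ <;>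
        rcases max_cases (0 : ℝ) (x (fl i b) - T / 2 ^ (n + 1)) with ⟨f2, _⟩ | ⟨f2, _⟩ <;>
        rw [f1, f2] <;> linarith
    refine (Finset.sum_le_sum h1).trans (le_of_eq ?_)
    have h2 : ∑ b ∈ univ.filter (fun b : Cl (n + 1) => b i = false), (x b + x (fl i b)) = T :=
      sum_half' i x
    have h3 : ∑ b ∈ univ.filter (fun b : Cl (n + 1) => b i = false), ((1 : ℝ) + 1) =
        2 ^ (n + 1) := by
      have := sum_half' i (fun _ => (1 : ℝ))
      rw [this, Finset.sum_const, Finset.card_univ, Fintype.card_fun, Fintype.card_bool,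
        Fintype.card_fin, nsmul_eq_mul, mul_one]
      push_cast
      rfl
    rw [Finset.sum_const, nsmul_eq_mul] at h3
    rw [Finset.sum_sub_distrib, Finset.sum_add_distrib, ← Finset.mul_sum, h2, Finset.sum_const,
      Finset.sum_const, nsmul_eq_mul, nsmul_eq_mul]
    have h4 : ((univ.filter (fun b : Cl (n + 1) => b i = false)).card : ℝ) = 2 ^ (n + 1) / 2 := by
      linarith
    rw [h4]
    field_simp
    ring

theorem bal_neg (x : Cl m → ℝ) (hx : Bal x) : Bal (fun b => - x b) := by
  intro a j hj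
  have h1 := hx a j hj
  rw [Finset.sum_neg_distrib, Finset.sum_neg_distrib]
  rw [← abs_neg]
  refine (le_of_eq ?_).trans h1
  congr 1
  ring

end bal

end Pool.Agent.Work.MP_db9399_ch
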