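import Pool.Agent.Work.MP_db9399_ch_helper26.Core
import Pool.Agent.Work.MP_db9399_tk_helper59.Step

/-!
# MP_db9399, all scales: exponential moments of sums of squares of Rademacher sums (helper26)
-/

set_option autoImplicit false

namespace Pool.Agent.Work.MP_db9399_ch

open Finset Classical
open Pool.Agent.Work.MP_db9399_all (pr DepOnI PackI)
open Pool.Agent.Work.MP_db9399_tk

universe u v w

/-- one coin -/
theorem one_coin (x c ν : ℝ) (hν : 2 * c ^ 2 < ν) :
    Real.exp ((x + c) ^ 2 / ν) + Real.exp ((x - c) ^ 2 / ν) ≤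
      2 * Real.exp (c ^ 2 / ν + x ^ 2 / (ν - 2 * c ^ 2)) := by
  have hν0 : 0 < ν := lt_of_le_of_lt (by positivity) hν
  have hν1 : 0 < ν - 2 * c ^ 2 := by linarith
  have h1 : (x + c) ^ 2 / ν = (x ^ 2 + c ^ 2) / ν + 2 * x * c / ν := by
    field_simp
    ring
  have h2 : (x - c) ^ 2 / ν = (x ^ 2 + c ^ 2) / ν + -(2 * x * c / ν) := by
    field_simp
    ring
  rw [h1, h2, Real.exp_add, Real.exp_add, ← mul_add]
  have h3 := Real.cosh_le_exp_half_sq (2 * x * c / ν)
  rw [Real.cosh_eq] at h3
  have h4 : Real.exp (2 * x * c / ν) + Real.exp (-(2 * x * c / ν)) ≤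
      2 * Real.exp ((2 * x * c / ν) ^ 2 / 2) := by linarith
  refine (mul_le_mul_of_nonneg_left h4 (Real.exp_pos _).le).trans ?_
  have h5 : Real.exp ((x ^ 2 + c ^ 2) / ν) * (2 * Real.exp ((2 * x * c / ν) ^ 2 / 2)) =
      2 * Real.exp ((x ^ 2 + c ^ 2) / ν + (2 * x * c / ν) ^ 2 / 2) := by
    rw [Real.exp_add]
    ring
  rw [h5]
  refine mul_le_mul_of_nonneg_left (Real.exp_le_exp.2 ?_) (by norm_num)
  have h6 : (x ^ 2 + c ^ 2) / ν + (2 * x * c / ν) ^ 2 / 2 =
      c ^ 2 / ν + x ^ 2 * ((ν + 2 * c ^ 2) / ν ^ 2) := by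
    field_simp
    ring
  rw [h6]
  have h7 : (ν + 2 * c ^ 2) / ν ^ 2 ≤ 1 / (ν - 2 * c ^ 2) := by
    rw [div_le_div_iff₀ (by positivity) hν1]
    nlinarith [sq_nonneg (c ^ 2)]
  have h8 := mul_le_mul_of_nonneg_left h7 (sq_nonneg x)
  rw [mul_one_div] at h8
  linarith

section chaos
variable {J : Type u} {K : Type v} [Fintype J] [Fintype K]

theorem sg_flip (x : Fin 2) : sg (x + 1) = - sg x := by
  rw [sg_add]
  have : sg (1 : Fin 2) = -1 := by simp [sg]
  rw [this]
  ring

/-- the sum of the class `k` over the coins in `S` -/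
noncomputable def zs (c : J → ℝ) (cl : J → K) (S : Finset J) (f : J → Fin 2) (k : K) : ℝ :=
  ∑ q ∈ S.filter (fun q => cl q = k), sg (f q) * c q

/-- variance of the class `k` -/
noncomputable def vr (c : J → ℝ) (cl : J → K) (S : Finset J) (k : K) : ℝ :=
  ∑ q ∈ S.filter (fun q => cl q = k), c q ^ 2

theorem vr_nonneg (c : J → ℝ) (cl : J → K) (S : Finset J) (k : K) : 0 ≤ vr c cl S k :=
  sum_nonneg fun _ _ => sq_nonneg _

theorem chaos (c : J → ℝ) (cl : J → K) (μ : K → ℝ) (S : Finset J) :
    (∀ k, 2 * vr c cl S k < μ k) → ∀ x : K → ℝ,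
    ∑ f : J → Fin 2, Real.exp (∑ k, (x k + zs c cl S f k) ^ 2 / μ k) ≤
      (Fintype.card (J → Fin 2) : ℝ) *
        Real.exp (∑ k, (vr c cl S k + x k ^ 2) / (μ k - 2 * vr c cl S k)) := by
  induction S using Finset.induction_on with
  | empty =>
    intro _ x
    have h1 : ∀ f k, zs c cl ∅ f k = 0 := by
      intro f k
      unfold zs
      rw [filter_empty, sum_empty]
    have h2 : ∀ k, vr c cl ∅ k = 0 := by
      intro k
      unfold vr
      rw [filter_empty, sum_empty]
    simp only [h1, h2, add_zero, zero_add, mul_zero, sub_zero]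
    rw [sum_const, card_univ, nsmul_eq_mul]
  | insert q0 S hq ih =>
    intro hμ x
    set k0 := cl q0 with hk0
    have hzs : ∀ f k, zs c cl (insert q0 S) f k =
        (if k = k0 then sg (f q0) * c q0 else 0) + zs c cl S f k := by
      intro f k
      unfold zs
      rw [filter_insert]
      by_cases h : cl q0 = k
      · rw [if_pos h, if_pos (hk0.trans h).symm, sum_insert fun h' => hq (mem_filter.1 h').1]
      · rw [if_neg h, if_neg (fun h' => h (hk0.symm.trans h'.symm)), zero_add]
    have hvr : ∀ k, vr c cl (insert q0 S) k = (if k = k0 then c q0 ^ 2 else 0) + vr c cl S k := by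
      intro k
      unfold vr
      rw [filter_insert]
      by_cases h : cl q0 = k
      · rw [if_pos h, if_pos (hk0.trans h).symm, sum_insert fun h' => hq (mem_filter.1 h').1]
      · rw [if_neg h, if_neg (fun h' => h (hk0.symm.trans h'.symm)), zero_add]
    have hμS : ∀ k, 2 * vr c cl S k < μ k := by
      intro k
      refine lt_of_le_of_lt ?_ (hμ k)
      rw [hvr]
      split_ifs
      · nlinarith [sq_nonneg (c q0)]
      · linarith
    have hih := ih hμS
    -- the coin `q0`
    set G : ℝ → (J → Fin 2) → ℝ := fun y f =>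
      Real.exp (∑ k, ((x k + if k = k0 then y else 0) + zs c cl S f k) ^ 2 / μ k) with hG
    have h1 : ∀ f, Real.exp (∑ k, (x k + zs c cl (insert q0 S) f k) ^ 2 / μ k) =
        G (sg (f q0) * c q0) f := by
      intro f
      rw [hG]
      congr 1
      refine sum_congr rfl fun k _ => ?_
      rw [hzs, add_assoc]
    have hfl : ∀ y f a, G y (Function.update f q0 a) = G y f := by
      intro y f a
      rw [hG]
      simp only
      congr 1
      refine sum_congr rfl fun k _ => ?_
      congr 3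
      unfold zs
      refine sum_congr rfl fun q hq' => ?_
      rw [Function.update_of_ne]
      rintro rfl
      exact hq (mem_filter.1 hq').1
    have h2 : ∑ f : J → Fin 2, G (sg (f q0) * c q0) f =
        ∑ f : J → Fin 2, G (-(sg (f q0) * c q0)) f := by
      refine sum_nbij' (fun f => Function.update f q0 (f q0 + 1))
        (fun f => Function.update f q0 (f q0 + 1)) (fun f _ => mem_univ _) (fun f _ => mem_univ _)
        ?_ ?_ ?_
      · intro f _
        simp only [Function.update_idem, Function.update_self]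
        have : f q0 + 1 + 1 = f q0 := by
          generalize f q0 = z
          fin_cases z <;> rfl
        rw [this, Function.update_eq_self]
      · intro f _
        simp only [Function.update_idem, Function.update_self]
        have : f q0 + 1 + 1 = f q0 := by
          generalize f q0 = z
          fin_cases z <;> rfl
        rw [this, Function.update_eq_self]
      · intro f _
        simp only [Function.update_self]
        rw [hfl, sg_flip]
        congr 1
        ring
    have h3 : ∀ f : J → Fin 2, G (sg (f q0) * c q0) f + G (-(sg (f q0) * c q0)) f =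
        G (c q0) f + G (-(c q0)) f := by
      intro f
      unfold sg
      split_ifs
      · rw [show (-1 : ℝ) * c q0 = -(c q0) by ring, neg_neg, add_comm]
      · rw [one_mul]
    have h4 : 2 * ∑ f : J → Fin 2, G (sg (f q0) * c q0) f =
        ∑ f : J → Fin 2, G (c q0) f + ∑ f : J → Fin 2, G (-(c q0)) f := by
      rw [← sum_add_distrib, ← sum_congr rfl fun f _ => h3 f, sum_add_distrib, ← h2]
      ring
    have h5 := hih (fun k => x k + if k = k0 then c q0 else 0)
    have h6 := hih (fun k => x k + if k = k0 then -(c q0) else 0)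
    rw [sum_congr rfl fun f _ => h1 f]
    -- the exponents
    set ν := μ k0 - 2 * vr c cl S k0 with hν
    have hνc : 2 * c q0 ^ 2 < ν := by
      have := hμ k0
      rw [hvr, if_pos rfl] at this
      rw [hν]
      linarith
    set R : ℝ := ∑ k ∈ univ.erase k0, (vr c cl S k + x k ^ 2) / (μ k - 2 * vr c cl S k) with hR
    have h7 : ∀ y : ℝ, ∑ k, (vr c cl S k + (x k + if k = k0 then y else 0) ^ 2) /
        (μ k - 2 * vr c cl S k) = R + vr c cl S k0 / ν + (x k0 + y) ^ 2 / ν := by
      intro y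
      rw [← add_sum_erase _ _ (mem_univ k0), if_pos rfl, ← hν, add_div]
      have : ∑ k ∈ univ.erase k0, (vr c cl S k + (x k + if k = k0 then y else 0) ^ 2) /
          (μ k - 2 * vr c cl S k) = R := by
        rw [hR]
        refine sum_congr rfl fun k hk => ?_
        rw [if_neg (mem_erase.1 hk).1, add_zero]
      rw [this]
      ring
    have h8 : ∑ k, (vr c cl (insert q0 S) k + x k ^ 2) / (μ k - 2 * vr c cl (insert q0 S) k) =
        R + (c q0 ^ 2 + vr c cl S k0 + x k0 ^ 2) / (ν - 2 * c q0 ^ 2) := by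
      rw [← add_sum_erase _ _ (mem_univ k0), hvr, if_pos rfl]
      have : ∑ k ∈ univ.erase k0, (vr c cl (insert q0 S) k + x k ^ 2) /
          (μ k - 2 * vr c cl (insert q0 S) k) = R := by
        rw [hR]
        refine sum_congr rfl fun k hk => ?_
        rw [hvr, if_neg (mem_erase.1 hk).1, zero_add]
      rw [this, add_comm]
      congr 2
      rw [hν]
      ring
    rw [h8]
    rw [h7] at h5 h6
    have h9 := one_coin (x k0) (c q0) ν hνc
    have hν0 : 0 < ν := lt_of_le_of_lt (by positivity) hνc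
    have hν1 : 0 < ν - 2 * c q0 ^ 2 := by linarith
    have hcard : (0 : ℝ) ≤ Fintype.card (J → Fin 2) := Nat.cast_nonneg _
    have h10 : R + vr c cl S k0 / ν + (c q0 ^ 2 / ν + x k0 ^ 2 / (ν - 2 * c q0 ^ 2)) ≤
        R + (c q0 ^ 2 + vr c cl S k0 + x k0 ^ 2) / (ν - 2 * c q0 ^ 2) := by
      have a1 : vr c cl S k0 / ν ≤ vr c cl S k0 / (ν - 2 * c q0 ^ 2) :=
        div_le_div_of_nonneg_left (vr_nonneg c cl S k0) hν1 (by nlinarith [sq_nonneg (c q0)])
      have a2 : c q0 ^ 2 / ν ≤ c q0 ^ 2 / (ν - 2 * c q0 ^ 2) :=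
        div_le_div_of_nonneg_left (sq_nonneg _) hν1 (by nlinarith [sq_nonneg (c q0)])
      rw [add_div, add_div]
      linarith
    have h11 : 2 * ∑ f : J → Fin 2, G (sg (f q0) * c q0) f ≤
        2 * ((Fintype.card (J → Fin 2) : ℝ) *
          Real.exp (R + (c q0 ^ 2 + vr c cl S k0 + x k0 ^ 2) / (ν - 2 * c q0 ^ 2))) := by
      rw [h4]
      refine (add_le_add h5 h6).trans ?_
      rw [← mul_add, Real.exp_add, Real.exp_add (R + vr c cl S k0 / ν), ← mul_add]
      have h12 : Real.exp (R + vr c cl S k0 / ν) * (Real.exp ((x k0 + c q0) ^ 2 / ν) +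
          Real.exp ((x k0 + -c q0) ^ 2 / ν)) ≤ Real.exp (R + vr c cl S k0 / ν) *
            (2 * Real.exp (c q0 ^ 2 / ν + x k0 ^ 2 / (ν - 2 * c q0 ^ 2))) := by
        refine mul_le_mul_of_nonneg_left ?_ (Real.exp_pos _).le
        rw [← sub_eq_add_neg]
        exact h9
      refine (mul_le_mul_of_nonneg_left h12 hcard).trans ?_
      have h13 : Real.exp (R + vr c cl S k0 / ν) *
          (2 * Real.exp (c q0 ^ 2 / ν + x k0 ^ 2 / (ν - 2 * c q0 ^ 2))) =
          2 * Real.exp (R + vr c cl S k0 / ν + (c q0 ^ 2 / ν + x k0 ^ 2 / (ν - 2 * c q0 ^ 2))) := by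
        rw [Real.exp_add (R + vr c cl S k0 / ν)]
        ring
      rw [h13]
      have h14 := mul_le_mul_of_nonneg_left (Real.exp_le_exp.2 h10) hcard
      linarith
    linarith

/-- tail of a sum of squares -/
theorem sq_tail (c : J → ℝ) (cl : J → K) (σ Λ : ℝ) (hσ : 0 < σ) (hc : ∀ k, vr c cl univ k ≤ σ) :
    pr (fun f : J → Fin 2 => 2 * ∑ q, c q ^ 2 + 4 * Λ * σ < ∑ k, zs c cl univ f k ^ 2) ≤
      Real.exp (-Λ) := by
  have h1 := chaos c cl (fun _ => 4 * σ) univ (fun k => by have := hc k; linarith) (fun _ => 0)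
  simp only [zero_add, ne_eq, OfNat.ofNat_ne_zero, not_false_eq_true, zero_pow, add_zero] at h1
  have hcard : (0 : ℝ) < Fintype.card (J → Fin 2) := by exact_mod_cast Fintype.card_pos
  have h2 : ∑ k, vr c cl univ k / (4 * σ - 2 * vr c cl univ k) ≤ (∑ q, c q ^ 2) / (2 * σ) := by
    have h3 : ∑ k, vr c cl univ k = ∑ q, c q ^ 2 := by
      unfold vr
      exact sum_fiberwise univ cl fun q => c q ^ 2
    rw [← h3, sum_div]
    refine sum_le_sum fun k _ => ?_
    refine div_le_div_of_nonneg_left (vr_nonneg c cl univ k) (by positivity) ?_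
    have := hc k
    linarith
  set t := 2 * ∑ q, c q ^ 2 + 4 * Λ * σ with ht
  have h3 : ((univ.filter (fun f : J → Fin 2 => t < ∑ k, zs c cl univ f k ^ 2)).card : ℝ) *
      Real.exp (t / (4 * σ)) ≤
      ∑ f : J → Fin 2, Real.exp (∑ k, zs c cl univ f k ^ 2 / (4 * σ)) := by
    rw [← nsmul_eq_mul, ← Finset.sum_const]
    refine (Finset.sum_le_sum (g := fun f : J → Fin 2 =>
      Real.exp (∑ k, zs c cl univ f k ^ 2 / (4 * σ))) fun f hf => ?_).trans
      (Finset.sum_le_sum_of_subset_of_nonneg (Finset.subset_univ _)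
      fun f _ _ => (Real.exp_pos _).le)
    refine Real.exp_le_exp.2 ?_
    rw [← sum_div]
    exact div_le_div_of_nonneg_right (mem_filter.1 hf).2.le (by positivity)
  have h4 := h3.trans (h1.trans (mul_le_mul_of_nonneg_left (Real.exp_le_exp.2 h2) hcard.le))
  unfold pr
  rw [div_le_iff₀ hcard]
  have h5 : t / (4 * σ) = (∑ q, c q ^ 2) / (2 * σ) + Λ := by
    rw [ht]
    field_simp
    ring
  rw [h5, Real.exp_add] at h4
  have h6 := Real.exp_pos ((∑ q, c q ^ 2) / (2 * σ))
  have h7 := Real.exp_pos Λ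
  rw [Real.exp_neg]
  have h8 : ((univ.filter (fun f : J → Fin 2 => t < ∑ k, zs c cl univ f k ^ 2)).card : ℝ) *
      Real.exp Λ ≤ Fintype.card (J → Fin 2) := by
    have h9 : Real.exp ((∑ q, c q ^ 2) / (2 * σ)) *
        (((univ.filter (fun f : J → Fin 2 => t < ∑ k, zs c cl univ f k ^ 2)).card : ℝ) *
          Real.exp Λ) ≤ Real.exp ((∑ q, c q ^ 2) / (2 * σ)) * Fintype.card (J → Fin 2) := by
      linarith
    exact le_of_mul_le_mul_left h9 h6
  rw [inv_mul_eq_div, le_div_iff₀ h7]
  exact h8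

/-- package for a sum of squares -/
theorem packSq (T W σ Λ : ℝ) (Q : Finset J) (c : J → ℝ) (cl : J → K)
    (hc0 : ∀ p, p ∉ Q → c p = 0) (hc : ∀ k, vr c cl univ k ≤ σ) (hσ : 0 ≤ σ) (hΛ : 0 ≤ Λ)
    (hW : Real.exp (-Λ) * 2 ≤ W) (hexp : Real.exp (2 * T * (Q.card : ℝ)) ≤ 2) :
    PackI T Q W (fun f : J → Fin 2 => ¬ (2 * ∑ q, c q ^ 2 + 4 * Λ * σ <
      ∑ k, zs c cl univ f k ^ 2)) := by
  have hpos := Real.exp_pos (-Λ)
  refine mkpack T W Q (fun f : J → Fin 2 => 2 * ∑ q, c q ^ 2 + 4 * Λ * σ <
      ∑ k, zs c cl univ f k ^ 2) ?_ (by linarith) ?_ ?_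
  · intro f f' hff
    have h1 : ∀ k, zs c cl univ f k = zs c cl univ f' k := by
      intro k
      unfold zs
      refine sum_congr rfl fun q _ => ?_
      by_cases hq : q ∈ Q
      · rw [hff q hq]
      · rw [hc0 q hq, mul_zero, mul_zero]
    simp only [h1]
  · refine (mul_le_mul (b := Real.exp (-Λ)) ?_ hexp (Real.exp_pos _).le hpos.le).trans hW
    rcases hσ.eq_or_lt with h0 | h0
    · refine le_trans (le_of_eq (pr_zero _ ?_)) hpos.le
      intro f hf
      have h1 : ∀ k, zs c cl univ f k = 0 := by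
        intro k
        have h2 : ∑ q ∈ univ.filter (fun q => cl q = k), c q ^ 2 ≤ 0 := by
          have := hc k
          rw [← h0] at this
          exact this
        have h3 := (Finset.sum_eq_zero_iff_of_nonneg fun p _ => sq_nonneg _).1
          (le_antisymm h2 (Finset.sum_nonneg fun p _ => sq_nonneg _))
        unfold zs
        refine sum_eq_zero fun q hq => ?_
        rw [pow_eq_zero_iff (two_ne_zero) |>.1 (h3 q hq), mul_zero]
      simp only [h1] at hf
      rw [← h0] at hf
      have h4 : (0 : ℝ) ≤ ∑ q, c q ^ 2 := sum_nonneg fun _ _ => sq_nonneg _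
      norm_num at hf
      linarith
    · exact sq_tail c cl σ Λ h0 hc
  · intro hQ f hf
    have h1 : ∀ q, c q = 0 := fun q => hc0 q (by rw [hQ]; exact notMem_empty _)
    have h2 : ∀ k, zs c cl univ f k = 0 := by
      intro k
      unfold zs
      exact sum_eq_zero fun q _ => by rw [h1 q, mul_zero]
    simp only [h1, h2] at hf
    norm_num at hf
    have := mul_nonneg hΛ hσ
    nlinarith

end chaos

end Pool.Agent.Work.MP_db9399_ch
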