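import Pool.Agent.Work.MP_db9399_tk_helper59.Base

/-!
# MP_db9399, all scales: chained Kempe coins, part 1 (helper26)

Combinatorial core. `O`: ends of the Kempe components, `P`: components, every component has at most
two ends; `nd`: node of an end, `t`: signed value of the end in its node (`0` outside the nodes).
There are relative signs `ε` and a map `κ` (chains) such that every chain has at most two ends with
`t = 0`, and for every choice of one coin per chain the total of every node is at most `2`.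
-/

set_option autoImplicit false

namespace Pool.Agent.Work.MP_db9399_ch

open Finset Classical
open Pool.Agent.Work.MP_db9399_tk (sg)

universe u v w

theorem sg_add (a b : Fin 2) : sg (a + b) = sg a * sg b := by
  unfold sg
  fin_cases a <;> fin_cases b <;> norm_num

theorem sg_mul_self (a : Fin 2) : sg a * sg a = 1 := by
  unfold sg
  split_ifs <;> norm_num

theorem sg_abs (a : Fin 2) : |sg a| = 1 := by
  unfold sg
  split_ifs <;> norm_num

variable {O : Type u} {P : Type v} {N : Type w} [Fintype O]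

/-- invariant of the construction -/
def Inv (pp : O → P) (nd : O → N) (t : O → ℝ) (κ : P → P) (ε : P → Fin 2) (Fr : Finset O) : Prop :=
  (∀ q, (Fr.filter (fun o => κ (pp o) = q)).card ≤ 2) ∧ (∀ o, t o = 0 → o ∈ Fr) ∧
    ∀ q n, ∑ o ∈ univ.filter (fun o => o ∉ Fr ∧ κ (pp o) = q ∧ nd o = n),
      sg (ε (pp o)) * t o = 0

theorem merge (pp : O → P) (nd : O → N) (t : O → ℝ) (ht : ∀ o, t o = 0 ∨ t o = 1 ∨ t o = -1)
    (κ : P → P) (ε : P → Fin 2) (Fr : Finset O) (hI : Inv pp nd t κ ε Fr) (o1 o2 : O)
    (h1 : o1 ∈ Fr) (h2 : o2 ∈ Fr) (ht1 : t o1 ≠ 0) (ht2 : t o2 ≠ 0) (hn : nd o1 = nd o2)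
    (hκ : κ (pp o1) ≠ κ (pp o2)) :
    ∃ (κ' : P → P) (ε' : P → Fin 2), Inv pp nd t κ' ε' (Fr \ {o1, o2}) := by
  obtain ⟨a1, a2, a3⟩ := hI
  obtain ⟨c, hc⟩ : ∃ c : Fin 2, sg (ε (pp o1)) * t o1 + sg c * (sg (ε (pp o2)) * t o2) = 0 := by
    have e1 := sg_mul_self (ε (pp o1))
    have e2 := sg_mul_self (ε (pp o2))
    have k0 : sg (0 : Fin 2) = 1 := by simp [sg]
    have k1 : sg (1 : Fin 2) = -1 := by simp [sg]
    have hx : ∀ (e : Fin 2) (x : ℝ), x ≠ 0 → (x = 0 ∨ x = 1 ∨ x = -1) →
        sg e * x = 1 ∨ sg e * x = -1 := by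
      intro e x hx hx'
      unfold sg
      rcases hx' with h | h | h
      · exact absurd h hx
      · subst h
        split_ifs <;> norm_num
      · subst h
        split_ifs <;> norm_num
    rcases hx (ε (pp o1)) (t o1) ht1 (ht o1) with h3 | h3 <;>
      rcases hx (ε (pp o2)) (t o2) ht2 (ht o2) with h4 | h4
    · exact ⟨1, by rw [h3, h4, k1]; ring⟩
    · exact ⟨0, by rw [h3, h4, k0]; ring⟩
    · exact ⟨0, by rw [h3, h4, k0]; ring⟩
    · exact ⟨1, by rw [h3, h4, k1]; ring⟩
  have hne : o1 ≠ o2 := fun h => hκ (by rw [h])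
  set q1 := κ (pp o1) with hq1
  set q2 := κ (pp o2) with hq2
  refine ⟨fun p => if κ p = q2 then q1 else κ p, fun p => if κ p = q2 then c + ε p else ε p,
    ?_, ?_, ?_⟩
  · intro q
    show ((Fr \ {o1, o2}).filter (fun o => (if κ (pp o) = q2 then q1 else κ (pp o)) = q)).card ≤ 2
    by_cases hq : q = q1
    · have h3 : (Fr \ {o1, o2}).filter (fun o => (if κ (pp o) = q2 then q1 else κ (pp o)) = q) ⊆
          ((Fr.filter (fun o => κ (pp o) = q1)).erase o1) ∪
            ((Fr.filter (fun o => κ (pp o) = q2)).erase o2) := by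
        intro o ho
        rw [mem_filter, mem_sdiff, mem_insert, mem_singleton, not_or] at ho
        rw [mem_union, mem_erase, mem_erase, mem_filter, mem_filter]
        by_cases h5 : κ (pp o) = q2
        · exact Or.inr ⟨ho.1.2.2, ho.1.1, h5⟩
        · rw [if_neg h5] at ho
          exact Or.inl ⟨ho.1.2.1, ho.1.1, ho.2.trans hq⟩
      refine (card_le_card h3).trans ((card_union_le _ _).trans ?_)
      have m1 : o1 ∈ Fr.filter (fun o => κ (pp o) = q1) := mem_filter.2 ⟨h1, rfl⟩
      have m2 : o2 ∈ Fr.filter (fun o => κ (pp o) = q2) := mem_filter.2 ⟨h2, rfl⟩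
      rw [card_erase_of_mem m1, card_erase_of_mem m2]
      have := a1 q1
      have := a1 q2
      omega
    · refine le_trans (card_le_card ?_) (a1 q)
      intro o ho
      rw [mem_filter, mem_sdiff] at ho
      rw [mem_filter]
      refine ⟨ho.1.1, ?_⟩
      by_cases h5 : κ (pp o) = q2
      · rw [if_pos h5] at ho
        exact absurd ho.2.symm hq
      · rw [if_neg h5] at ho
        exact ho.2
  · intro o ho
    rw [mem_sdiff, mem_insert, mem_singleton, not_or]
    refine ⟨a2 o ho, ?_, ?_⟩
    · rintro rfl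
      exact ht1 ho
    · rintro rfl
      exact ht2 ho
  · intro q n
    show ∑ o ∈ univ.filter (fun o => o ∉ Fr \ {o1, o2} ∧
      (if κ (pp o) = q2 then q1 else κ (pp o)) = q ∧ nd o = n),
      sg (if κ (pp o) = q2 then c + ε (pp o) else ε (pp o)) * t o = 0
    by_cases hq : q = q1
    · -- split according to the old chain
      have h3 : univ.filter (fun o => o ∉ Fr \ {o1, o2} ∧
          (if κ (pp o) = q2 then q1 else κ (pp o)) = q ∧ nd o = n) =
          ((univ.filter (fun o => o ∉ Fr ∧ κ (pp o) = q1 ∧ nd o = n)) ∪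
            (univ.filter (fun o => o ∉ Fr ∧ κ (pp o) = q2 ∧ nd o = n))) ∪
              (({o1, o2} : Finset O).filter (fun o => nd o = n)) := by
        ext o
        rw [mem_union, mem_union, mem_filter, mem_filter, mem_filter, mem_filter, mem_sdiff, hq,
          mem_insert, mem_singleton]
        constructor
        · rintro ⟨_, h4, h5, h6⟩
          by_cases h7 : o ∈ Fr
          · have h8 : o = o1 ∨ o = o2 := by
              by_contra h9
              exact h4 ⟨h7, h9⟩
            exact Or.inr ⟨h8, h6⟩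
          · left
            by_cases h8 : κ (pp o) = q2
            · exact Or.inr ⟨mem_univ _, h7, h8, h6⟩
            · rw [if_neg h8] at h5
              exact Or.inl ⟨mem_univ _, h7, h5, h6⟩
        · rintro ((⟨_, h4, h5, h6⟩ | ⟨_, h4, h5, h6⟩) | ⟨h4, h6⟩)
          · refine ⟨mem_univ _, fun h => h4 h.1, ?_, h6⟩
            rw [if_neg (by rw [h5]; exact hκ), h5]
          · refine ⟨mem_univ _, fun h => h4 h.1, ?_, h6⟩
            rw [if_pos h5]
          · refine ⟨mem_univ _, fun h => h.2 h4, ?_, h6⟩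
            rcases h4 with rfl | rfl
            · rw [if_neg hκ]
            · rw [if_pos rfl]
      have hd1 : Disjoint (univ.filter (fun o => o ∉ Fr ∧ κ (pp o) = q1 ∧ nd o = n))
          (univ.filter (fun o => o ∉ Fr ∧ κ (pp o) = q2 ∧ nd o = n)) := by
        rw [disjoint_left]
        intro o ho ho'
        exact hκ ((mem_filter.1 ho).2.2.1.symm.trans (mem_filter.1 ho').2.2.1)
      have hd2 : Disjoint ((univ.filter (fun o => o ∉ Fr ∧ κ (pp o) = q1 ∧ nd o = n)) ∪
            (univ.filter (fun o => o ∉ Fr ∧ κ (pp o) = q2 ∧ nd o = n)))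
              (({o1, o2} : Finset O).filter (fun o => nd o = n)) := by
        rw [disjoint_left]
        intro o ho ho'
        have h4 : o ∈ Fr := by
          have := (mem_filter.1 ho').1
          rw [mem_insert, mem_singleton] at this
          rcases this with rfl | rfl
          · exact h1
          · exact h2
        rw [mem_union, mem_filter, mem_filter] at ho
        rcases ho with ho | ho
        · exact ho.2.1 h4
        · exact ho.2.1 h4
      rw [h3, sum_union hd2, sum_union hd1]
      have s1 : ∑ o ∈ univ.filter (fun o => o ∉ Fr ∧ κ (pp o) = q1 ∧ nd o = n),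
          sg (if κ (pp o) = q2 then c + ε (pp o) else ε (pp o)) * t o = 0 := by
        rw [← a3 q1 n]
        refine sum_congr rfl fun o ho => ?_
        rw [if_neg (by rw [(mem_filter.1 ho).2.2.1]; exact hκ)]
      have s2 : ∑ o ∈ univ.filter (fun o => o ∉ Fr ∧ κ (pp o) = q2 ∧ nd o = n),
          sg (if κ (pp o) = q2 then c + ε (pp o) else ε (pp o)) * t o = 0 := by
        have h4 : ∀ o ∈ univ.filter (fun o => o ∉ Fr ∧ κ (pp o) = q2 ∧ nd o = n),
            sg (if κ (pp o) = q2 then c + ε (pp o) else ε (pp o)) * t o =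
              sg c * (sg (ε (pp o)) * t o) := by
          intro o ho
          rw [if_pos (mem_filter.1 ho).2.2.1, sg_add]
          ring
        rw [sum_congr rfl h4, ← mul_sum, a3 q2 n, mul_zero]
      have s3 : ∑ o ∈ ({o1, o2} : Finset O).filter (fun o => nd o = n),
          sg (if κ (pp o) = q2 then c + ε (pp o) else ε (pp o)) * t o = 0 := by
        rw [sum_filter, sum_pair hne, if_neg hκ, if_pos (rfl : κ (pp o2) = q2), sg_add]
        by_cases h4 : nd o1 = n
        · rw [if_pos h4, if_pos (hn ▸ h4), ← hc]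
          ring
        · rw [if_neg h4, if_neg (fun h => h4 (hn.trans h)), add_zero]
      rw [s1, s2, s3]
      ring
    · by_cases hqq : q = q2
      · rw [filter_false_of_mem, sum_empty]
        rintro o _ ⟨_, h4, _⟩
        by_cases h5 : κ (pp o) = q2
        · rw [if_pos h5] at h4
          exact hq h4.symm
        · rw [if_neg h5] at h4
          exact h5 (h4.trans hqq)
      · rw [← a3 q n]
        refine sum_congr ?_ ?_
        · ext o
          rw [mem_filter, mem_filter, mem_sdiff, mem_insert, mem_singleton]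
          constructor
          · rintro ⟨_, h4, h5, h6⟩
            by_cases h7 : κ (pp o) = q2
            · rw [if_pos h7] at h5
              exact absurd h5.symm hq
            · rw [if_neg h7] at h5
              refine ⟨mem_univ _, fun h8 => ?_, h5, h6⟩
              have h9 : o = o1 ∨ o = o2 := by
                by_contra h9
                exact h4 ⟨h8, h9⟩
              rcases h9 with rfl | rfl
              · exact hq h5.symm
              · exact hqq h5.symm
          · rintro ⟨_, h4, h5, h6⟩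
            refine ⟨mem_univ _, fun h => h4 h.1, ?_, h6⟩
            rw [if_neg (by rw [h5]; exact hqq), h5]
        · intro o ho
          rw [if_neg (by rw [(mem_filter.1 ho).2.2.1]; exact hqq)]

/-- **Chains.** -/
theorem chain_core (pp : O → P) (nd : O → N) (t : O → ℝ)
    (ht : ∀ o, t o = 0 ∨ t o = 1 ∨ t o = -1)
    (h2 : ∀ p, (univ.filter (fun o => pp o = p)).card ≤ 2) :
    ∃ (κ : P → P) (ε : P → Fin 2),
      (∀ q, (univ.filter (fun o => κ (pp o) = q ∧ t o = 0)).card ≤ 2) ∧
      ∀ (f : P → Fin 2) (n : N),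
        |∑ o ∈ univ.filter (fun o => nd o = n), sg (ε (pp o) + f (κ (pp o))) * t o| ≤ 2 := by
  have hex : ∃ k, ∃ (κ : P → P) (ε : P → Fin 2) (Fr : Finset O), Inv pp nd t κ ε Fr ∧
      Fr.card = k := by
    refine ⟨_, id, fun _ => 0, univ, ⟨h2, fun o _ => mem_univ o, ?_⟩, rfl⟩
    intro q n
    rw [filter_false_of_mem, sum_empty]
    rintro o _ ⟨h, _⟩
    exact h (mem_univ o)
  obtain ⟨κ, ε, Fr, hI, hk⟩ := Nat.find_spec hex
  have hmin : ∀ (κ' : P → P) (ε' : P → Fin 2) (Fr' : Finset O), Inv pp nd t κ' ε' Fr' →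
      Fr.card ≤ Fr'.card := by
    intro κ' ε' Fr' h'
    rw [hk]
    exact Nat.find_min' hex ⟨κ', ε', Fr', h', rfl⟩
  have hone : ∀ o1 ∈ Fr, ∀ o2 ∈ Fr, t o1 ≠ 0 → t o2 ≠ 0 → nd o1 = nd o2 →
      κ (pp o1) = κ (pp o2) := by
    intro o1 h1 o2 h2' ht1 ht2 hn
    by_contra hκ
    obtain ⟨κ', ε', h'⟩ := merge pp nd t ht κ ε Fr hI o1 o2 h1 h2' ht1 ht2 hn hκ
    have h3 := hmin κ' ε' _ h'
    have h4 : (Fr \ {o1, o2}).card < Fr.card := by
      refine card_lt_card ⟨sdiff_subset, fun h => ?_⟩
      have := h h1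
      rw [mem_sdiff] at this
      exact this.2 (mem_insert_self _ _)
    omega
  obtain ⟨a1, a2, a3⟩ := hI
  refine ⟨κ, ε, fun q => ?_, fun f n => ?_⟩
  · refine le_trans (card_le_card ?_) (a1 q)
    intro o ho
    rw [mem_filter] at ho ⊢
    exact ⟨a2 o ho.2.2, ho.2.1⟩
  · -- the ends which are not free cancel in every chain
    have h3 : ∑ o ∈ univ.filter (fun o => o ∉ Fr ∧ nd o = n),
        sg (ε (pp o) + f (κ (pp o))) * t o = 0 := by
      set A := univ.filter (fun o => o ∉ Fr ∧ nd o = n) with hA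
      rw [← sum_fiberwise_of_maps_to (s := A) (t := A.image fun o => κ (pp o))
        (g := fun o => κ (pp o)) fun o ho => mem_image_of_mem _ ho]
      refine sum_eq_zero fun q _ => ?_
      have h4 : ∀ o ∈ A.filter (fun o => κ (pp o) = q), sg (ε (pp o) + f (κ (pp o))) * t o =
          sg (f q) * (sg (ε (pp o)) * t o) := by
        intro o ho
        rw [sg_add, (mem_filter.1 ho).2]
        ring
      rw [sum_congr rfl h4, ← mul_sum]
      have h5 : A.filter (fun o => κ (pp o) = q) =
          univ.filter (fun o => o ∉ Fr ∧ κ (pp o) = q ∧ nd o = n) := by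
        ext o
        rw [mem_filter, hA, mem_filter, mem_filter]
        tauto
      rw [h5, a3 q n, mul_zero]
    have h4 : univ.filter (fun o => nd o = n) =
        (univ.filter (fun o => o ∉ Fr ∧ nd o = n)) ∪ (Fr.filter (fun o => nd o = n)) := by
      ext o
      rw [mem_union, mem_filter, mem_filter, mem_filter]
      by_cases h : o ∈ Fr
      · constructor
        · rintro ⟨_, h5⟩
          exact Or.inr ⟨h, h5⟩
        · rintro (⟨_, _, h5⟩ | ⟨_, h5⟩)
          · exact ⟨mem_univ _, h5⟩
          · exact ⟨mem_univ _, h5⟩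
      · constructor
        · rintro ⟨_, h5⟩
          exact Or.inl ⟨mem_univ _, h, h5⟩
        · rintro (⟨_, _, h5⟩ | ⟨_, h5⟩)
          · exact ⟨mem_univ _, h5⟩
          · exact ⟨mem_univ _, h5⟩
    have h5 : Disjoint (univ.filter (fun o => o ∉ Fr ∧ nd o = n))
        (Fr.filter (fun o => nd o = n)) := by
      rw [disjoint_left]
      intro o ho ho'
      exact (mem_filter.1 ho).2.1 (mem_filter.1 ho').1
    rw [h4, sum_union h5, h3, zero_add]
    -- the free ends of the node
    set B := (Fr.filter (fun o => nd o = n)).filter (fun o => t o ≠ 0) with hB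
    have h6 : ∑ o ∈ Fr.filter (fun o => nd o = n), sg (ε (pp o) + f (κ (pp o))) * t o =
        ∑ o ∈ B, sg (ε (pp o) + f (κ (pp o))) * t o := by
      symm
      refine sum_subset (filter_subset _ _) ?_
      intro o ho ho'
      have : t o = 0 := by
        by_contra h
        exact ho' (mem_filter.2 ⟨ho, h⟩)
      rw [this, mul_zero]
    have h7 : B.card ≤ 2 := by
      rcases B.eq_empty_or_nonempty with he | ⟨o0, ho0⟩
      · rw [he]
        simp
      · refine le_trans (card_le_card ?_) (a1 (κ (pp o0)))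
        intro o ho
        rw [hB, mem_filter, mem_filter] at ho ho0
        rw [mem_filter]
        exact ⟨ho.1.1, hone o ho.1.1 o0 ho0.1.1 ho.2 ho0.2 (ho.1.2.trans ho0.1.2.symm)⟩
    rw [h6]
    refine (abs_sum_le_sum_abs _ _).trans ?_
    refine (sum_le_sum (g := fun _ => (1 : ℝ)) fun o _ => ?_).trans ?_
    · rw [abs_mul, sg_abs, one_mul]
      rcases ht o with h | h | h <;> rw [h] <;> norm_num
    · rw [sum_const, nsmul_eq_mul, mul_one]
      exact_mod_cast h7

/-- `chain_core` without decidability instances -/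
theorem chain_core' (pp : O → P) (nd : O → N) (t : O → ℝ)
    (ht : ∀ o, t o = 0 ∨ t o = 1 ∨ t o = -1)
    (h2 : ∀ p, ∀ E : Finset O, (∀ o ∈ E, pp o = p) → E.card ≤ 2) :
    ∃ (κ : P → P) (ε : P → Fin 2),
      (∀ q, ∀ E : Finset O, (∀ o ∈ E, κ (pp o) = q ∧ t o = 0) → E.card ≤ 2) ∧
      ∀ (f : P → Fin 2) (n : N) (E : Finset O), (∀ o, o ∈ E ↔ nd o = n) →
        |∑ o ∈ E, sg (ε (pp o) + f (κ (pp o))) * t o| ≤ 2 := by
  obtain ⟨κ, ε, h3, h4⟩ := chain_core pp nd t ht fun p => h2 p _ fun o ho => (mem_filter.1 ho).2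
  refine ⟨κ, ε, fun q E hE => ?_, fun f n E hE => ?_⟩
  · refine (card_le_card fun o ho => ?_).trans (h3 q)
    exact mem_filter.2 ⟨mem_univ _, hE o ho⟩
  · have h5 : E = univ.filter (fun o => nd o = n) := by
      ext o
      rw [hE, mem_filter]
      exact ⟨fun h => ⟨mem_univ _, h⟩, fun h => h.2⟩
    rw [h5]
    exact h4 f n

end Pool.Agent.Work.MP_db9399_ch
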