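import Pool.Agent.Work.MP_db9399_tkn_helper59.Core3

/-!
# MP_db9399, all scales: chained Kempe coins with two levels of nodes (helper26)

Abstract chains in three stages: inside the sides of the nodes, across the two sides of a node, across
the nodes of a piece (`pr : I → I'`). For every choice of one coin per chain no total grows in absolute
value: sides of the nodes, signed nodes, signed pieces.
-/

set_option autoImplicit false

namespace Pool.Agent.Work.MP_db9399_tkn

open Finset Classical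
open Pool.Agent.Work.MP_db9399_tk (sg)
open Pool.Agent.Work.MP_db9399_ch (InvS linkS mergeS sg_abs)

universe u v w

section stage

variable {O : Type u} {P : Type v} {N : Type w} [Fintype O]

omit [Fintype O] in
/-- one more stage of linking -/
theorem stage (pp : O → P) (κ1 : P → P) (Fr1 : Finset O)
    (h1 : ∀ q, (Fr1.filter (fun o => κ1 (pp o) = q)).card ≤ 2) (nd : O → N) (t : O → ℝ)
    (ht : ∀ o, t o = 0 ∨ t o = 1 ∨ t o = -1) :
    ∃ (κ2 : P → P) (Fr2 : Finset O), Fr2 ⊆ Fr1 ∧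
      (∀ q, (Fr2.filter (fun o => κ2 (κ1 (pp o)) = q)).card ≤ 2) ∧
      (∀ o ∈ Fr1, t o = 0 → o ∈ Fr2) ∧
      (∀ (f : P → Fin 2) (n : N), FS Fr1 nd n (fun o => sg (f (κ2 (κ1 (pp o)))) * t o) =
        FS Fr2 nd n (fun o => sg (f (κ2 (κ1 (pp o)))) * t o)) ∧ FrOne nd t Fr2 := by
  obtain ⟨κ2, F, hI, hF⟩ := chain_free (fun o : {o // o ∈ Fr1} => κ1 (pp o.1)) (fun o => nd o.1)
    (fun o => t o.1) (fun o => ht o.1) (by
      intro p E hE
      rw [← card_map (f := Function.Embedding.subtype (fun o => o ∈ Fr1))]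
      refine le_trans (card_le_card ?_) (h1 p)
      intro o ho
      obtain ⟨o', ho', rfl⟩ := mem_map.1 ho
      exact mem_filter.2 ⟨o'.2, hE o' ho'⟩)
  set Fr2 := F.map (Function.Embedding.subtype (fun o => o ∈ Fr1)) with hFr2
  have hmem : ∀ o (ho : o ∈ Fr1), o ∈ Fr2 ↔ (⟨o, ho⟩ : {o // o ∈ Fr1}) ∈ F := by
    intro o ho
    rw [hFr2, mem_map]
    constructor
    · rintro ⟨o', h2, h3⟩
      have : o' = ⟨o, ho⟩ := Subtype.ext h3
      rw [← this]
      exact h2
    · intro h2
      exact ⟨_, h2, rfl⟩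
  have hsub : Fr2 ⊆ Fr1 := by
    intro o ho
    rw [hFr2, mem_map] at ho
    obtain ⟨o', _, rfl⟩ := ho
    exact o'.2
  refine ⟨κ2, Fr2, hsub, ?_, ?_, ?_, ?_⟩
  · intro q
    refine le_trans (le_of_eq ?_) (hI.1 q)
    rw [hFr2, ← card_map (f := Function.Embedding.subtype (fun o => o ∈ Fr1))]
    congr 1
    ext o
    simp only [mem_filter, mem_map, Function.Embedding.coe_subtype]
    constructor
    · rintro ⟨⟨o', h2, h3⟩, h4⟩
      exact ⟨o', ⟨h2, by rw [h3]; exact h4⟩, h3⟩
    · rintro ⟨o', ⟨h2, h3⟩, h4⟩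
      exact ⟨⟨o', h2, h4⟩, by rw [← h4]; exact h3⟩
  · intro o ho h0
    exact (hmem o ho).2 (hI.2.1 ⟨o, ho⟩ h0)
  · intro f n
    have h2 := free_sum (fun o : {o // o ∈ Fr1} => κ1 (pp o.1)) (fun o => nd o.1)
      (fun o => t o.1) κ2 F hI f n
    have h3 : ∀ G : O → ℝ, FS (univ : Finset {o // o ∈ Fr1}) (fun o => nd o.1) n (fun o => G o.1) =
        FS Fr1 nd n G := by
      intro G
      unfold FS
      rw [sum_filter, sum_filter, ← sum_coe_sort Fr1]
    have h4 : ∀ G : O → ℝ, FS F (fun o => nd o.1) n (fun o => G o.1) = FS Fr2 nd n G := by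
      intro G
      unfold FS
      rw [sum_filter, sum_filter, hFr2, sum_map]
      rfl
    rw [h3 (fun o => sg (f (κ2 (κ1 (pp o)))) * t o),
      h4 (fun o => sg (f (κ2 (κ1 (pp o)))) * t o)] at h2
    exact h2
  · intro o1 ho1 o2 ho2 ht1 ht2 hn
    exact hF ⟨o1, hsub ho1⟩ ((hmem o1 (hsub ho1)).1 ho1) ⟨o2, hsub ho2⟩
      ((hmem o2 (hsub ho2)).1 ho2) ht1 ht2 hn

omit [Fintype O] in
/-- coarser classes -/
theorem FS_lift {N' : Type w} (A B : Finset O) (nd : O → N) (π : N → N') (c : N → ℝ) (g : O → ℝ)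
    (h : ∀ n, FS A nd n g = FS B nd n g) (n' : N') :
    FS A (fun o => π (nd o)) n' (fun o => c (nd o) * g o) =
      FS B (fun o => π (nd o)) n' (fun o => c (nd o) * g o) := by
  have key : ∀ A' : Finset O, A' ⊆ A ∪ B →
      FS A' (fun o => π (nd o)) n' (fun o => c (nd o) * g o) =
      ∑ n ∈ (A ∪ B).image nd, if π n = n' then c n * FS A' nd n g else 0 := by
    intro A' hA'
    unfold FS
    rw [sum_filter, ← sum_fiberwise_of_maps_to (s := A') (t := (A ∪ B).image nd)
      (g := nd) fun o ho => mem_image_of_mem _ (hA' ho)]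
    refine sum_congr rfl fun n _ => ?_
    split_ifs with h1
    · rw [mul_sum]
      refine sum_congr rfl fun o ho => ?_
      have h5 := (mem_filter.1 ho).2
      simp only [h5, if_pos h1]
    · refine sum_eq_zero fun o ho => ?_
      have h5 := (mem_filter.1 ho).2
      simp only [h5, if_neg h1]
  rw [key A subset_union_left, key B subset_union_right]
  refine sum_congr rfl fun n _ => ?_
  rw [h n]

end stage

section four

variable {I I' : Type u} {O P : Type v} [Fintype O]

/-- node of a position -/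
def i1 (y : Option (I × Bool)) : Option I := Option.map Prod.fst y

/-- piece of a position -/
def i2 (pr : I → I') (y : Option (I × Bool)) : Option I' := Option.map pr (i1 y)

/-- signed piece -/
noncomputable def sq (pr : I → I') (i' : I') (y : Option (I × Bool)) : ℝ :=
  if i2 pr y = some i' then s3 y else 0

/-- sides of the nodes, signed nodes, signed pieces -/
noncomputable def fx4 (pr : I → I') (x : ((I × Bool) ⊕ I) ⊕ I') (y : Option (I × Bool)) : ℝ :=
  match x with
  | Sum.inl x => fx x y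
  | Sum.inr i' => sq pr i' y

theorem sn_eq' (i : I) (y : Option (I × Bool)) : sn i y = if i1 y = some i then s3 y else 0 :=
  sn_eq i y

theorem sn_FS (nd : O → Option (I × Bool)) (i : I) (g d : O → ℝ) :
    ∑ o, g o * (sn i (nd o) * d o) =
      FS univ (fun o => i1 (nd o)) (some i) (fun o => g o * (s3 (nd o) * d o)) := by
  refine FS_eq _ _ _ _ _ (fun o _ h => ?_) fun o _ h => ?_
  · rw [sn_eq', if_pos h]
  · rw [sn_eq', if_neg h, zero_mul, mul_zero]

theorem sq_FS (pr : I → I') (nd : O → Option (I × Bool)) (i : I') (g d : O → ℝ) :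
    ∑ o, g o * (sq pr i (nd o) * d o) =
      FS univ (fun o => i2 pr (nd o)) (some i) (fun o => g o * (s3 (nd o) * d o)) := by
  refine FS_eq _ _ _ _ _ (fun o _ h => ?_) fun o _ h => ?_
  · unfold sq
    rw [if_pos h]
  · unfold sq
    rw [if_neg h, zero_mul, mul_zero]

omit [Fintype O] in
theorem t2_cases (nd : O → Option (I × Bool)) (d : O → ℝ) (hd : ∀ o, d o = 0 ∨ d o = 1 ∨ d o = -1)
    (o : O) : s3 (nd o) * d o = 0 ∨ s3 (nd o) * d o = 1 ∨ s3 (nd o) * d o = -1 := by
  rcases s3_cases (nd o) with h3 | h3 | h3 <;> rcases hd o with h4 | h4 | h4 <;>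
    rw [h3, h4] <;> norm_num

/-- **Three stages**: the sides, the signed nodes and the signed pieces. -/
theorem chain4 (pr : I → I') (pp : O → P) (nd : O → Option (I × Bool)) (d : O → ℝ)
    (hd : ∀ o, d o = 0 ∨ d o = 1 ∨ d o = -1)
    (h2 : ∀ p, ∀ E : Finset O, (∀ o ∈ E, pp o = p) → E.card ≤ 2) :
    ∃ κ : P → P,
      (∀ q, ∀ E : Finset O, (∀ o ∈ E, κ (pp o) = q ∧ nd o = none) → E.card ≤ 2) ∧
      (∀ (f : P → Fin 2) (x : ((I × Bool) ⊕ I) ⊕ I'),
        |∑ o, sg (f (κ (pp o))) * (fx4 pr x (nd o) * d o)| ≤ |∑ o, fx4 pr x (nd o) * d o|) ∧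
      ∀ i : I', 2 < |∑ o, sq pr i (nd o) * d o| → ∃ f : P → Fin 2,
        |∑ o, sg (f (κ (pp o))) * (sq pr i (nd o) * d o)| < |∑ o, sq pr i (nd o) * d o| := by
  have ht := t1_cases nd d hd
  have ht2 := t2_cases nd d hd
  have hu : ∀ q, ((univ : Finset O).filter (fun o => (fun p : P => p) (pp o) = q)).card ≤ 2 :=
    fun q => h2 q _ fun o ho => (mem_filter.1 ho).2
  obtain ⟨κ1, F1, _, a1, b1, c1, e1⟩ := stage pp (fun p => p) univ hu nd (t1 nd d) ht
  obtain ⟨κ2, F2, s2, a2, b2, c2, e2⟩ := stage pp κ1 F1 a1 (fun o => i1 (nd o))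
    (fun o => s3 (nd o) * d o) ht2
  obtain ⟨κ3, F3, s3', a3, b3, c3, e3⟩ := stage pp (fun p => κ2 (κ1 p)) F2 a2
    (fun o => i2 pr (nd o)) (fun o => s3 (nd o) * d o) ht2
  have k0 : sg (0 : Fin 2) = 1 := by simp [sg]
  set κ : P → P := fun p => κ3 (κ2 (κ1 p)) with hκ
  -- sides
  have A1 : ∀ (f : P → Fin 2) (n : Option (I × Bool)),
      FS univ nd n (fun o => sg (f (κ (pp o))) * t1 nd d o) =
      FS F1 nd n (fun o => sg (f (κ (pp o))) * t1 nd d o) := fun f n =>
    c1 (fun p => f (κ3 (κ2 p))) n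
  -- signed nodes
  have B0 : ∀ (f : P → Fin 2) (n : Option I),
      FS univ (fun o => i1 (nd o)) n (fun o => sg (f (κ (pp o))) * (s3 (nd o) * d o)) =
      FS F1 (fun o => i1 (nd o)) n (fun o => sg (f (κ (pp o))) * (s3 (nd o) * d o)) := by
    intro f n
    have h3 := FS_lift univ F1 nd i1 s3 (fun o => sg (f (κ (pp o))) * t1 nd d o) (A1 f) n
    have h4 : ∀ o, s3 (nd o) * (sg (f (κ (pp o))) * t1 nd d o) =
        sg (f (κ (pp o))) * (s3 (nd o) * d o) := by
      intro o
      unfold t1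
      split_ifs with h5
      · rw [(s3_zero _).2 h5]
        ring
      · ring
    simp only [h4] at h3
    exact h3
  have B1 : ∀ (f : P → Fin 2) (n : Option I),
      FS univ (fun o => i1 (nd o)) n (fun o => sg (f (κ (pp o))) * (s3 (nd o) * d o)) =
      FS F2 (fun o => i1 (nd o)) n (fun o => sg (f (κ (pp o))) * (s3 (nd o) * d o)) := by
    intro f n
    rw [B0]
    exact c2 (fun p => f (κ3 p)) n
  -- signed pieces
  have C1 : ∀ (f : P → Fin 2) (n : Option I'),
      FS univ (fun o => i2 pr (nd o)) n (fun o => sg (f (κ (pp o))) * (s3 (nd o) * d o)) =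
      FS F3 (fun o => i2 pr (nd o)) n (fun o => sg (f (κ (pp o))) * (s3 (nd o) * d o)) := by
    intro f n
    have h3 := FS_lift univ F2 (fun o => i1 (nd o)) (Option.map pr) (fun _ => 1)
      (fun o => sg (f (κ (pp o))) * (s3 (nd o) * d o)) (B1 f) n
    simp only [one_mul] at h3
    refine Eq.trans h3 ?_
    exact c3 f n
  have sideE : ∀ (f : P → Fin 2) (x : I × Bool), ∑ o, sg (f (κ (pp o))) * (sd x (nd o) * d o) =
      FS F1 nd (some x) (fun o => sg (f (κ (pp o))) * t1 nd d o) := by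
    intro f x
    rw [sd_sum nd x (fun o => sg (f (κ (pp o)))) d]
    exact A1 f _
  have sideE' : ∀ x : I × Bool, ∑ o, sd x (nd o) * d o = FS F1 nd (some x) (t1 nd d) := by
    intro x
    have h5 := sideE (fun _ => 0) x
    simp only [k0, one_mul] at h5
    exact h5
  have nodeE : ∀ (f : P → Fin 2) (i : I), ∑ o, sg (f (κ (pp o))) * (sn i (nd o) * d o) =
      FS F2 (fun o => i1 (nd o)) (some i)
        (fun o => sg (f (κ (pp o))) * (s3 (nd o) * d o)) := by
    intro f i
    rw [sn_FS nd i (fun o => sg (f (κ (pp o)))) d]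
    exact B1 f _
  have nodeE' : ∀ i : I, ∑ o, sn i (nd o) * d o =
      FS F2 (fun o => i1 (nd o)) (some i) (fun o => s3 (nd o) * d o) := by
    intro x
    have h5 := nodeE (fun _ => 0) x
    simp only [k0, one_mul] at h5
    exact h5
  have pieceE : ∀ (f : P → Fin 2) (i : I'), ∑ o, sg (f (κ (pp o))) * (sq pr i (nd o) * d o) =
      FS F3 (fun o => i2 pr (nd o)) (some i)
        (fun o => sg (f (κ (pp o))) * (s3 (nd o) * d o)) := by
    intro f i
    rw [sq_FS pr nd i (fun o => sg (f (κ (pp o)))) d]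
    exact C1 f _
  have pieceE' : ∀ i : I', ∑ o, sq pr i (nd o) * d o =
      FS F3 (fun o => i2 pr (nd o)) (some i) (fun o => s3 (nd o) * d o) := by
    intro x
    have h5 := pieceE (fun _ => 0) x
    simp only [k0, one_mul] at h5
    exact h5
  refine ⟨κ, ?_, ?_, ?_⟩
  · intro q E hE
    have h7 : E ⊆ F3.filter (fun o => κ (pp o) = q) := by
      intro o ho
      obtain ⟨h8, h9⟩ := hE o ho
      have h10 : s3 (nd o) * d o = 0 := by rw [(s3_zero _).2 h9, zero_mul]
      have h11 : t1 nd d o = 0 := by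
        unfold t1
        rw [if_pos h9]
      exact mem_filter.2 ⟨b3 o (b2 o (b1 o (mem_univ o) h11) h10) h10, h8⟩
    exact (card_le_card h7).trans (a3 q)
  · intro f x
    rcases x with (x | i) | i
    · show |∑ o, sg (f (κ (pp o))) * (sd x (nd o) * d o)| ≤ |∑ o, sd x (nd o) * d o|
      rw [sideE, sideE']
      exact free_le nd (t1 nd d) ht F1 e1 _ _ fun o => (sg_abs _).le
    · show |∑ o, sg (f (κ (pp o))) * (sn i (nd o) * d o)| ≤ |∑ o, sn i (nd o) * d o|
      rw [nodeE, nodeE']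
      exact free_le _ _ ht2 F2 e2 _ _ fun o => (sg_abs _).le
    · show |∑ o, sg (f (κ (pp o))) * (sq pr i (nd o) * d o)| ≤ |∑ o, sq pr i (nd o) * d o|
      rw [pieceE, pieceE']
      exact free_le _ _ ht2 F3 e3 _ _ fun o => (sg_abs _).le
  · intro i hi
    rw [pieceE'] at hi
    obtain ⟨f, hf⟩ := free_lt pp (fun o => i2 pr (nd o)) (fun o => s3 (nd o) * d o) ht2 κ F3 a3
      e3 _ hi
    exact ⟨f, by rw [pieceE, pieceE']; exact hf⟩

end four

end Pool.Agent.Work.MP_db9399_tkn
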