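import Pool.Agent.Work.MP_db9399_ch_helper26.Core

/-!
# MP_db9399, all scales: chained Kempe coins with state-dependent links (helper26, idea of helper59)

`O`: ends of the Kempe components, `P`: components (at most two ends each), `nd`: node of an end,
`t`: signed value of the end in the present state (`0` outside the nodes). Ends of value `1` are
linked with ends of value `-1` of the same node; `κ`: the chains. For every choice of one coin per
chain the total of every node does not grow in absolute value.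
-/

set_option autoImplicit false

namespace Pool.Agent.Work.MP_db9399_ch

open Finset Classical
open Pool.Agent.Work.MP_db9399_tk (sg)

universe u v w

universe u'

variable {O : Type u} {P : Type v} {N : Type w} {K : Type u'} [Fintype O]

/-- invariant of the construction -/
def InvS (pp : O → P) (nd : O → N) (t : O → ℝ) (cl : P → K) (κ : P → P) (Fr : Finset O) : Prop :=
  (∀ q, (Fr.filter (fun o => κ (pp o) = q)).card ≤ 2) ∧ (∀ o, t o = 0 → o ∈ Fr) ∧
    (∀ q n, ∑ o ∈ univ.filter (fun o => o ∉ Fr ∧ κ (pp o) = q ∧ nd o = n), t o = 0) ∧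
    ∀ p, cl (κ p) = cl p

theorem linkS (pp : O → P) (nd : O → N) (t : O → ℝ) (cl : P → K)
    (κ : P → P) (Fr : Finset O) (hI : InvS pp nd t cl κ Fr) (o1 o2 : O)
    (h1 : o1 ∈ Fr) (h2 : o2 ∈ Fr) (ht1 : t o1 ≠ 0) (ht2 : t o2 ≠ 0) (hn : nd o1 = nd o2)
    (hc : t o1 + t o2 = 0) (hκ : κ (pp o1) = κ (pp o2)) :
    InvS pp nd t cl κ (Fr \ {o1, o2}) := by
  obtain ⟨a1, a2, a3, a4⟩ := hI
  have hne : o1 ≠ o2 := by
    rintro rfl
    apply ht1
    linarith
  refine ⟨?_, ?_, ?_, a4⟩
  · intro q
    refine le_trans (card_le_card ?_) (a1 q)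
    intro o ho
    rw [mem_filter, mem_sdiff] at ho
    exact mem_filter.2 ⟨ho.1.1, ho.2⟩
  · intro o ho
    rw [mem_sdiff, mem_insert, mem_singleton, not_or]
    refine ⟨a2 o ho, ?_, ?_⟩
    · rintro rfl
      exact ht1 ho
    · rintro rfl
      exact ht2 ho
  · intro q n
    have h3 : univ.filter (fun o => o ∉ Fr \ {o1, o2} ∧ κ (pp o) = q ∧ nd o = n) =
        (univ.filter (fun o => o ∉ Fr ∧ κ (pp o) = q ∧ nd o = n)) ∪
          (({o1, o2} : Finset O).filter (fun o => κ (pp o) = q ∧ nd o = n)) := by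
      ext o
      rw [mem_union, mem_filter, mem_filter, mem_filter, mem_sdiff, mem_insert, mem_singleton]
      constructor
      · rintro ⟨_, h4, h5, h6⟩
        by_cases h7 : o ∈ Fr
        · have h8 : o = o1 ∨ o = o2 := by
            by_contra h9
            exact h4 ⟨h7, h9⟩
          exact Or.inr ⟨h8, h5, h6⟩
        · exact Or.inl ⟨mem_univ _, h7, h5, h6⟩
      · rintro (⟨_, h4, h5, h6⟩ | ⟨h4, h5, h6⟩)
        · exact ⟨mem_univ _, fun h => h4 h.1, h5, h6⟩
        · exact ⟨mem_univ _, fun h => h.2 h4, h5, h6⟩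
    have hd2 : Disjoint (univ.filter (fun o => o ∉ Fr ∧ κ (pp o) = q ∧ nd o = n))
        (({o1, o2} : Finset O).filter (fun o => κ (pp o) = q ∧ nd o = n)) := by
      rw [disjoint_left]
      intro o ho ho'
      have h4 : o ∈ Fr := by
        have := (mem_filter.1 ho').1
        rw [mem_insert, mem_singleton] at this
        rcases this with rfl | rfl
        · exact h1
        · exact h2
      exact (mem_filter.1 ho).2.1 h4
    rw [h3, sum_union hd2, a3 q n, zero_add, sum_filter, sum_pair hne]
    by_cases h4 : κ (pp o1) = q ∧ nd o1 = n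
    · rw [if_pos h4, if_pos ⟨hκ ▸ h4.1, hn ▸ h4.2⟩, hc]
    · rw [if_neg h4, if_neg (fun h => h4 ⟨hκ.trans h.1, hn.trans h.2⟩), add_zero]

theorem mergeS (pp : O → P) (nd : O → N) (t : O → ℝ) (cl : P → K)
    (hcl : ∀ o1 o2, nd o1 = nd o2 → cl (pp o1) = cl (pp o2))
    (κ : P → P) (Fr : Finset O) (hI : InvS pp nd t cl κ Fr) (o1 o2 : O)
    (h1 : o1 ∈ Fr) (h2 : o2 ∈ Fr) (ht1 : t o1 ≠ 0) (ht2 : t o2 ≠ 0) (hn : nd o1 = nd o2)
    (hc : t o1 + t o2 = 0) (hκ : κ (pp o1) ≠ κ (pp o2)) :
    ∃ κ' : P → P, InvS pp nd t cl κ' (Fr \ {o1, o2}) := by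
  obtain ⟨a1, a2, a3, a4⟩ := hI
  have hne : o1 ≠ o2 := fun h => hκ (by rw [h])
  set q1 := κ (pp o1) with hq1
  set q2 := κ (pp o2) with hq2
  refine ⟨fun p => if κ p = q2 then q1 else κ p, ?_, ?_, ?_, fun p => ?_⟩
  rotate_left 3
  · show cl (if κ p = q2 then q1 else κ p) = cl p
    split_ifs with h
    · rw [← a4 p, h, hq1, hq2, a4, a4]
      exact hcl o1 o2 hn
    · exact a4 p
  · intro q
    show ((Fr \ {o1, o2}).filter (fun o => (if κ (pp o) = q2 then q1 else κ (pp o)) = q)).card ≤ 2
    by_cases hq : q = q1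
    · have h3 : (Fr \ {o1, o2}).filter (fun o => (if κ (pp o) = q2 then q1 else κ (pp o)) = q) ⊆
          ((Fr.filter (fun o => κ (pp o) = q1)).erase o1) ∪
            ((Fr.filter (fun o => κ (pp o) = q2)).erase o2) := by
        intro o ho
        rw [mem_filter, mem_sdiff, mem_insert, mem_singleton, not_or] at ho
        rw [mem_union, mem_erase, mem_erase, mem_filter, mem_filter]
        by_cases h5 : κ (pp o) = q2
        · exact Or.inr ⟨ho.1.2.2, ho.1.1, h5⟩
        · rw [if_neg h5] at ho
          exact Or.inl ⟨ho.1.2.1, ho.1.1, ho.2.trans hq⟩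
      refine (card_le_card h3).trans ((card_union_le _ _).trans ?_)
      have m1 : o1 ∈ Fr.filter (fun o => κ (pp o) = q1) := mem_filter.2 ⟨h1, rfl⟩
      have m2 : o2 ∈ Fr.filter (fun o => κ (pp o) = q2) := mem_filter.2 ⟨h2, rfl⟩
      rw [card_erase_of_mem m1, card_erase_of_mem m2]
      have := a1 q1
      have := a1 q2
      omega
    · refine le_trans (card_le_card ?_) (a1 q)
      intro o ho
      rw [mem_filter, mem_sdiff] at ho
      rw [mem_filter]
      refine ⟨ho.1.1, ?_⟩
      by_cases h5 : κ (pp o) = q2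
      · rw [if_pos h5] at ho
        exact absurd ho.2.symm hq
      · rw [if_neg h5] at ho
        exact ho.2
  · intro o ho
    rw [mem_sdiff, mem_insert, mem_singleton, not_or]
    refine ⟨a2 o ho, ?_, ?_⟩
    · rintro rfl
      exact ht1 ho
    · rintro rfl
      exact ht2 ho
  · intro q n
    show ∑ o ∈ univ.filter (fun o => o ∉ Fr \ {o1, o2} ∧
      (if κ (pp o) = q2 then q1 else κ (pp o)) = q ∧ nd o = n), t o = 0
    by_cases hq : q = q1
    · have h3 : univ.filter (fun o => o ∉ Fr \ {o1, o2} ∧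
          (if κ (pp o) = q2 then q1 else κ (pp o)) = q ∧ nd o = n) =
          ((univ.filter (fun o => o ∉ Fr ∧ κ (pp o) = q1 ∧ nd o = n)) ∪
            (univ.filter (fun o => o ∉ Fr ∧ κ (pp o) = q2 ∧ nd o = n))) ∪
              (({o1, o2} : Finset O).filter (fun o => nd o = n)) := by
        ext o
        rw [mem_union, mem_union, mem_filter, mem_filter, mem_filter, mem_filter, mem_sdiff, hq,
          mem_insert, mem_singleton]
        constructor
        · rintro ⟨_, h4, h5, h6⟩
          by_cases h7 : o ∈ Fr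
          · have h8 : o = o1 ∨ o = o2 := by
              by_contra h9
              exact h4 ⟨h7, h9⟩
            exact Or.inr ⟨h8, h6⟩
          · left
            by_cases h8 : κ (pp o) = q2
            · exact Or.inr ⟨mem_univ _, h7, h8, h6⟩
            · rw [if_neg h8] at h5
              exact Or.inl ⟨mem_univ _, h7, h5, h6⟩
        · rintro ((⟨_, h4, h5, h6⟩ | ⟨_, h4, h5, h6⟩) | ⟨h4, h6⟩)
          · refine ⟨mem_univ _, fun h => h4 h.1, ?_, h6⟩
            rw [if_neg (by rw [h5]; exact hκ), h5]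
          · refine ⟨mem_univ _, fun h => h4 h.1, ?_, h6⟩
            rw [if_pos h5]
          · refine ⟨mem_univ _, fun h => h.2 h4, ?_, h6⟩
            rcases h4 with rfl | rfl
            · rw [if_neg hκ]
            · rw [if_pos rfl]
      have hd1 : Disjoint (univ.filter (fun o => o ∉ Fr ∧ κ (pp o) = q1 ∧ nd o = n))
          (univ.filter (fun o => o ∉ Fr ∧ κ (pp o) = q2 ∧ nd o = n)) := by
        rw [disjoint_left]
        intro o ho ho'
        exact hκ ((mem_filter.1 ho).2.2.1.symm.trans (mem_filter.1 ho').2.2.1)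
      have hd2 : Disjoint ((univ.filter (fun o => o ∉ Fr ∧ κ (pp o) = q1 ∧ nd o = n)) ∪
            (univ.filter (fun o => o ∉ Fr ∧ κ (pp o) = q2 ∧ nd o = n)))
              (({o1, o2} : Finset O).filter (fun o => nd o = n)) := by
        rw [disjoint_left]
        intro o ho ho'
        have h4 : o ∈ Fr := by
          have := (mem_filter.1 ho').1
          rw [mem_insert, mem_singleton] at this
          rcases this with rfl | rfl
          · exact h1
          · exact h2
        rw [mem_union, mem_filter, mem_filter] at ho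
        rcases ho with ho | ho
        · exact ho.2.1 h4
        · exact ho.2.1 h4
      rw [h3, sum_union hd2, sum_union hd1, a3 q1 n, a3 q2 n, sum_filter, sum_pair hne]
      by_cases h4 : nd o1 = n
      · rw [if_pos h4, if_pos (hn ▸ h4), hc, add_zero, add_zero]
      · rw [if_neg h4, if_neg (fun h => h4 (hn.trans h)), add_zero, add_zero]
    · by_cases hqq : q = q2
      · rw [filter_false_of_mem, sum_empty]
        rintro o _ ⟨_, h4, _⟩
        by_cases h5 : κ (pp o) = q2
        · rw [if_pos h5] at h4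
          exact hq h4.symm
        · rw [if_neg h5] at h4
          exact h5 (h4.trans hqq)
      · rw [← a3 q n]
        refine sum_congr ?_ fun _ _ => rfl
        ext o
        rw [mem_filter, mem_filter, mem_sdiff, mem_insert, mem_singleton]
        constructor
        · rintro ⟨_, h4, h5, h6⟩
          by_cases h7 : κ (pp o) = q2
          · rw [if_pos h7] at h5
            exact absurd h5.symm hq
          · rw [if_neg h7] at h5
            refine ⟨mem_univ _, fun h8 => ?_, h5, h6⟩
            have h9 : o = o1 ∨ o = o2 := by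
              by_contra h9
              exact h4 ⟨h8, h9⟩
            rcases h9 with rfl | rfl
            · exact hq h5.symm
            · exact hqq h5.symm
        · rintro ⟨_, h4, h5, h6⟩
          refine ⟨mem_univ _, fun h => h4 h.1, ?_, h6⟩
          rw [if_neg (by rw [h5]; exact hqq), h5]

/-- **Chains with state-dependent links.** -/
theorem chain_state (pp : O → P) (nd : O → N) (t : O → ℝ) (cl : P → K)
    (hcl : ∀ o1 o2, nd o1 = nd o2 → cl (pp o1) = cl (pp o2))
    (ht : ∀ o, t o = 0 ∨ t o = 1 ∨ t o = -1)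
    (h2 : ∀ p, ∀ E : Finset O, (∀ o ∈ E, pp o = p) → E.card ≤ 2) :
    ∃ κ : P → P,
      (∀ q, ∀ E : Finset O, (∀ o ∈ E, κ (pp o) = q ∧ t o = 0) → E.card ≤ 2) ∧
      (∀ p, cl (κ p) = cl p) ∧
      ∀ (f : P → Fin 2) (n : N) (E : Finset O), (∀ o, o ∈ E ↔ nd o = n) →
        |∑ o ∈ E, sg (f (κ (pp o))) * t o| ≤ |∑ o ∈ E, t o| := by
  have hex : ∃ k, ∃ (κ : P → P) (Fr : Finset O), InvS pp nd t cl κ Fr ∧ Fr.card = k := by
    refine ⟨_, id, univ, ⟨fun p => h2 p _ fun o ho => (mem_filter.1 ho).2,
      fun o _ => mem_univ o, ?_, fun _ => rfl⟩, rfl⟩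
    intro q n
    rw [filter_false_of_mem, sum_empty]
    rintro o _ ⟨h, _⟩
    exact h (mem_univ o)
  obtain ⟨κ, Fr, hI, hk⟩ := Nat.find_spec hex
  have hmin : ∀ (κ' : P → P) (Fr' : Finset O), InvS pp nd t cl κ' Fr' → Fr.card ≤ Fr'.card := by
    intro κ' Fr' h'
    rw [hk]
    exact Nat.find_min' hex ⟨κ', Fr', h', rfl⟩
  have hone : ∀ o1 ∈ Fr, ∀ o2 ∈ Fr, t o1 ≠ 0 → t o2 ≠ 0 → nd o1 = nd o2 → t o1 = t o2 := by
    intro o1 h1 o2 h2' ht1 ht2 hn
    by_contra hne
    have hc : t o1 + t o2 = 0 := by
      rcases ht o1 with h3 | h3 | h3 <;> rcases ht o2 with h4 | h4 | h4 <;>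
        first
        | exact absurd h3 ht1
        | exact absurd h4 ht2
        | exact absurd (h3.trans h4.symm) hne
        | (rw [h3, h4]; norm_num)
    have h4 : (Fr \ {o1, o2}).card < Fr.card := by
      refine card_lt_card ⟨sdiff_subset, fun h => ?_⟩
      have := h h1
      rw [mem_sdiff] at this
      exact this.2 (mem_insert_self _ _)
    by_cases hκ : κ (pp o1) = κ (pp o2)
    · have h5 := hmin κ _ (linkS pp nd t cl κ Fr hI o1 o2 h1 h2' ht1 ht2 hn hc hκ)
      omega
    · obtain ⟨κ', h'⟩ := mergeS pp nd t cl hcl κ Fr hI o1 o2 h1 h2' ht1 ht2 hn hc hκ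
      have h5 := hmin κ' _ h'
      omega
  obtain ⟨a1, a2, a3, a4⟩ := hI
  refine ⟨κ, fun q E hE => ?_, a4, fun f n E hE => ?_⟩
  · refine le_trans (card_le_card fun o ho => ?_) (a1 q)
    exact mem_filter.2 ⟨a2 o (hE o ho).2, (hE o ho).1⟩
  · have h5 : E = univ.filter (fun o => nd o = n) := by
      ext o
      rw [hE, mem_filter]
      exact ⟨fun h => ⟨mem_univ _, h⟩, fun h => h.2⟩
    -- ends which are not free cancel in every chain
    have h3 : ∀ f : P → Fin 2, ∑ o ∈ univ.filter (fun o => o ∉ Fr ∧ nd o = n),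
        sg (f (κ (pp o))) * t o = 0 := by
      intro f
      set A := univ.filter (fun o => o ∉ Fr ∧ nd o = n) with hA
      rw [← sum_fiberwise_of_maps_to (s := A) (t := A.image fun o => κ (pp o))
        (g := fun o => κ (pp o)) fun o ho => mem_image_of_mem _ ho]
      refine sum_eq_zero fun q _ => ?_
      have h4 : ∀ o ∈ A.filter (fun o => κ (pp o) = q), sg (f (κ (pp o))) * t o =
          sg (f q) * t o := by
        intro o ho
        rw [(mem_filter.1 ho).2]
      rw [sum_congr rfl h4, ← mul_sum]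
      have h5 : A.filter (fun o => κ (pp o) = q) =
          univ.filter (fun o => o ∉ Fr ∧ κ (pp o) = q ∧ nd o = n) := by
        ext o
        rw [mem_filter, hA, mem_filter, mem_filter]
        tauto
      rw [h5, a3 q n, mul_zero]
    have h4 : univ.filter (fun o => nd o = n) =
        (univ.filter (fun o => o ∉ Fr ∧ nd o = n)) ∪ (Fr.filter (fun o => nd o = n)) := by
      ext o
      rw [mem_union, mem_filter, mem_filter, mem_filter]
      by_cases h : o ∈ Fr
      · constructor
        · rintro ⟨_, h5⟩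
          exact Or.inr ⟨h, h5⟩
        · rintro (⟨_, _, h5⟩ | ⟨_, h5⟩)
          · exact ⟨mem_univ _, h5⟩
          · exact ⟨mem_univ _, h5⟩
      · constructor
        · rintro ⟨_, h5⟩
          exact Or.inl ⟨mem_univ _, h, h5⟩
        · rintro (⟨_, _, h5⟩ | ⟨_, h5⟩)
          · exact ⟨mem_univ _, h5⟩
          · exact ⟨mem_univ _, h5⟩
    have h6 : Disjoint (univ.filter (fun o => o ∉ Fr ∧ nd o = n))
        (Fr.filter (fun o => nd o = n)) := by
      rw [disjoint_left]
      intro o ho ho'
      exact (mem_filter.1 ho).2.1 (mem_filter.1 ho').1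
    set B := (Fr.filter (fun o => nd o = n)).filter (fun o => t o ≠ 0) with hB
    have h7 : ∀ f : P → Fin 2, ∑ o ∈ E, sg (f (κ (pp o))) * t o =
        ∑ o ∈ B, sg (f (κ (pp o))) * t o := by
      intro f
      rw [h5, h4, sum_union h6, h3, zero_add]
      symm
      refine sum_subset (filter_subset _ _) ?_
      intro o ho ho'
      have : t o = 0 := by
        by_contra h
        exact ho' (mem_filter.2 ⟨ho, h⟩)
      rw [this, mul_zero]
    have h8 : |∑ o ∈ E, t o| = B.card := by
      have h9 := h7 (fun _ => 0)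
      have k0 : sg (0 : Fin 2) = 1 := by simp [sg]
      simp only [k0, one_mul] at h9
      rw [h9]
      rcases B.eq_empty_or_nonempty with he | ⟨o0, ho0⟩
      · rw [he]
        simp
      · have h10 : ∀ o ∈ B, t o = t o0 := by
          intro o ho
          rw [hB, mem_filter, mem_filter] at ho ho0
          exact hone o ho.1.1 o0 ho0.1.1 ho.2 ho0.2 (ho.1.2.trans ho0.1.2.symm)
        rw [sum_congr rfl h10, sum_const, nsmul_eq_mul, abs_mul, Nat.abs_cast]
        have h11 : |t o0| = 1 := by
          rcases ht o0 with h | h | h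
          · exact absurd h (mem_filter.1 ho0).2
          · rw [h]; norm_num
          · rw [h]; norm_num
        rw [h11, mul_one]
    rw [h8, h7]
    refine (abs_sum_le_sum_abs _ _).trans ?_
    refine (sum_le_sum (g := fun _ => (1 : ℝ)) fun o _ => ?_).trans ?_
    · rw [abs_mul, sg_abs, one_mul]
      rcases ht o with h | h | h <;> rw [h] <;> norm_num
    · rw [sum_const, nsmul_eq_mul, mul_one]

end Pool.Agent.Work.MP_db9399_ch
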