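import Pool.Agent.Work.MP_db9399_ch_helper26.Bal
import Pool.Agent.Work.MP_db9399_tk_helper59.SmoothP2

/-!
# MP_db9399, all scales: chained Kempe coins, part 6 (helper26)

Smoothing with nodes of a set of `2 ^ m` colours in a larger palette.
-/

set_option autoImplicit false

namespace Pool.Agent.Work.MP_db9399_ch

open Finset Classical
open Pool.Agent.Work.MP_db9399_tk

universe u v w

/-- The test functions: `k` (sums of the deviations over the colours), `g` (upper bounds for the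
missing vertices), `q` (upper bounds for the covered vertices), all on vertices with `s = 0`. -/
structure Tst {V : Type u} [Fintype V] {C : Type v} [Fintype C] (H : SimpleGraph V)
    (φ : V → V → C) (s : V → ℝ) {I J1 J2 : Type u} [Fintype I] [Fintype J1] [Fintype J2]
    (k : I → V → ℝ) (g : J1 → V → ℝ) (q : J2 → V → ℝ) (K0 S L : ℕ) (Λ M : ℝ) : Prop where
  hks : ∀ r v, k r v ≠ 0 → s v = 0
  hgs : ∀ j v, g j v ≠ 0 → s v = 0
  hqs : ∀ j v, q j v ≠ 0 → s v = 0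
  hK : ∀ r v, k r v ≠ 0 → (mis H φ v).card ≤ K0
  hK1 : ∀ j v, g j v ≠ 0 → (mis H φ v).card ≤ K0
  hK2 : ∀ j v, q j v ≠ 0 → (mis H φ v).card ≤ K0
  hS : ∀ r, (univ.filter (fun v => k r v ≠ 0)).card ≤ S
  hS1 : ∀ j, (univ.filter (fun v => g j v ≠ 0)).card ≤ S
  hS2 : ∀ j, (univ.filter (fun v => q j v ≠ 0)).card ≤ S
  hL : ∀ v, (univ.filter (fun r => k r v ≠ 0)).card ≤ L
  hL1 : ∀ v, (univ.filter (fun j => g j v ≠ 0)).card ≤ L
  hL2 : ∀ v, (univ.filter (fun j => q j v ≠ 0)).card ≤ L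
  hg0 : ∀ j v, 0 ≤ g j v
  hg1 : ∀ j v, g j v ≤ 1
  hq0 : ∀ j v, 0 ≤ q j v
  hq1 : ∀ j v, q j v ≤ 1
  hL0 : 1 ≤ L
  hΛ0 : 0 ≤ Λ
  hΛ : 64 * ((S : ℝ) * K0 + 1) * L * (M + 1) ≤ Real.exp Λ

section cube
variable {V : Type u} [Fintype V] {C : Type v} [Fintype C]

/-- the test functions only see the number of missing colours -/
theorem Tst.congr {H : SimpleGraph V} {φ φ' : V → V → C} {s : V → ℝ} {I J1 J2 : Type u}
    [Fintype I] [Fintype J1] [Fintype J2] {k : I → V → ℝ} {g : J1 → V → ℝ} {q : J2 → V → ℝ}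
    {K0 S L : ℕ} {Λ M : ℝ} (hT : Tst H φ s k g q K0 S L Λ M) (h : PEC H φ) (h' : PEC H φ') :
    Tst H φ' s k g q K0 S L Λ M := by
  have hm := mis_card_eq H φ φ' h h'
  exact { hT with
    hK := fun r v hv => by rw [hm v]; exact hT.hK r v hv
    hK1 := fun r v hv => by rw [hm v]; exact hT.hK1 r v hv
    hK2 := fun r v hv => by rw [hm v]; exact hT.hK2 r v hv }

/-- one cube, with the enumeration `e` -/
theorem cubeE {m : ℕ} {N : Type w} (H : SimpleGraph V) (φ : V → V → C) (h : PEC H φ) (A : Finset C)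
    (e : Cl m ≃ A) (nd : V → N) (s : V → ℝ) (hs : ∀ v, s v = 0 ∨ s v = 1 ∨ s v = -1)
    {I J1 J2 : Type u} [Fintype I] [Fintype J1] [Fintype J2] (k : I → V → ℝ) (g : J1 → V → ℝ)
    (q : J2 → V → ℝ) (K0 S L : ℕ) (Λ : ℝ) (hT : Tst H φ s k g q K0 S L Λ (2 ^ m)) :
    ∃ φ' : V → V → C, PEC H φ' ∧ (∀ b, b ∉ A → ∀ v, b ∈ mis H φ' v ↔ b ∈ mis H φ v) ∧
      (∀ r, ∑ b ∈ A, |wt H φ' (k r) b - (∑ c ∈ A, wt H φ (k r) c) / 2 ^ m| ≤
        Real.sqrt (KK H φ (k r)) * (5 * Real.sqrt (2 ^ m) + 2 * m * Real.sqrt Λ)) ∧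
      (∀ j, ∀ b ∈ A, wt H φ' (g j) b ≤ 2 * ((∑ c ∈ A, wt H φ (g j) c) / 2 ^ m) + 12 * Λ) ∧
      (∀ j, ∀ b ∈ A, wc H φ' (q j) b ≤ 2 * ((∑ c ∈ A, wc H φ (q j) c) / 2 ^ m) + 12 * Λ) ∧
      (∀ κ : V → ℝ, ∑ c ∈ A, wt H φ' κ c = ∑ c ∈ A, wt H φ κ c) ∧
      ∀ n, Bal (fun b => wt H φ' (nt nd s n) ((e b : A) : C)) := by
  set He := sbg H φ h A with hHe
  have hadj : ∀ v w, He.Adj v w ↔ H.Adj v w ∧ φ v w ∈ A := fun v w => Iff.rfl
  let φe : V → V → Cl m := fun v w =>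
    if h : φ v w ∈ A then e.symm ⟨φ v w, h⟩ else fun _ => false
  have hφe : ∀ v w, He.Adj v w → ((e (φe v w) : A) : C) = φ v w := by
    intro v w hvw
    have h1 : φ v w ∈ A := ((hadj v w).1 hvw).2
    simp only [φe, dif_pos h1, Equiv.apply_symm_apply]
  have hpe : PEC He φe := by
    constructor
    · intro v w
      simp only [φe, h.sym v w]
    · intro v w w' hw hw' he
      refine h.inj v w w' ((hadj v w).1 hw).1 ((hadj v w').1 hw').1 ?_
      rw [← hφe v w hw, ← hφe v w' hw', he]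
  have hmis : ∀ (b : Cl m) (v : V), b ∈ mis He φe v ↔ ((e b : A) : C) ∈ mis H φ v := by
    intro b v
    rw [mem_mis, mem_mis]
    constructor
    · intro h1 w hw he
      have h2 : He.Adj v w := (hadj v w).2 ⟨hw, by rw [he]; exact (e b).2⟩
      refine h1 w h2 (e.injective (Subtype.ext ?_))
      rw [hφe v w h2, he]
    · intro h1 w hw he
      refine h1 w ((hadj v w).1 hw).1 ?_
      rw [← hφe v w hw, he]
  have hmc : ∀ v, (mis He φe v).card ≤ (mis H φ v).card := by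
    intro v
    refine Finset.card_le_card_of_injOn (fun b => ((e b : A) : C)) ?_ ?_
    · intro b hb
      exact (hmis b v).1 hb
    · intro b _ b' _ hbb
      exact e.injective (Subtype.ext hbb)
  obtain ⟨ψ, hψ, h1, h2, h2', h2n⟩ := smooth2N He φe hpe nd s hs k g q hT.hks hT.hgs hT.hqs K0 S L Λ
    (fun r v hv => (hmc v).trans (hT.hK r v hv)) (fun j v hv => (hmc v).trans (hT.hK1 j v hv))
    (fun j v hv => (hmc v).trans (hT.hK2 j v hv))
    hT.hS hT.hS1 hT.hS2 hT.hL hT.hL1 hT.hL2 hT.hg0 hT.hg1 hT.hq0 hT.hq1 hT.hL0 hT.hΛ0 hT.hΛ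
  let φ' : V → V → C := fun v w => if He.Adj v w then ((e (ψ v w) : A) : C) else φ v w
  have hp1 : ∀ v w, He.Adj v w → φ' v w = ((e (ψ v w) : A) : C) := fun v w hvw => if_pos hvw
  have hp2 : ∀ v w, ¬ He.Adj v w → φ' v w = φ v w := fun v w hvw => if_neg hvw
  have hpec : PEC H φ' := by
    constructor
    · intro v w
      by_cases hvw : He.Adj v w
      · rw [hp1 v w hvw, hp1 w v hvw.symm, hψ.sym v w]
      · rw [hp2 v w hvw, hp2 w v fun h' => hvw h'.symm, h.sym v w]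
    · intro v w w' hw hw' he
      by_cases hvw : He.Adj v w <;> by_cases hvw' : He.Adj v w'
      · rw [hp1 v w hvw, hp1 v w' hvw'] at he
        exact hψ.inj v w w' hvw hvw' (e.injective (Subtype.ext he))
      · rw [hp1 v w hvw, hp2 v w' hvw'] at he
        exact absurd ((hadj v w').2 ⟨hw', by rw [← he]; exact (e _).2⟩) hvw'
      · rw [hp2 v w hvw, hp1 v w' hvw'] at he
        exact absurd ((hadj v w).2 ⟨hw, by rw [he]; exact (e _).2⟩) hvw
      · rw [hp2 v w hvw, hp2 v w' hvw'] at he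
        exact h.inj v w w' hw hw' he
  have hmis' : ∀ (b : Cl m) (v : V), b ∈ mis He ψ v ↔ ((e b : A) : C) ∈ mis H φ' v := by
    intro b v
    rw [mem_mis, mem_mis]
    constructor
    · intro h3 w hw he
      by_cases hvw : He.Adj v w
      · rw [hp1 v w hvw] at he
        exact h3 w hvw (e.injective (Subtype.ext he))
      · rw [hp2 v w hvw] at he
        exact hvw ((hadj v w).2 ⟨hw, by rw [he]; exact (e b).2⟩)
    · intro h3 w hw he
      refine h3 w ((hadj v w).1 hw).1 ?_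
      rw [hp1 v w hw, he]
  have hsum : ∀ F : C → ℝ, ∑ c ∈ A, F c = ∑ b : Cl m, F ((e b : A) : C) := by
    intro F
    rw [← Finset.sum_coe_sort A F]
    exact (Equiv.sum_comp e (fun c : A => F (c : C))).symm
  have hwt : ∀ (k : V → ℝ) (b : Cl m), wt H φ k ((e b : A) : C) = wt He φe k b := by
    intro k b
    unfold wt
    refine Finset.sum_congr rfl fun v _ => ?_
    simp only [hmis b v]
  have hwt' : ∀ (k : V → ℝ) (b : Cl m), wt H φ' k ((e b : A) : C) = wt He ψ k b := by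
    intro k b
    unfold wt
    refine Finset.sum_congr rfl fun v _ => ?_
    simp only [hmis' b v]
  have hwc : ∀ (k : V → ℝ) (b : Cl m), wc H φ k ((e b : A) : C) = wc He φe k b := by
    intro k b
    rw [wc_eq', wc_eq', hwt]
  have hwc' : ∀ (k : V → ℝ) (b : Cl m), wc H φ' k ((e b : A) : C) = wc He ψ k b := by
    intro k b
    rw [wc_eq', wc_eq', hwt']
  have htot : ∀ k : V → ℝ, ∑ c ∈ A, wt H φ k c = ∑ v, k v * ((mis He φe v).card : ℝ) := by
    intro k
    rw [hsum, ← sum_wt]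
    exact Finset.sum_congr rfl fun b _ => hwt k b
  have htotn : ∀ k : V → ℝ, ∑ c ∈ A, wt H φ' k c = ∑ v, k v * ((mis He φe v).card : ℝ) := by
    intro k
    have h3 : ∑ v, k v * ((mis He φe v).card : ℝ) = ∑ v, k v * ((mis He ψ v).card : ℝ) :=
      Finset.sum_congr rfl fun v _ => by rw [mis_card_eq He φe ψ hpe hψ v]
    rw [hsum, h3, ← sum_wt]
    exact Finset.sum_congr rfl fun b _ => hwt' k b
  have htot' : ∀ k : V → ℝ, ∑ c ∈ A, wc H φ k c =
      ∑ v, k v * ((univ.filter (fun w => He.Adj v w)).card : ℝ) := by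
    intro k
    rw [hsum, ← sum_wc He φe hpe]
    exact Finset.sum_congr rfl fun b _ => hwc k b
  refine ⟨φ', hpec, ?_, ?_, ?_, ?_, ?_, ?_⟩
  · intro b hb v
    rw [mem_mis, mem_mis]
    refine forall₂_congr fun w hw => not_congr ?_
    by_cases hvw : He.Adj v w
    · rw [hp1 v w hvw]
      constructor
      · intro he
        exact absurd (by rw [← he]; exact (e _).2) hb
      · intro he
        exact absurd (by rw [← he]; exact ((hadj v w).1 hvw).2) hb
    · rw [hp2 v w hvw]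
  · intro r
    rw [hsum, htot]
    simp only [hwt']
    refine (h1 r).trans (mul_le_mul_of_nonneg_right (Real.sqrt_le_sqrt ?_) (by
      have := hT.hΛ0
      positivity))
    refine Finset.sum_le_sum fun v _ => mul_le_mul_of_nonneg_left ?_ (sq_nonneg _)
    exact_mod_cast hmc v
  · intro j b hb
    have h3 := h2 j (e.symm ⟨b, hb⟩)
    rw [← hwt', Equiv.apply_symm_apply, ← htot] at h3
    exact h3
  · intro j b hb
    have h3 := h2' j (e.symm ⟨b, hb⟩)
    rw [← hwc', Equiv.apply_symm_apply, ← htot'] at h3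
    exact h3
  · intro κ
    rw [htotn, htot]
  · intro n a j hj
    have h3 := h2n n a j hj
    unfold cs at h3
    simp only [hwt']
    exact h3

/-- one cube: every node sees all colours of `A` equally often up to `2`, and the positive
deviations sum up to at most half of the number of colours. -/
theorem cubeN {m : ℕ} {N : Type w} (H : SimpleGraph V) (φ : V → V → C) (h : PEC H φ) (A : Finset C)
    (hA : A.card = 2 ^ m) (nd : V → N) (s : V → ℝ) (hs : ∀ v, s v = 0 ∨ s v = 1 ∨ s v = -1)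
    {I J1 J2 : Type u} [Fintype I] [Fintype J1] [Fintype J2] (k : I → V → ℝ) (g : J1 → V → ℝ)
    (q : J2 → V → ℝ) (K0 S L : ℕ) (Λ : ℝ) (hT : Tst H φ s k g q K0 S L Λ (2 ^ m)) :
    ∃ φ' : V → V → C, PEC H φ' ∧ (∀ b, b ∉ A → ∀ v, b ∈ mis H φ' v ↔ b ∈ mis H φ v) ∧
      (∀ r, ∑ b ∈ A, |wt H φ' (k r) b - (∑ c ∈ A, wt H φ (k r) c) / 2 ^ m| ≤
        Real.sqrt (KK H φ (k r)) * (5 * Real.sqrt (2 ^ m) + 2 * m * Real.sqrt Λ)) ∧
      (∀ j, ∀ b ∈ A, wt H φ' (g j) b ≤ 2 * ((∑ c ∈ A, wt H φ (g j) c) / 2 ^ m) + 12 * Λ) ∧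
      (∀ j, ∀ b ∈ A, wc H φ' (q j) b ≤ 2 * ((∑ c ∈ A, wc H φ (q j) c) / 2 ^ m) + 12 * Λ) ∧
      (∀ κ : V → ℝ, ∑ c ∈ A, wt H φ' κ c = ∑ c ∈ A, wt H φ κ c) ∧
      (∀ n, ∀ b ∈ A, |wt H φ' (nt nd s n) b - (∑ c ∈ A, wt H φ (nt nd s n) c) / 2 ^ m| ≤ 2) ∧
      (∀ n, ∑ b ∈ A, max 0 (wt H φ' (nt nd s n) b - (∑ c ∈ A, wt H φ (nt nd s n) c) / 2 ^ m) ≤
        2 ^ m / 2) ∧
      ∀ n, ∑ b ∈ A, max 0 ((∑ c ∈ A, wt H φ (nt nd s n) c) / 2 ^ m - wt H φ' (nt nd s n) b) ≤
        2 ^ m / 2 := by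
  have hcard : Fintype.card (Cl m) = Fintype.card A := by
    rw [Fintype.card_fun, Fintype.card_bool, Fintype.card_fin, Fintype.card_coe, hA]
  obtain ⟨e⟩ : Nonempty (Cl m ≃ A) := ⟨Fintype.equivOfCardEq hcard⟩
  obtain ⟨φ', h', h1, h2, h3, h4, h5, h6⟩ := cubeE H φ h A e nd s hs k g q K0 S L Λ hT
  have hsum : ∀ F : C → ℝ, ∑ c ∈ A, F c = ∑ b : Cl m, F ((e b : A) : C) := by
    intro F
    rw [← Finset.sum_coe_sort A F]
    exact (Equiv.sum_comp e (fun c : A => F (c : C))).symm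
  refine ⟨φ', h', h1, h2, h3, h4, h5, fun n b hb => ?_, fun n => ?_, fun n => ?_⟩
  · have h7 := bal_one _ (h6 n) (e.symm ⟨b, hb⟩)
    rw [Equiv.apply_symm_apply, ← hsum, h5] at h7
    exact h7
  · have h7 := bal_pos _ (h6 n)
    rw [← hsum, h5] at h7
    rw [hsum]
    exact h7
  · have h7 := bal_pos _ (bal_neg _ (h6 n))
    rw [Finset.sum_neg_distrib, ← hsum, h5] at h7
    rw [hsum]
    refine (le_of_eq ?_).trans h7
    refine Finset.sum_congr rfl fun b _ => ?_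
    congr 1
    ring

end cube

end Pool.Agent.Work.MP_db9399_ch
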