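import Pool.Agent.Work.MP_db9399_ch_helper26.LevelsV

/-!
# MP_db9399, all scales: chained Kempe coins, one cube in a larger palette (helper26)
-/

set_option autoImplicit false

namespace Pool.Agent.Work.MP_db9399_ch

open Finset Classical
open Pool.Agent.Work.MP_db9399_tk
open Pool.Agent.Work.MP_db9399_tkn (MonoX)

universe u v w

section cube
variable {V : Type u} [Fintype V] {C : Type v} [Fintype C]

/-- **One cube**: smoothing of the `2 ^ m` colours of `A`. -/
theorem cubeV {m : ℕ} {N : Type w} (H : SimpleGraph V) (φ : V → V → C) (h : PEC H φ) (A : Finset C)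
    (hA : A.card = 2 ^ m) (s : V → ℝ) (Kf : N → V → ℝ) (hs : ChHyp s Kf)
    {I J1 J2 : Type u} [Fintype I] [Fintype J1] [Fintype J2] (k : I → V → ℝ) (km : I → ℝ)
    (g : J1 → V → ℝ) (q : J2 → V → ℝ) (K0 S L : ℕ) (Λ M : ℝ) (hM : 2 ^ m ≤ M)
    (hT : TstV H φ s k km g q K0 S L Λ M) :
    ∃ φ' : V → V → C, PEC H φ' ∧ (∀ b, b ∉ A → ∀ v, b ∈ mis H φ' v ↔ b ∈ mis H φ v) ∧
      (∀ r, ∑ b ∈ A, |wt H φ' (k r) b - (∑ c ∈ A, wt H φ (k r) c) / 2 ^ m| ≤
        Real.sqrt (KK H φ (k r)) * (5 * Real.sqrt (2 ^ m) + 2 * m * Real.sqrt Λ)) ∧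
      (∀ r, ∑ b ∈ A, (wt H φ' (k r) b - (∑ c ∈ A, wt H φ (k r) c) / 2 ^ m) ^ 2 ≤
        sqb (KK H φ (k r)) Λ (km r) m) ∧
      (∀ j, ∀ b ∈ A, wt H φ' (g j) b ≤ 2 * ((∑ c ∈ A, wt H φ (g j) c) / 2 ^ m) + 12 * Λ) ∧
      (∀ j, ∀ b ∈ A, wc H φ' (q j) b ≤ 2 * ((∑ c ∈ A, wc H φ (q j) c) / 2 ^ m) + 12 * Λ) ∧
      MonoX H φ φ' Kf := by
  have hcard : Fintype.card (Cl m) = Fintype.card A := by
    rw [Fintype.card_fun, Fintype.card_bool, Fintype.card_fin, Fintype.card_coe, hA]
  obtain ⟨e⟩ : Nonempty (Cl m ≃ A) := ⟨Fintype.equivOfCardEq hcard⟩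
  set He := sbg H φ h A with hHe
  have hadj : ∀ v w, He.Adj v w ↔ H.Adj v w ∧ φ v w ∈ A := fun v w => Iff.rfl
  let φe : V → V → Cl m := fun v w =>
    if h : φ v w ∈ A then e.symm ⟨φ v w, h⟩ else fun _ => false
  have hφe : ∀ v w, He.Adj v w → ((e (φe v w) : A) : C) = φ v w := by
    intro v w hvw
    have h1 : φ v w ∈ A := ((hadj v w).1 hvw).2
    simp only [φe, dif_pos h1, Equiv.apply_symm_apply]
  have hpe : PEC He φe := by
    constructor
    · intro v w
      simp only [φe, h.sym v w]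
    · intro v w w' hw hw' he
      refine h.inj v w w' ((hadj v w).1 hw).1 ((hadj v w').1 hw').1 ?_
      rw [← hφe v w hw, ← hφe v w' hw', he]
  have hmis : ∀ (b : Cl m) (v : V), b ∈ mis He φe v ↔ ((e b : A) : C) ∈ mis H φ v := by
    intro b v
    rw [mem_mis, mem_mis]
    constructor
    · intro h1 w hw he
      have h2 : He.Adj v w := (hadj v w).2 ⟨hw, by rw [he]; exact (e b).2⟩
      refine h1 w h2 (e.injective (Subtype.ext ?_))
      rw [hφe v w h2, he]
    · intro h1 w hw he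
      refine h1 w ((hadj v w).1 hw).1 ?_
      rw [← hφe v w hw, he]
  have hmc : ∀ v, (mis He φe v).card ≤ (mis H φ v).card := by
    intro v
    refine Finset.card_le_card_of_injOn (fun b => ((e b : A) : C)) ?_ ?_
    · intro b hb
      exact (hmis b v).1 hb
    · intro b _ b' _ hbb
      exact e.injective (Subtype.ext hbb)
  have hTe : TstV He φe s k km g q K0 S L Λ (2 ^ m) :=
    { hks := hT.hks, hgs := hT.hgs, hqs := hT.hqs
      hK := fun r v hv => (hmc v).trans (hT.hK r v hv)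
      hK1 := fun r v hv => (hmc v).trans (hT.hK1 r v hv)
      hK2 := fun r v hv => (hmc v).trans (hT.hK2 r v hv)
      hS := hT.hS, hS1 := hT.hS1, hS2 := hT.hS2, hL := hT.hL, hL1 := hT.hL1, hL2 := hT.hL2
      hkm := hT.hkm, hg0 := hT.hg0, hg1 := hT.hg1, hq0 := hT.hq0, hq1 := hT.hq1
      hL0 := hT.hL0, hΛ0 := hT.hΛ0
      hΛ := le_trans (mul_le_mul_of_nonneg_left (by linarith) (by positivity)) hT.hΛ }
  obtain ⟨ψ, hψ, h1, h1s, h2, h2', h2n⟩ := smoothV He φe hpe s Kf hs k km g q K0 S L Λ hTe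
  let φ' : V → V → C := fun v w => if He.Adj v w then ((e (ψ v w) : A) : C) else φ v w
  have hp1 : ∀ v w, He.Adj v w → φ' v w = ((e (ψ v w) : A) : C) := fun v w hvw => if_pos hvw
  have hp2 : ∀ v w, ¬ He.Adj v w → φ' v w = φ v w := fun v w hvw => if_neg hvw
  have hpec : PEC H φ' := by
    constructor
    · intro v w
      by_cases hvw : He.Adj v w
      · rw [hp1 v w hvw, hp1 w v hvw.symm, hψ.sym v w]
      · rw [hp2 v w hvw, hp2 w v fun h' => hvw h'.symm, h.sym v w]
    · intro v w w' hw hw' he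
      by_cases hvw : He.Adj v w <;> by_cases hvw' : He.Adj v w'
      · rw [hp1 v w hvw, hp1 v w' hvw'] at he
        exact hψ.inj v w w' hvw hvw' (e.injective (Subtype.ext he))
      · rw [hp1 v w hvw, hp2 v w' hvw'] at he
        exact absurd ((hadj v w').2 ⟨hw', by rw [← he]; exact (e _).2⟩) hvw'
      · rw [hp2 v w hvw, hp1 v w' hvw'] at he
        exact absurd ((hadj v w).2 ⟨hw, by rw [he]; exact (e _).2⟩) hvw
      · rw [hp2 v w hvw, hp2 v w' hvw'] at he
        exact h.inj v w w' hw hw' he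
  have hmis' : ∀ (b : Cl m) (v : V), b ∈ mis He ψ v ↔ ((e b : A) : C) ∈ mis H φ' v := by
    intro b v
    rw [mem_mis, mem_mis]
    constructor
    · intro h3 w hw he
      by_cases hvw : He.Adj v w
      · rw [hp1 v w hvw] at he
        exact h3 w hvw (e.injective (Subtype.ext he))
      · rw [hp2 v w hvw] at he
        exact hvw ((hadj v w).2 ⟨hw, by rw [he]; exact (e b).2⟩)
    · intro h3 w hw he
      refine h3 w ((hadj v w).1 hw).1 ?_
      rw [hp1 v w hw, he]
  have hsum : ∀ F : C → ℝ, ∑ c ∈ A, F c = ∑ b : Cl m, F ((e b : A) : C) := by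
    intro F
    rw [← Finset.sum_coe_sort A F]
    exact (Equiv.sum_comp e (fun c : A => F (c : C))).symm
  have hwt : ∀ (k : V → ℝ) (b : Cl m), wt H φ k ((e b : A) : C) = wt He φe k b := by
    intro k b
    unfold wt
    refine Finset.sum_congr rfl fun v _ => ?_
    simp only [hmis b v]
  have hwt' : ∀ (k : V → ℝ) (b : Cl m), wt H φ' k ((e b : A) : C) = wt He ψ k b := by
    intro k b
    unfold wt
    refine Finset.sum_congr rfl fun v _ => ?_
    simp only [hmis' b v]
  have hwc : ∀ (k : V → ℝ) (b : Cl m), wc H φ k ((e b : A) : C) = wc He φe k b := by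
    intro k b
    rw [wc_eq', wc_eq', hwt]
  have hwc' : ∀ (k : V → ℝ) (b : Cl m), wc H φ' k ((e b : A) : C) = wc He ψ k b := by
    intro k b
    rw [wc_eq', wc_eq', hwt']
  have htot : ∀ k : V → ℝ, ∑ c ∈ A, wt H φ k c = ∑ v, k v * ((mis He φe v).card : ℝ) := by
    intro k
    rw [hsum, ← sum_wt]
    exact Finset.sum_congr rfl fun b _ => hwt k b
  have htot' : ∀ k : V → ℝ, ∑ c ∈ A, wc H φ k c =
      ∑ v, k v * ((univ.filter (fun w => He.Adj v w)).card : ℝ) := by
    intro k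
    rw [hsum, ← sum_wc He φe hpe]
    exact Finset.sum_congr rfl fun b _ => hwc k b
  have hout : ∀ b, b ∉ A → ∀ v, b ∈ mis H φ' v ↔ b ∈ mis H φ v := by
    intro b hb v
    rw [mem_mis, mem_mis]
    refine forall₂_congr fun w hw => not_congr ?_
    by_cases hvw : He.Adj v w
    · rw [hp1 v w hvw]
      constructor
      · intro he
        exact absurd (by rw [← he]; exact (e _).2) hb
      · intro he
        exact absurd (by rw [← he]; exact ((hadj v w).1 hvw).2) hb
    · rw [hp2 v w hvw]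
  refine ⟨φ', hpec, hout, ?_, ?_, ?_, ?_, ?_⟩
  · intro r
    rw [hsum, htot]
    simp only [hwt']
    refine (h1 r).trans (mul_le_mul_of_nonneg_right (Real.sqrt_le_sqrt ?_) (by
      have := hT.hΛ0
      positivity))
    refine Finset.sum_le_sum fun v _ => mul_le_mul_of_nonneg_left ?_ (sq_nonneg _)
    exact_mod_cast hmc v
  · intro r
    rw [hsum, htot]
    simp only [hwt']
    refine (h1s r).trans ?_
    have h5 : (∑ v, k r v ^ 2 * ((mis He φe v).card : ℝ)) ≤ KK H φ (k r) := by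
      refine Finset.sum_le_sum fun v _ => mul_le_mul_of_nonneg_left ?_ (sq_nonneg _)
      exact_mod_cast hmc v
    unfold sqb
    have h6 : (∑ v, k r v ^ 2 * ((mis He φe v).card : ℝ)) * (4 + 16 * Λ * m / 2 ^ m) ≤
        KK H φ (k r) * (4 + 16 * Λ * m / 2 ^ m) := by
      refine mul_le_mul_of_nonneg_right h5 ?_
      have := hT.hΛ0
      positivity
    have h7 : ∀ K : ℝ, 4 * K + 96 * Λ ^ 2 * km r ^ 2 + 16 * Λ * m * K / 2 ^ m =
        K * (4 + 16 * Λ * m / 2 ^ m) + 96 * Λ ^ 2 * km r ^ 2 := by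
      intro K
      ring
    rw [h7, h7]
    linarith
  · intro j b hb
    have h3 := h2 j (e.symm ⟨b, hb⟩)
    rw [← hwt', Equiv.apply_symm_apply, ← htot] at h3
    exact h3
  · intro j b hb
    have h3 := h2' j (e.symm ⟨b, hb⟩)
    rw [← hwc', Equiv.apply_symm_apply, ← htot'] at h3
    exact h3
  · intro n lo hi hb
    have hin : ∀ b : Cl m, lo ≤ wt He ψ (Kf n) b ∧ wt He ψ (Kf n) b ≤ hi := by
      refine h2n n lo hi fun b => ?_
      rw [← hwt]
      exact hb _
    intro b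
    by_cases hbA : b ∈ A
    · have h3 := hin (e.symm ⟨b, hbA⟩)
      rw [← hwt', Equiv.apply_symm_apply] at h3
      exact h3
    · have h3 : wt H φ' (Kf n) b = wt H φ (Kf n) b := by
        unfold wt
        refine Finset.sum_congr rfl fun v _ => ?_
        simp only [hout b hbA v]
      rw [h3]
      exact hb b

end cube

end Pool.Agent.Work.MP_db9399_ch
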