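import Pool.Agent.Work.MP_db9399_tkn_helper59.EQ3
import Pool.Agent.Work.MP_db9399_ch_helper26.Core4

/-!
# MP_db9399, all scales: chains and equitable edge colourings with two levels of nodes (helper26)
-/

set_option autoImplicit false

namespace Pool.Agent.Work.MP_db9399_tkn

open Finset Classical
open Pool.Agent.Work.MP_db9399_tk
open Pool.Agent.Work.MP_db9399_ch (dx_cases nz_v ChainP)

universe u v w

section level

variable {V : Type u} [Fintype V] {I I' : Type v} {m : ℕ}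

/-- chains of one pair, three stages -/
theorem pair4 (pr : I → I') (i : Fin m) (H : SimpleGraph V) (φ : V → V → Cl m) (h : PEC H φ)
    (nd : V → Option (I × Bool)) (b : Cl m) :
    ∃ κ : V → V,
      (∀ q, ∀ E : Finset V, (∀ v ∈ E, dx i H φ b v ≠ 0 ∧ κ (rp i H φ h b v) = q ∧ nd v = none) →
        E.card ≤ 2) ∧
      (∀ (f : V → Fin 2) (x : ((I × Bool) ⊕ I) ⊕ I'),
        |∑ v, sg (f (κ (rp i H φ h b v))) * (fx4 pr x (nd v) * dx i H φ b v)| ≤
          |∑ v, fx4 pr x (nd v) * dx i H φ b v|) ∧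
      ∀ j : I', 2 < |∑ v, sq pr j (nd v) * dx i H φ b v| → ∃ f : V → Fin 2,
        |∑ v, sg (f (κ (rp i H φ h b v))) * (sq pr j (nd v) * dx i H φ b v)| <
          |∑ v, sq pr j (nd v) * dx i H φ b v| := by
  obtain ⟨κ, h0, h1, h2⟩ := chain4 pr (O := {v : V // dx i H φ b v ≠ 0}) (P := V)
    (fun o => rp i H φ h b o.1) (fun o => nd o.1) (fun o => dx i H φ b o.1)
    (fun o => dx_cases i H φ b o.1) (ends2 i H φ h b)
  have h3 : ∀ (F : V → ℝ) (x : ((I × Bool) ⊕ I) ⊕ I'),
      ∑ o : {v : V // dx i H φ b v ≠ 0}, F o.1 * (fx4 pr x (nd o.1) * dx i H φ b o.1) =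
      ∑ v, F v * (fx4 pr x (nd v) * dx i H φ b v) :=
    fun F x => sum_ends i H φ b F fun v => fx4 pr x (nd v)
  have h4 : ∀ x : ((I × Bool) ⊕ I) ⊕ I',
      ∑ o : {v : V // dx i H φ b v ≠ 0}, fx4 pr x (nd o.1) * dx i H φ b o.1 =
      ∑ v, fx4 pr x (nd v) * dx i H φ b v := by
    intro x
    have := h3 (fun _ => 1) x
    simp only [one_mul] at this
    exact this
  refine ⟨κ, fun q E hE => ?_, fun f x => ?_, fun j hx => ?_⟩
  · have h5 : E.card = (E.subtype (fun v => dx i H φ b v ≠ 0)).card := by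
      rw [card_subtype, filter_true_of_mem fun v hv => (hE v hv).1]
    rw [h5]
    refine h0 q _ fun o ho => ?_
    have h6 := hE o.1 (mem_subtype.1 ho)
    exact h6.2
  · have h5 := h1 f x
    rw [h4, h3 (fun v => sg (f (κ (rp i H φ h b v)))) x] at h5
    exact h5
  · have h6 := h4 (Sum.inr j)
    have h7 := fun F : V → ℝ => h3 F (Sum.inr j)
    simp only [fx4] at h6 h7
    rw [← h6] at hx
    obtain ⟨f, h5⟩ := h2 j hx
    rw [h6, h7 (fun v => sg (f (κ (rp i H φ h b v))))] at h5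
    exact ⟨f, h5⟩

/-- **Chains of one level**, two levels of nodes. -/
theorem chain4_level (pr : I → I') (i : Fin m) (H : SimpleGraph V) (φ : V → V → Cl m)
    (h : PEC H φ) (nd : V → Option (I × Bool)) :
    ∃ κ : Cl m × V → Cl m × V, (∀ p, (κ p).1 = p.1) ∧ ChainP i H φ h (fun v => s3 (nd v)) κ ∧
      ∀ (f : Cl m × V → Fin 2) (x : ((I × Bool) ⊕ I) ⊕ I') (b : Cl m),
        |nz i H φ h (fun p => 0 + f (κ p)) (fun v => fx4 pr x (nd v)) b| ≤
          |wt H φ (fun v => fx4 pr x (nd v)) b - wt H φ (fun v => fx4 pr x (nd v)) (fl i b)| := by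
  choose κ h0 h1 h2 using pair4 pr i H φ h nd
  refine ⟨fun p => (p.1, κ p.1 p.2), fun p => rfl, fun q => ?_, fun f x b => ?_⟩
  · set E := univ.filter (fun o : Cl m × V => (o.1 i = false ∧ dx i H φ o.1 o.2 ≠ 0) ∧
      s3 (nd o.2) = 0 ∧ (o.1, κ o.1 (rp i H φ h o.1 o.2)) = q) with hE
    refine le_trans ?_ (h0 q.1 q.2 (E.image Prod.snd) ?_)
    · rw [card_image_of_injOn]
      intro o ho o' ho' he
      rw [hE] at ho ho'
      have h3 := (mem_filter.1 (Finset.mem_coe.1 ho)).2.2.2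
      have h4 := (mem_filter.1 (Finset.mem_coe.1 ho')).2.2.2
      have h5 : o.1 = q.1 := by rw [← h3]
      have h6 : o'.1 = q.1 := by rw [← h4]
      exact Prod.ext (h5.trans h6.symm) he
    · intro v hv
      obtain ⟨o, ho, rfl⟩ := mem_image.1 hv
      rw [hE] at ho
      have h3 := (mem_filter.1 ho).2
      have h4 : o.1 = q.1 := by rw [← h3.2.2]
      have h5 : κ o.1 (rp i H φ h o.1 o.2) = q.2 := by rw [← h3.2.2]
      rw [h4] at h5
      refine ⟨?_, h5, (s3_zero _).1 h3.2.1⟩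
      rw [← h4]
      exact h3.1.2
  · have h3 := h1 b (fun v => f (b, v)) x
    refine (le_of_eq ?_).trans (h3.trans (le_of_eq ?_))
    · rw [nz_v]
      simp only [zero_add]
    · rw [wt_eq, wt_eq, ← sum_sub_distrib]
      congr 1
      refine sum_congr rfl fun v _ => ?_
      unfold dx
      ring

end level

section eq

variable {V : Type u} [Fintype V] {C : Type v} [Fintype C]

/-- **Equitable colourings**, two levels of nodes: sides, signed nodes, signed pieces. -/
theorem eq4 {I I' : Type w} [Fintype I] [Fintype I'] (pr : I → I') (H : SimpleGraph V)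
    (nd : V → Option (I × Bool)) (φ : V → V → C) (h : PEC H φ) :
    ∃ φ' : V → V → C, PEC H φ' ∧
      Spr H φ' (fun (x : ((I × Bool) ⊕ I) ⊕ I') (v : V) => fx4 pr x (nd v)) := by
  obtain ⟨φ1, h1, h2⟩ := eq3 H nd φ h
  obtain ⟨φ2, h3, h4, h5⟩ := eqmin H (fun (j : I') (v : V) => sq pr j (nd v))
    (fun φ => Spr H φ (fun (x : (I × Bool) ⊕ I) (v : V) => fx x (nd v))) (by
    intro φ h hg x c c' hc hx
    obtain ⟨He, φe, hpe, h3, h4⟩ := pair_lift H φ h c c' hc
    obtain ⟨κ, _, h5, h6⟩ := pair4 pr 0 He φe hpe nd (fun _ => false)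
    rw [h3] at hx
    obtain ⟨f, h7⟩ := h6 x hx
    obtain ⟨φ', h8, h9⟩ := h4 (fun p => f (κ p))
    refine ⟨φ', h8, ?_, fun y => ?_, ?_⟩
    · refine spr_mono H φ φ' _ (mono_pair H φ φ' c c' h8 _ fun y => ?_) hg
      rw [h3, h9]
      exact h5 f (Sum.inl y)
    · rw [h3, h9]
      exact h5 f (Sum.inr y)
    · rw [h3, h9]
      exact h7) φ1 h1 h2
  refine ⟨φ2, h3, ?_⟩
  rintro (x | j) b b'
  · exact h4 x b b'
  · exact h5 j b b'

end eq

end Pool.Agent.Work.MP_db9399_tkn
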