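import Pool.Agent.Work.MP_db9399_ch_helper26.Core
import Pool.Agent.Work.MP_db9399_tk_helper59.Step2

/-!
# MP_db9399, all scales: chained Kempe coins, part 2 (helper26)

One level of the hypercube with one coin per chain. `s v = ±1` for the vertices of the nodes `nd v`,
`s v = 0` for the vertices which carry tokens.
-/

set_option autoImplicit false

namespace Pool.Agent.Work.MP_db9399_ch

open Finset Classical
open Pool.Agent.Work.MP_db9399_all (pr DepOnI PackI)
open Pool.Agent.Work.MP_db9399_tk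

universe u v w

section level
variable {V : Type u} [Fintype V] {m : ℕ} {N : Type w}

/-- the test function of a node -/
noncomputable def nt (nd : V → N) (s : V → ℝ) (n : N) (v : V) : ℝ := if nd v = n then s v else 0

omit [Fintype V] in
theorem dx_cases (i : Fin m) (H : SimpleGraph V) (φ : V → V → Cl m) (b : Cl m) (v : V) :
    dx i H φ b v = 0 ∨ dx i H φ b v = 1 ∨ dx i H φ b v = -1 := by
  unfold dx xm
  split_ifs <;> norm_num

/-- the noise of a pair as a sum over the vertices -/
theorem nz_v (i : Fin m) (H : SimpleGraph V) (φ : V → V → Cl m) (h : PEC H φ)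
    (F : Cl m × V → Fin 2) (k : V → ℝ) (b : Cl m) :
    nz i H φ h F k b = ∑ v, sg (F (b, rp i H φ h b v)) * (k v * dx i H φ b v) := by
  unfold nz cf
  have h2 : ∀ R, sg (F (b, R)) * ∑ v ∈ univ.filter (fun v => rp i H φ h b v = R),
      k v * dx i H φ b v = ∑ v ∈ univ.filter (fun v => rp i H φ h b v = R),
        sg (F (b, rp i H φ h b v)) * (k v * dx i H φ b v) := by
    intro R
    rw [Finset.mul_sum]
    refine Finset.sum_congr rfl fun v hv => ?_
    rw [(Finset.mem_filter.1 hv).2]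
  rw [Finset.sum_congr rfl fun R _ => h2 R]
  exact Finset.sum_fiberwise univ (fun v => rp i H φ h b v)
    (fun v => sg (F (b, rp i H φ h b v)) * (k v * dx i H φ b v))

/-- sums over the ends of all pairs -/
theorem sum_pairs (i : Fin m) (p : Cl m → Prop) (F : Cl m → V → ℝ) :
    ∑ b ∈ univ.filter (fun b : Cl m => b i = false ∧ p b), ∑ v, F b v =
      ∑ o ∈ univ.filter (fun o : Cl m × V => o.1 i = false ∧ p o.1), F o.1 o.2 := by
  rw [Finset.sum_filter, Finset.sum_filter, Fintype.sum_prod_type]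
  refine Finset.sum_congr rfl fun b _ => ?_
  by_cases hb : b i = false ∧ p b
  · simp only [if_pos hb]
  · simp only [if_neg hb, Finset.sum_const_zero]

/-- chains -/
def ChainP (i : Fin m) (H : SimpleGraph V) (φ : V → V → Cl m) (h : PEC H φ) (s : V → ℝ)
    (κ : Cl m × V → Cl m × V) : Prop :=
  ∀ q, (univ.filter (fun o : Cl m × V => (o.1 i = false ∧ dx i H φ o.1 o.2 ≠ 0) ∧ s o.2 = 0 ∧
    κ (o.1, rp i H φ h o.1 o.2) = q)).card ≤ 2

theorem chain_level (i : Fin m) (H : SimpleGraph V) (φ : V → V → Cl m) (h : PEC H φ)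
    (nd : V → N) (s : V → ℝ) (hs : ∀ v, s v = 0 ∨ s v = 1 ∨ s v = -1) :
    ∃ (κ : Cl m × V → Cl m × V) (ε : Cl m × V → Fin 2), ChainP i H φ h s κ ∧
      ∀ (f : Cl m × V → Fin 2) (n : N) (a : Cl m),
        |Zc i H φ h (fun p => ε p + f (κ p)) (nt nd s n) a| ≤ 2 := by
  obtain ⟨κ, ε, h1, h2⟩ := chain_core' (O := {o : Cl m × V // o.1 i = false ∧ dx i H φ o.1 o.2 ≠ 0})
    (P := Cl m × V) (N := N × (Fin (i : ℕ) → Bool))
    (fun o => (o.1.1, rp i H φ h o.1.1 o.1.2)) (fun o => (nd o.1.2, rst i o.1.1))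
    (fun o => s o.1.2 * dx i H φ o.1.1 o.1.2) (by
      intro o
      rcases hs o.1.2 with h3 | h3 | h3 <;> rcases dx_cases i H φ o.1.1 o.1.2 with h4 | h4 | h4 <;>
        rw [h3, h4] <;> norm_num) (by
      intro p E hE
      refine le_trans ?_ (ends_le i H φ h p.1 p.2)
      refine card_le_card_of_injOn (fun o => o.1.2) ?_ ?_
      · intro o ho
        have h3 := hE o ho
        unfold ends
        rw [Finset.mem_coe, mem_filter]
        have h4 : o.1.1 = p.1 := by rw [← h3]
        have h5 : rp i H φ h o.1.1 o.1.2 = p.2 := by rw [← h3]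
        rw [← h4]
        exact ⟨mem_univ _, h5, o.2.2⟩
      · intro o ho o' ho' he
        have h3 : o.1.1 = p.1 := by rw [← hE o ho]
        have h4 : o'.1.1 = p.1 := by rw [← hE o' ho']
        exact Subtype.ext (Prod.ext (h3.trans h4.symm) he))
  refine ⟨κ, ε, ?_, ?_⟩
  · intro q
    rw [← Finset.card_attach]
    rw [← card_map (f := (⟨fun o => ⟨o.1, (mem_filter.1 o.2).2.1⟩, fun o o' ho =>
      Subtype.ext (congrArg (fun x => x.1) ho)⟩ :
      {o // o ∈ univ.filter (fun o : Cl m × V => (o.1 i = false ∧ dx i H φ o.1 o.2 ≠ 0) ∧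
        s o.2 = 0 ∧ κ (o.1, rp i H φ h o.1 o.2) = q)} ↪
      {o : Cl m × V // o.1 i = false ∧ dx i H φ o.1 o.2 ≠ 0}))]
    refine h1 q _ ?_
    intro o ho
    obtain ⟨o', _, rfl⟩ := mem_map.1 ho
    have h3 := (mem_filter.1 o'.2).2.2
    refine ⟨h3.2, ?_⟩
    show s o'.1.2 * _ = 0
    rw [h3.1, zero_mul]
  · intro f n a
    have h3 := h2 f (n, rst i a) (univ.filter (fun o => (nd o.1.2, rst i o.1.1) = (n, rst i a)))
      (fun o => ⟨fun h => (mem_filter.1 h).2, fun h => mem_filter.2 ⟨mem_univ _, h⟩⟩)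
    refine le_trans (le_of_eq ?_) h3
    congr 1
    have h4 : ∀ b : Cl m, ag i a b ↔ rst i b = rst i a := by
      intro b
      constructor
      · intro h5
        funext j
        exact (h5 _ j.2).symm
      · intro h5 j hj
        exact (congrFun h5 ⟨j, hj⟩).symm
    unfold Zc
    rw [sum_congr rfl fun b _ => nz_v i H φ h _ (nt nd s n) b, sum_pairs]
    rw [sum_filter (s := (univ : Finset {o : Cl m × V // o.1 i = false ∧ dx i H φ o.1 o.2 ≠ 0}))]
    rw [← sum_subtype (univ.filter (fun o : Cl m × V => o.1 i = false ∧ dx i H φ o.1 o.2 ≠ 0))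
      (fun x => by simp) (fun o : Cl m × V => if (nd o.2, rst i o.1) = (n, rst i a) then
        sg (ε (o.1, rp i H φ h o.1 o.2) + f (κ (o.1, rp i H φ h o.1 o.2))) *
          (s o.2 * dx i H φ o.1 o.2) else 0)]
    rw [sum_filter, sum_filter]
    refine sum_congr rfl fun o _ => ?_
    by_cases hb : o.1 i = false
    · by_cases hd : dx i H φ o.1 o.2 = 0
      · simp [hd]
      · rw [if_pos (⟨hb, hd⟩ : o.1 i = false ∧ dx i H φ o.1 o.2 ≠ 0)]
        unfold nt
        by_cases h5 : rst i o.1 = rst i a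
        · by_cases h6 : nd o.2 = n
          · rw [if_pos ⟨hb, (h4 _).2 h5⟩, if_pos (Prod.ext h6 h5), if_pos h6]
          · rw [if_pos ⟨hb, (h4 _).2 h5⟩, if_neg h6, if_neg (fun h => h6 (congrArg Prod.fst h))]
            ring
        · rw [if_neg (fun h => h5 ((h4 _).1 h.2)), if_neg (fun h => h5 (congrArg Prod.snd h))]
    · rw [if_neg (fun h => hb h.1), if_neg (fun h => hb h.1)]

end level

end Pool.Agent.Work.MP_db9399_ch
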