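import Pool.Agent.Work.MP_db9399_ch_helper26.Step

/-!
# MP_db9399, all scales: chained Kempe coins, part 4 (helper26)

All levels of the hypercube: `smooth2N`.
-/

set_option autoImplicit false

namespace Pool.Agent.Work.MP_db9399_ch

open Finset Classical
open Pool.Agent.Work.MP_db9399_all (pr DepOnI PackI)
open Pool.Agent.Work.MP_db9399_tk

universe u v w

section levels
variable {V : Type u} [Fintype V] {m : ℕ}

theorem ag_fl_le (i : Fin m) (j : ℕ) (hj : j ≤ i) (a b : Cl m) : ag j a (fl i b) ↔ ag j a b := by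
  have h1 : ∀ b : Cl m, ag j b (fl i b) := by
    intro b l hl
    refine (fl_other i l b ?_).symm
    rintro rfl
    omega
  exact ⟨fun h => ag_trans h (ag_symm (h1 b)), fun h => ag_trans h (h1 b)⟩

/-- the class sums of the upper levels do not change -/
theorem cs_nw_le (i : Fin m) (H : SimpleGraph V) (φ : V → V → Cl m) (h : PEC H φ)
    (f : Cl m × V → Fin 2) (k : V → ℝ) (a : Cl m) (j : ℕ) (hj : j ≤ i) :
    cs H (nw i H φ h f) k j a = cs H φ k j a := by
  unfold cs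
  rw [← sum_half i (fun b => ag j a b) (fun b => ag_fl_le i j hj a b),
    ← sum_half i (fun b => ag j a b) (fun b => ag_fl_le i j hj a b)]
  refine Finset.sum_congr rfl fun b _ => ?_
  rw [wt_eq, wt_eq, wt_eq, wt_eq, ← Finset.sum_add_distrib, ← Finset.sum_add_distrib]
  refine Finset.sum_congr rfl fun v _ => ?_
  rw [← mul_add, ← mul_add, xm_add]

theorem vs_cs (i : Fin m) (H : SimpleGraph V) (φ : V → V → Cl m) (k : V → ℝ)
    (a : Cl m) (hk0 : ∀ v, 0 ≤ k v) (hk1 : ∀ v, k v ≤ 1) : vs i H φ k a ≤ cs H φ k i a := by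
  unfold vs cs
  rw [← sum_half i (fun b => ag i a b) (fun b => ag_fl_iff' i a b)]
  refine Finset.sum_le_sum fun b _ => ?_
  rw [wt_eq, wt_eq, ← Finset.sum_add_distrib]
  refine Finset.sum_le_sum fun v _ => ?_
  rw [← mul_add]
  have h1 := dx_sq i H φ b v
  have h2 := sq_nonneg (dx i H φ b v)
  have h3 : k v ^ 2 ≤ k v := by nlinarith [hk0 v, hk1 v]
  have h4 := sq_nonneg (k v)
  have h5 := hk0 v
  nlinarith

theorem vs_cc (i : Fin m) (H : SimpleGraph V) (φ : V → V → Cl m) (k : V → ℝ)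
    (a : Cl m) (hk0 : ∀ v, 0 ≤ k v) (hk1 : ∀ v, k v ≤ 1) : vs i H φ k a ≤ cc H φ k i a := by
  unfold vs cc
  rw [← sum_half i (fun b => ag i a b) (fun b => ag_fl_iff' i a b)]
  refine Finset.sum_le_sum fun b _ => ?_
  rw [wc_eq, wc_eq, ← Finset.sum_add_distrib]
  refine Finset.sum_le_sum fun v _ => ?_
  rw [← mul_add]
  have h1 := dx_sq' i H φ b v
  have h2 := sq_nonneg (dx i H φ b v)
  have h3 : k v ^ 2 ≤ k v := by nlinarith [hk0 v, hk1 v]
  have h4 := sq_nonneg (k v)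
  have h5 := hk0 v
  nlinarith

/-- all levels, with covers and nodes -/
theorem levels2N {N : Type w} (H : SimpleGraph V) (φ : V → V → Cl m) (h : PEC H φ)
    (nd : V → N) (s : V → ℝ) (hs : ∀ v, s v = 0 ∨ s v = 1 ∨ s v = -1)
    {I J1 J2 : Type u} [Fintype I] [Fintype J1] [Fintype J2] (k : I → V → ℝ) (g : J1 → V → ℝ)
    (q : J2 → V → ℝ) (hks : ∀ r v, k r v ≠ 0 → s v = 0) (hgs : ∀ j v, g j v ≠ 0 → s v = 0)
    (hqs : ∀ j v, q j v ≠ 0 → s v = 0) (K0 S L : ℕ)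
    (Λ : ℝ) (hK : ∀ r v, k r v ≠ 0 → (mis H φ v).card ≤ K0)
    (hK1 : ∀ j v, g j v ≠ 0 → (mis H φ v).card ≤ K0)
    (hK2 : ∀ j v, q j v ≠ 0 → (mis H φ v).card ≤ K0)
    (hS : ∀ r, (univ.filter (fun v => k r v ≠ 0)).card ≤ S)
    (hS1 : ∀ j, (univ.filter (fun v => g j v ≠ 0)).card ≤ S)
    (hS2 : ∀ j, (univ.filter (fun v => q j v ≠ 0)).card ≤ S)
    (hL : ∀ v, (univ.filter (fun r => k r v ≠ 0)).card ≤ L)
    (hL1 : ∀ v, (univ.filter (fun j => g j v ≠ 0)).card ≤ L)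
    (hL2 : ∀ v, (univ.filter (fun j => q j v ≠ 0)).card ≤ L)
    (hg0 : ∀ j v, 0 ≤ g j v) (hg1 : ∀ j v, g j v ≤ 1)
    (hq0 : ∀ j v, 0 ≤ q j v) (hq1 : ∀ j v, q j v ≤ 1) (hL0 : 1 ≤ L) (hΛ0 : 0 ≤ Λ)
    (hΛ : 64 * ((S : ℝ) * K0 + 1) * L * (2 ^ m + 1) ≤ Real.exp Λ) (i : ℕ) (hi : i ≤ m) :
    ∃ φ' : V → V → Cl m, PEC H φ' ∧
      (∀ r, ∑ a, |cs H φ' (k r) i a - (∑ v, k r v * ((mis H φ v).card : ℝ)) / 2 ^ i| ≤
        2 ^ m / 2 ^ i * ∑ j ∈ range i, Real.sqrt (4 * K2 H φ (k r) * (2 ^ j * Real.log 2 + Λ))) ∧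
      (∀ j a, Real.sqrt (cs H φ' (g j) i a) ≤
        Real.sqrt ((∑ v, g j v * ((mis H φ v).card : ℝ)) / 2 ^ i) +
          (1 + Real.sqrt 2) * Real.sqrt Λ) ∧
      (∀ j a, Real.sqrt (cc H φ' (q j) i a) ≤
        Real.sqrt ((∑ v, q j v * ((univ.filter (fun w => H.Adj v w)).card : ℝ)) / 2 ^ i) +
          (1 + Real.sqrt 2) * Real.sqrt Λ) ∧
      ∀ n a, ∀ j < i, |cs H φ' (nt nd s n) (j + 1) a - 1 / 2 * cs H φ' (nt nd s n) j a| ≤ 1 := by
  induction i with
  | zero =>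
    have h1 := Real.sqrt_nonneg Λ
    have h2 := Real.sqrt_nonneg 2
    have h3 : 0 ≤ (1 + Real.sqrt 2) * Real.sqrt Λ := by positivity
    refine ⟨φ, h, fun r => ?_, fun j a => ?_, fun j a => ?_, fun n a j hj => absurd hj (by omega)⟩
    · rw [Finset.range_zero, Finset.sum_empty, mul_zero]
      refine le_of_eq (Finset.sum_eq_zero fun a _ => ?_)
      rw [cs_zero, pow_zero, div_one, sub_self, abs_zero]
    · rw [cs_zero, pow_zero, div_one]
      linarith
    · rw [cc_zero H φ h, pow_zero, div_one]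
      linarith
  | succ i ih =>
    obtain ⟨φ', h', h1, h2, h2', h2n⟩ := ih (by omega)
    have hm : ∀ v, (mis H φ' v).card = (mis H φ v).card := mis_card_eq H φ φ' h h'
    obtain ⟨f, h3, h4, h4n⟩ := level2N (⟨i, by omega⟩ : Fin m) H φ' h' nd s hs k
      (Sum.elim g q : J1 ⊕ J2 → V → ℝ) hks
      (by
        rintro (j | j) v hv
        · exact hgs j v hv
        · exact hqs j v hv)
      (fun j a => Sum.elim (fun j => cs H φ' (g j) i a) (fun j => cc H φ' (q j) i a) j)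
      K0 S (2 * L) Λ
      (fun r v hv => by rw [hm v]; exact hK r v hv)
      (by
        rintro (j | j) v hv
        · rw [hm v]
          exact hK1 j v hv
        · rw [hm v]
          exact hK2 j v hv)
      hS
      (by
        rintro (j | j)
        · exact hS1 j
        · exact hS2 j)
      (fun v => (hL v).trans (by omega))
      (fun v => by
        have h5 : (univ.filter (fun j : J1 ⊕ J2 => (Sum.elim g q : J1 ⊕ J2 → V → ℝ) j v ≠ 0)).card ≤
            (univ.filter (fun j => g j v ≠ 0)).card + (univ.filter (fun j => q j v ≠ 0)).card := by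
          rw [← Finset.card_disjSum]
          refine Finset.card_le_card ?_
          rintro (j | j) hj
          · rw [Finset.inl_mem_disjSum]
            exact Finset.mem_filter.2 ⟨Finset.mem_univ _, (Finset.mem_filter.1 hj).2⟩
          · rw [Finset.inr_mem_disjSum]
            exact Finset.mem_filter.2 ⟨Finset.mem_univ _, (Finset.mem_filter.1 hj).2⟩
        have h6 := hL1 v
        have h7 := hL2 v
        omega)
      (by
        rintro (j | j) a
        · exact cs_nonneg H φ' (g j) (hg0 j) i a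
        · exact cc_nonneg H φ' (q j) (hq0 j) i a)
      (by
        rintro (j | j) a
        · exact vs_cs _ H φ' (g j) a (hg0 j) (hg1 j)
        · exact vs_cc _ H φ' (q j) a (hq0 j) (hq1 j))
      (by omega) hΛ0
      (by
        refine le_trans (le_of_eq ?_) hΛ
        push_cast
        ring)
    refine ⟨nw (⟨i, by omega⟩ : Fin m) H φ' h' f, nw_pec _ H φ' h' f, fun r => ?_, fun j a => ?_,
      fun j a => ?_, fun n a j hj => ?_⟩
    · set Wr := ∑ v, k r v * ((mis H φ v).card : ℝ) with hWr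
      have h5 := h3 r
      rw [K2_eq H φ φ' h h' (k r)] at h5
      have h6 := h1 r
      have h7 : ∀ a, |cs H (nw (⟨i, by omega⟩ : Fin m) H φ' h' f) (k r) (i + 1) a -
          Wr / 2 ^ (i + 1)| ≤
          |cs H (nw (⟨i, by omega⟩ : Fin m) H φ' h' f) (k r) (i + 1) a -
            1 / 2 * cs H φ' (k r) i a| + 1 / 2 * |cs H φ' (k r) i a - Wr / 2 ^ i| := by
        intro a
        have h8 : cs H (nw (⟨i, by omega⟩ : Fin m) H φ' h' f) (k r) (i + 1) a -
          Wr / 2 ^ (i + 1) = (cs H (nw (⟨i, by omega⟩ : Fin m) H φ' h' f) (k r) (i + 1) a -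
            1 / 2 * cs H φ' (k r) i a) + 1 / 2 * (cs H φ' (k r) i a - Wr / 2 ^ i) := by
          rw [pow_succ]
          field_simp
          ring
        rw [h8]
        refine (abs_add_le _ _).trans (add_le_add_right (le_of_eq ?_) _)
        rw [abs_mul, abs_of_nonneg (by norm_num : (0 : ℝ) ≤ 1 / 2)]
      refine (Finset.sum_le_sum fun a _ => h7 a).trans ?_
      rw [Finset.sum_add_distrib, ← Finset.mul_sum, Finset.sum_range_succ]
      have h9 : (2 : ℝ) ^ m / 2 ^ (i + 1) = 1 / 2 * (2 ^ m / 2 ^ i) := by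
        rw [pow_succ]
        field_simp
      refine (add_le_add h5 (mul_le_mul_of_nonneg_left h6 (by norm_num : (0 : ℝ) ≤ 1 / 2))).trans
        (le_of_eq ?_)
      rw [h9]
      ring
    · set Gj := ∑ v, g j v * ((mis H φ v).card : ℝ) with hGj
      have hG0 : 0 ≤ Gj := Finset.sum_nonneg fun v _ => mul_nonneg (hg0 j v) (Nat.cast_nonneg _)
      have h5 := (abs_le.1 (h4 (Sum.inl j) a)).2
      have h6 := sqrt_step (cs H φ' (g j) i a)
        (cs H (nw (⟨i, by omega⟩ : Fin m) H φ' h' f) (g j) (i + 1) a) Λ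
        (Real.sqrt (Gj / 2 ^ i)) (cs_nonneg H φ' (g j) (hg0 j) i a) hΛ0
        (by
          simp only [Sum.elim_inl] at h5
          linarith) (h2 j a)
      refine h6.trans (le_of_eq ?_)
      rw [← Real.sqrt_div (by positivity), pow_succ, div_div]
    · set Gj := ∑ v, q j v * ((univ.filter (fun w => H.Adj v w)).card : ℝ) with hGj
      have hG0 : 0 ≤ Gj := Finset.sum_nonneg fun v _ => mul_nonneg (hq0 j v) (Nat.cast_nonneg _)
      have h5 := (abs_le.1 (h4 (Sum.inr j) a)).1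
      simp only [Sum.elim_inr] at h5
      have h7 : cc H (nw (⟨i, by omega⟩ : Fin m) H φ' h' f) (q j) (i + 1) a ≤
          1 / 2 * cc H φ' (q j) i a + Real.sqrt (Λ * cc H φ' (q j) i a) := by
        have h8 := cc_eq H φ' (q j) i (by omega) a
        have h9 := cc_eq H (nw (⟨i, by omega⟩ : Fin m) H φ' h' f) (q j) (i + 1) hi a
        have h10 : (2 : ℝ) ^ m / 2 ^ (i + 1) = 1 / 2 * (2 ^ m / 2 ^ i) := by
          rw [pow_succ]
          field_simp
        rw [h10] at h9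
        linarith
      have h6 := sqrt_step (cc H φ' (q j) i a)
        (cc H (nw (⟨i, by omega⟩ : Fin m) H φ' h' f) (q j) (i + 1) a) Λ
        (Real.sqrt (Gj / 2 ^ i)) (cc_nonneg H φ' (q j) (hq0 j) i a) hΛ0 h7 (h2' j a)
      refine h6.trans (le_of_eq ?_)
      rw [← Real.sqrt_div (by positivity), pow_succ, div_div]
    · rcases Nat.lt_succ_iff_lt_or_eq.1 hj with h5 | h5
      · rw [cs_nw_le (⟨i, by omega⟩ : Fin m) H φ' h' f (nt nd s n) a (j + 1) h5,
          cs_nw_le (⟨i, by omega⟩ : Fin m) H φ' h' f (nt nd s n) a j h5.le]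
        exact h2n n a j h5
      · subst h5
        rw [cs_nw_le (⟨j, by omega⟩ : Fin m) H φ' h' f (nt nd s n) a j le_rfl]
        exact h4n n a

/-- **Token smoothing with nodes**, `2 ^ m` colours. -/
theorem smooth2N {N : Type w} (H : SimpleGraph V) (φ : V → V → Cl m) (h : PEC H φ)
    (nd : V → N) (s : V → ℝ) (hs : ∀ v, s v = 0 ∨ s v = 1 ∨ s v = -1)
    {I J1 J2 : Type u} [Fintype I] [Fintype J1] [Fintype J2] (k : I → V → ℝ) (g : J1 → V → ℝ)
    (q : J2 → V → ℝ) (hks : ∀ r v, k r v ≠ 0 → s v = 0) (hgs : ∀ j v, g j v ≠ 0 → s v = 0)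
    (hqs : ∀ j v, q j v ≠ 0 → s v = 0) (K0 S L : ℕ)
    (Λ : ℝ) (hK : ∀ r v, k r v ≠ 0 → (mis H φ v).card ≤ K0)
    (hK1 : ∀ j v, g j v ≠ 0 → (mis H φ v).card ≤ K0)
    (hK2 : ∀ j v, q j v ≠ 0 → (mis H φ v).card ≤ K0)
    (hS : ∀ r, (univ.filter (fun v => k r v ≠ 0)).card ≤ S)
    (hS1 : ∀ j, (univ.filter (fun v => g j v ≠ 0)).card ≤ S)
    (hS2 : ∀ j, (univ.filter (fun v => q j v ≠ 0)).card ≤ S)
    (hL : ∀ v, (univ.filter (fun r => k r v ≠ 0)).card ≤ L)
    (hL1 : ∀ v, (univ.filter (fun j => g j v ≠ 0)).card ≤ L)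
    (hL2 : ∀ v, (univ.filter (fun j => q j v ≠ 0)).card ≤ L)
    (hg0 : ∀ j v, 0 ≤ g j v) (hg1 : ∀ j v, g j v ≤ 1)
    (hq0 : ∀ j v, 0 ≤ q j v) (hq1 : ∀ j v, q j v ≤ 1) (hL0 : 1 ≤ L) (hΛ0 : 0 ≤ Λ)
    (hΛ : 64 * ((S : ℝ) * K0 + 1) * L * (2 ^ m + 1) ≤ Real.exp Λ) :
    ∃ φ' : V → V → Cl m, PEC H φ' ∧
      (∀ r, ∑ b, |wt H φ' (k r) b - (∑ v, k r v * ((mis H φ v).card : ℝ)) / 2 ^ m| ≤
        Real.sqrt (∑ v, k r v ^ 2 * ((mis H φ v).card : ℝ)) *
          (5 * Real.sqrt (2 ^ m) + 2 * m * Real.sqrt Λ)) ∧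
      (∀ j b, wt H φ' (g j) b ≤
        2 * ((∑ v, g j v * ((mis H φ v).card : ℝ)) / 2 ^ m) + 12 * Λ) ∧
      (∀ j b, wc H φ' (q j) b ≤ 2 * ((∑ v, q j v *
        ((univ.filter (fun w => H.Adj v w)).card : ℝ)) / 2 ^ m) + 12 * Λ) ∧
      ∀ n a, ∀ j < m, |cs H φ' (nt nd s n) (j + 1) a - 1 / 2 * cs H φ' (nt nd s n) j a| ≤ 1 := by
  obtain ⟨φ', h', h1, h2, h2', h3⟩ := levels2N H φ h nd s hs k g q hks hgs hqs K0 S L Λ hK hK1 hK2
    hS hS1 hS2 hL hL1 hL2 hg0 hg1 hq0 hq1 hL0 hΛ0 hΛ m le_rfl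
  refine ⟨φ', h', fun r => ?_, fun j b => ?_, fun j b => ?_, h3⟩
  · have h3 := h1 r
    simp only [cs_full] at h3
    refine h3.trans ?_
    rw [div_self (by positivity), one_mul]
    exact noise_sum (K2 H φ (k r)) Λ (K2_nonneg H φ (k r)) hΛ0 m
  · have h4 := h2 j b
    rw [cs_full] at h4
    exact sq_bound _ _ Λ (wt_nonneg H φ' (g j) (hg0 j) b) (div_nonneg (Finset.sum_nonneg
      fun v _ => mul_nonneg (hg0 j v) (Nat.cast_nonneg _)) (by positivity)) hΛ0 h4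
  · have h4 := h2' j b
    rw [cc_full] at h4
    exact sq_bound _ _ Λ (wc_nonneg H φ' (q j) (hq0 j) b) (div_nonneg (Finset.sum_nonneg
      fun v _ => mul_nonneg (hq0 j v) (Nat.cast_nonneg _)) (by positivity)) hΛ0 h4

end levels

end Pool.Agent.Work.MP_db9399_ch
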