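import Pool.Agent.Work.MP_db9399_ch_helper26.CoreS
import Pool.Agent.Work.MP_db9399_ch_helper26.Levels
import Pool.Agent.Work.MP_db9399_ch_helper26.CubeN

/-!
# MP_db9399, all scales: chained Kempe coins with state-dependent links, levels and cubes (helper26)

The range of every node does not grow.
-/

set_option autoImplicit false

namespace Pool.Agent.Work.MP_db9399_ch

open Finset Classical
open Pool.Agent.Work.MP_db9399_all (pr DepOnI PackI)
open Pool.Agent.Work.MP_db9399_tk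

universe u v w

/-- the range of every node does not grow -/
def Mono {V : Type u} [Fintype V] {C : Type v} [Fintype C] {N : Type w} (H : SimpleGraph V)
    (φ φ' : V → V → C) (nd : V → N) (s : V → ℝ) : Prop :=
  ∀ (n : N) (lo hi : ℝ), (∀ b, lo ≤ wt H φ (nt nd s n) b ∧ wt H φ (nt nd s n) b ≤ hi) →
    ∀ b, lo ≤ wt H φ' (nt nd s n) b ∧ wt H φ' (nt nd s n) b ≤ hi

theorem Mono.refl {V : Type u} [Fintype V] {C : Type v} [Fintype C] {N : Type w}
    (H : SimpleGraph V) (φ : V → V → C) (nd : V → N) (s : V → ℝ) : Mono H φ φ nd s :=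
  fun _ _ _ h => h

theorem Mono.trans {V : Type u} [Fintype V] {C : Type v} [Fintype C] {N : Type w}
    {H : SimpleGraph V} {φ φ' φ'' : V → V → C} {nd : V → N} {s : V → ℝ} (h : Mono H φ φ' nd s)
    (h' : Mono H φ' φ'' nd s) : Mono H φ φ'' nd s :=
  fun n lo hi hb => h' n lo hi (h n lo hi hb)

section level
variable {V : Type u} [Fintype V] {m : ℕ} {N : Type w}

theorem chain_levelS (i : Fin m) (H : SimpleGraph V) (φ : V → V → Cl m) (h : PEC H φ)
    (nd : V → N) (s : V → ℝ) (hs : ∀ v, s v = 0 ∨ s v = 1 ∨ s v = -1) :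
    ∃ κ : Cl m × V → Cl m × V, ChainP i H φ h s κ ∧ (∀ p, (κ p).1 = p.1) ∧
      ∀ (f : Cl m × V → Fin 2) (n : N) (b : Cl m), b i = false →
        |nz i H φ h (fun p => 0 + f (κ p)) (nt nd s n) b| ≤
          |wt H φ (nt nd s n) b - wt H φ (nt nd s n) (fl i b)| := by
  obtain ⟨κ, h1, h1', h2⟩ := chain_state (O := {o : Cl m × V // o.1 i = false ∧ dx i H φ o.1 o.2 ≠ 0})
    (P := Cl m × V) (N := N × Cl m)
    (fun o => (o.1.1, rp i H φ h o.1.1 o.1.2)) (fun o => (nd o.1.2, o.1.1))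
    (fun o => s o.1.2 * dx i H φ o.1.1 o.1.2) (fun p => p.1)
    (fun o o' h => congrArg Prod.snd h) (by
      intro o
      rcases hs o.1.2 with h3 | h3 | h3 <;> rcases dx_cases i H φ o.1.1 o.1.2 with h4 | h4 | h4 <;>
        rw [h3, h4] <;> norm_num) (by
      intro p E hE
      refine le_trans ?_ (ends_le i H φ h p.1 p.2)
      refine card_le_card_of_injOn (fun o => o.1.2) ?_ ?_
      · intro o ho
        have h3 := hE o ho
        unfold ends
        rw [Finset.mem_coe, mem_filter]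
        have h4 : o.1.1 = p.1 := by rw [← h3]
        have h5 : rp i H φ h o.1.1 o.1.2 = p.2 := by rw [← h3]
        rw [← h4]
        exact ⟨mem_univ _, h5, o.2.2⟩
      · intro o ho o' ho' he
        have h3 : o.1.1 = p.1 := by rw [← hE o ho]
        have h4 : o'.1.1 = p.1 := by rw [← hE o' ho']
        exact Subtype.ext (Prod.ext (h3.trans h4.symm) he))
  refine ⟨κ, ?_, h1', ?_⟩
  · intro q
    rw [← Finset.card_attach]
    rw [← card_map (f := (⟨fun o => ⟨o.1, (mem_filter.1 o.2).2.1⟩, fun o o' ho =>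
      Subtype.ext (congrArg (fun x => x.1) ho)⟩ :
      {o // o ∈ univ.filter (fun o : Cl m × V => (o.1 i = false ∧ dx i H φ o.1 o.2 ≠ 0) ∧
        s o.2 = 0 ∧ κ (o.1, rp i H φ h o.1 o.2) = q)} ↪
      {o : Cl m × V // o.1 i = false ∧ dx i H φ o.1 o.2 ≠ 0}))]
    refine h1 q _ ?_
    intro o ho
    obtain ⟨o', _, rfl⟩ := mem_map.1 ho
    have h3 := (mem_filter.1 o'.2).2.2
    refine ⟨h3.2, ?_⟩
    show s o'.1.2 * _ = 0
    rw [h3.1, zero_mul]
  · intro f n b hb
    have h3 := h2 f (n, b) (univ.filter (fun o => (nd o.1.2, o.1.1) = (n, b)))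
      (fun o => ⟨fun h => (mem_filter.1 h).2, fun h => mem_filter.2 ⟨mem_univ _, h⟩⟩)
    -- both sums as sums over the vertices
    have key : ∀ F : Cl m × V → ℝ,
        ∑ o ∈ univ.filter (fun o : {o : Cl m × V // o.1 i = false ∧ dx i H φ o.1 o.2 ≠ 0} =>
          (nd o.1.2, o.1.1) = (n, b)), F (o.1.1, o.1.2) * (s o.1.2 * dx i H φ o.1.1 o.1.2) =
        ∑ v, F (b, v) * (nt nd s n v * dx i H φ b v) := by
      intro F
      rw [sum_filter (s := (univ : Finset {o : Cl m × V // o.1 i = false ∧ dx i H φ o.1 o.2 ≠ 0}))]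
      rw [← sum_subtype (univ.filter (fun o : Cl m × V => o.1 i = false ∧ dx i H φ o.1 o.2 ≠ 0))
        (fun x => by simp) (fun o : Cl m × V => if (nd o.2, o.1) = (n, b) then
          F (o.1, o.2) * (s o.2 * dx i H φ o.1 o.2) else 0)]
      rw [sum_filter, Fintype.sum_prod_type, Finset.sum_eq_single b]
      · refine sum_congr rfl fun v _ => ?_
        by_cases hd : dx i H φ b v = 0
        · simp [hd]
        · rw [if_pos (⟨hb, hd⟩ : b i = false ∧ dx i H φ b v ≠ 0)]
          unfold nt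
          by_cases h6 : nd v = n
          · rw [if_pos (by rw [h6]), if_pos h6]
          · rw [if_neg h6, if_neg (fun h => h6 (congrArg Prod.fst h))]
            ring
      · intro c _ hc
        refine sum_eq_zero fun v _ => ?_
        by_cases hd : c i = false ∧ dx i H φ c v ≠ 0
        · rw [if_pos hd, if_neg (fun h => hc (congrArg Prod.snd h))]
        · rw [if_neg hd]
      · intro h4
        exact absurd (mem_univ b) h4
    have k1 := key (fun o => sg (f (κ (o.1, rp i H φ h o.1 o.2))))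
    have k2 := key (fun _ => 1)
    simp only [one_mul] at k2
    rw [k1, k2] at h3
    refine (le_of_eq ?_).trans (h3.trans (le_of_eq ?_))
    · rw [nz_v]
      simp only [zero_add]
    · rw [wt_eq, wt_eq, ← sum_sub_distrib]
      congr 1
      refine sum_congr rfl fun v _ => ?_
      unfold dx
      ring

/-- the range of every node does not grow in one level -/
theorem mono_level (i : Fin m) (H : SimpleGraph V) (φ : V → V → Cl m) (h : PEC H φ)
    (F : Cl m × V → Fin 2) (nd : V → N) (s : V → ℝ)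
    (hF : ∀ (n : N) (b : Cl m), b i = false → |nz i H φ h F (nt nd s n) b| ≤
      |wt H φ (nt nd s n) b - wt H φ (nt nd s n) (fl i b)|) :
    Mono H φ (nw i H φ h F) nd s := by
  intro n lo hi hb
  have key : ∀ b : Cl m, b i = false →
      (lo ≤ wt H (nw i H φ h F) (nt nd s n) b ∧ wt H (nw i H φ h F) (nt nd s n) b ≤ hi) ∧
      (lo ≤ wt H (nw i H φ h F) (nt nd s n) (fl i b) ∧
        wt H (nw i H φ h F) (nt nd s n) (fl i b) ≤ hi) := by
    intro b hbi
    have h1 := hF n b hbi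
    rw [← nz_eq i H φ h F (nt nd s n) b hbi] at h1
    have h2 : wt H (nw i H φ h F) (nt nd s n) b + wt H (nw i H φ h F) (nt nd s n) (fl i b) =
        wt H φ (nt nd s n) b + wt H φ (nt nd s n) (fl i b) := by
      rw [wt_eq, wt_eq, wt_eq, wt_eq, ← sum_add_distrib, ← sum_add_distrib]
      refine sum_congr rfl fun v _ => ?_
      rw [← mul_add, ← mul_add, xm_add]
    obtain ⟨a1, a2⟩ := hb b
    obtain ⟨a3, a4⟩ := hb (fl i b)
    obtain ⟨a5, a6⟩ := abs_le.1 h1
    rcases abs_cases (wt H φ (nt nd s n) b - wt H φ (nt nd s n) (fl i b)) with ⟨a7, _⟩ | ⟨a7, _⟩ <;>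
      rw [a7] at a5 a6 <;> refine ⟨⟨?_, ?_⟩, ?_, ?_⟩ <;> linarith
  intro b
  cases hbi : b i
  · exact (key b hbi).1
  · have h1 := (key (fl i b) (by rw [fl_same, hbi]; rfl)).2
    rw [fl_fl] at h1
    exact h1

/-- **One level.** -/
theorem level2W (i : Fin m) (H : SimpleGraph V) (φ : V → V → Cl m) (h : PEC H φ)
    (nd : V → N) (s : V → ℝ) (hs : ∀ v, s v = 0 ∨ s v = 1 ∨ s v = -1)
    {I J' : Type u} [Fintype I] [Fintype J'] (k : I → V → ℝ) (g : J' → V → ℝ)
    (hks : ∀ r v, k r v ≠ 0 → s v = 0) (hgs : ∀ j v, g j v ≠ 0 → s v = 0)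
    (B : J' → Cl m → ℝ) (K0 S L : ℕ)
    (Λ : ℝ) (hK : ∀ r v, k r v ≠ 0 → (mis H φ v).card ≤ K0)
    (hK' : ∀ j v, g j v ≠ 0 → (mis H φ v).card ≤ K0)
    (hS : ∀ r, (univ.filter (fun v => k r v ≠ 0)).card ≤ S)
    (hS' : ∀ j, (univ.filter (fun v => g j v ≠ 0)).card ≤ S)
    (hL : ∀ v, (univ.filter (fun r => k r v ≠ 0)).card ≤ L)
    (hL' : ∀ v, (univ.filter (fun j => g j v ≠ 0)).card ≤ L)
    (hB0 : ∀ j a, 0 ≤ B j a) (hB : ∀ j a, vs i H φ (g j) a ≤ B j a)
    (hL1 : 1 ≤ L) (hΛ0 : 0 ≤ Λ)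
    (hΛ : 32 * ((S : ℝ) * K0 + 1) * L * (2 ^ m + 1) ≤ Real.exp Λ) :
    ∃ F : Cl m × V → Fin 2,
      (∀ r, ∑ a, |cs H (nw i H φ h F) (k r) (i + 1) a - 1 / 2 * cs H φ (k r) i a| ≤
        2 ^ m / 2 ^ ((i : ℕ) + 1) *
          Real.sqrt (4 * K2 H φ (k r) * (2 ^ (i : ℕ) * Real.log 2 + Λ))) ∧
      (∀ j a, |cs H (nw i H φ h F) (g j) (i + 1) a - 1 / 2 * cs H φ (g j) i a| ≤
        Real.sqrt (Λ * B j a)) ∧ Mono H φ (nw i H φ h F) nd s := by
  obtain ⟨κ, hκ, _, hN⟩ := chain_levelS i H φ h nd s hs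
  obtain ⟨f, h1, h2⟩ := level2K i H φ h s κ (fun _ => 0) hκ k g hks hgs B K0 S L Λ hK hK' hS hS' hL
    hL' hB0 hB hL1 hΛ0 hΛ
  exact ⟨fun p => 0 + f (κ p), h1, h2, mono_level i H φ h _ nd s fun n b hb => hN f n b hb⟩

/-- all levels -/
theorem levels2W (H : SimpleGraph V) (φ : V → V → Cl m) (h : PEC H φ)
    (nd : V → N) (s : V → ℝ) (hs : ∀ v, s v = 0 ∨ s v = 1 ∨ s v = -1)
    {I J1 J2 : Type u} [Fintype I] [Fintype J1] [Fintype J2] (k : I → V → ℝ) (g : J1 → V → ℝ)
    (q : J2 → V → ℝ) (K0 S L : ℕ) (Λ : ℝ) (hT : Tst H φ s k g q K0 S L Λ (2 ^ m))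
    (i : ℕ) (hi : i ≤ m) :
    ∃ φ' : V → V → Cl m, PEC H φ' ∧
      (∀ r, ∑ a, |cs H φ' (k r) i a - (∑ v, k r v * ((mis H φ v).card : ℝ)) / 2 ^ i| ≤
        2 ^ m / 2 ^ i * ∑ j ∈ range i, Real.sqrt (4 * K2 H φ (k r) * (2 ^ j * Real.log 2 + Λ))) ∧
      (∀ j a, Real.sqrt (cs H φ' (g j) i a) ≤
        Real.sqrt ((∑ v, g j v * ((mis H φ v).card : ℝ)) / 2 ^ i) +
          (1 + Real.sqrt 2) * Real.sqrt Λ) ∧
      (∀ j a, Real.sqrt (cc H φ' (q j) i a) ≤
        Real.sqrt ((∑ v, q j v * ((univ.filter (fun w => H.Adj v w)).card : ℝ)) / 2 ^ i) +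
          (1 + Real.sqrt 2) * Real.sqrt Λ) ∧ Mono H φ φ' nd s := by
  have hΛ0 := hT.hΛ0
  induction i with
  | zero =>
    have h1 := Real.sqrt_nonneg Λ
    have h2 := Real.sqrt_nonneg 2
    have h3 : 0 ≤ (1 + Real.sqrt 2) * Real.sqrt Λ := by positivity
    refine ⟨φ, h, fun r => ?_, fun j a => ?_, fun j a => ?_, Mono.refl H φ nd s⟩
    · rw [Finset.range_zero, Finset.sum_empty, mul_zero]
      refine le_of_eq (Finset.sum_eq_zero fun a _ => ?_)
      rw [cs_zero, pow_zero, div_one, sub_self, abs_zero]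
    · rw [cs_zero, pow_zero, div_one]
      linarith
    · rw [cc_zero H φ h, pow_zero, div_one]
      linarith
  | succ i ih =>
    obtain ⟨φ', h', h1, h2, h2', h2n⟩ := ih (by omega)
    have hm : ∀ v, (mis H φ' v).card = (mis H φ v).card := mis_card_eq H φ φ' h h'
    have hT' := hT.congr h h'
    obtain ⟨f, h3, h4, h4n⟩ := level2W (⟨i, by omega⟩ : Fin m) H φ' h' nd s hs k
      (Sum.elim g q : J1 ⊕ J2 → V → ℝ) hT.hks
      (by
        rintro (j | j) v hv
        · exact hT.hgs j v hv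
        · exact hT.hqs j v hv)
      (fun j a => Sum.elim (fun j => cs H φ' (g j) i a) (fun j => cc H φ' (q j) i a) j)
      K0 S (2 * L) Λ hT'.hK
      (by
        rintro (j | j) v hv
        · exact hT'.hK1 j v hv
        · exact hT'.hK2 j v hv)
      hT.hS
      (by
        rintro (j | j)
        · exact hT.hS1 j
        · exact hT.hS2 j)
      (fun v => (hT.hL v).trans (by omega))
      (fun v => by
        have h5 : (univ.filter (fun j : J1 ⊕ J2 => (Sum.elim g q : J1 ⊕ J2 → V → ℝ) j v ≠ 0)).card ≤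
            (univ.filter (fun j => g j v ≠ 0)).card + (univ.filter (fun j => q j v ≠ 0)).card := by
          rw [← Finset.card_disjSum]
          refine Finset.card_le_card ?_
          rintro (j | j) hj
          · rw [Finset.inl_mem_disjSum]
            exact Finset.mem_filter.2 ⟨Finset.mem_univ _, (Finset.mem_filter.1 hj).2⟩
          · rw [Finset.inr_mem_disjSum]
            exact Finset.mem_filter.2 ⟨Finset.mem_univ _, (Finset.mem_filter.1 hj).2⟩
        have h6 := hT.hL1 v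
        have h7 := hT.hL2 v
        omega)
      (by
        rintro (j | j) a
        · exact cs_nonneg H φ' (g j) (hT.hg0 j) i a
        · exact cc_nonneg H φ' (q j) (hT.hq0 j) i a)
      (by
        rintro (j | j) a
        · exact vs_cs _ H φ' (g j) a (hT.hg0 j) (hT.hg1 j)
        · exact vs_cc _ H φ' (q j) a (hT.hq0 j) (hT.hq1 j))
      (by have := hT.hL0; omega) hΛ0
      (by
        refine le_trans (le_of_eq ?_) hT.hΛ
        push_cast
        ring)
    refine ⟨nw (⟨i, by omega⟩ : Fin m) H φ' h' f, nw_pec _ H φ' h' f, fun r => ?_, fun j a => ?_,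
      fun j a => ?_, h2n.trans h4n⟩
    · set Wr := ∑ v, k r v * ((mis H φ v).card : ℝ) with hWr
      have h5 := h3 r
      rw [K2_eq H φ φ' h h' (k r)] at h5
      have h6 := h1 r
      have h7 : ∀ a, |cs H (nw (⟨i, by omega⟩ : Fin m) H φ' h' f) (k r) (i + 1) a -
          Wr / 2 ^ (i + 1)| ≤
          |cs H (nw (⟨i, by omega⟩ : Fin m) H φ' h' f) (k r) (i + 1) a -
            1 / 2 * cs H φ' (k r) i a| + 1 / 2 * |cs H φ' (k r) i a - Wr / 2 ^ i| := by
        intro a
        have h8 : cs H (nw (⟨i, by omega⟩ : Fin m) H φ' h' f) (k r) (i + 1) a -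
          Wr / 2 ^ (i + 1) = (cs H (nw (⟨i, by omega⟩ : Fin m) H φ' h' f) (k r) (i + 1) a -
            1 / 2 * cs H φ' (k r) i a) + 1 / 2 * (cs H φ' (k r) i a - Wr / 2 ^ i) := by
          rw [pow_succ]
          field_simp
          ring
        rw [h8]
        refine (abs_add_le _ _).trans (add_le_add_right (le_of_eq ?_) _)
        rw [abs_mul, abs_of_nonneg (by norm_num : (0 : ℝ) ≤ 1 / 2)]
      refine (Finset.sum_le_sum fun a _ => h7 a).trans ?_
      rw [Finset.sum_add_distrib, ← Finset.mul_sum, Finset.sum_range_succ]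
      have h9 : (2 : ℝ) ^ m / 2 ^ (i + 1) = 1 / 2 * (2 ^ m / 2 ^ i) := by
        rw [pow_succ]
        field_simp
      refine (add_le_add h5 (mul_le_mul_of_nonneg_left h6 (by norm_num : (0 : ℝ) ≤ 1 / 2))).trans
        (le_of_eq ?_)
      rw [h9]
      ring
    · set Gj := ∑ v, g j v * ((mis H φ v).card : ℝ) with hGj
      have hG0 : 0 ≤ Gj :=
        Finset.sum_nonneg fun v _ => mul_nonneg (hT.hg0 j v) (Nat.cast_nonneg _)
      have h5 := (abs_le.1 (h4 (Sum.inl j) a)).2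
      have h6 := sqrt_step (cs H φ' (g j) i a)
        (cs H (nw (⟨i, by omega⟩ : Fin m) H φ' h' f) (g j) (i + 1) a) Λ
        (Real.sqrt (Gj / 2 ^ i)) (cs_nonneg H φ' (g j) (hT.hg0 j) i a) hΛ0
        (by
          simp only [Sum.elim_inl] at h5
          linarith) (h2 j a)
      refine h6.trans (le_of_eq ?_)
      rw [← Real.sqrt_div (by positivity), pow_succ, div_div]
    · set Gj := ∑ v, q j v * ((univ.filter (fun w => H.Adj v w)).card : ℝ) with hGj
      have hG0 : 0 ≤ Gj :=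
        Finset.sum_nonneg fun v _ => mul_nonneg (hT.hq0 j v) (Nat.cast_nonneg _)
      have h5 := (abs_le.1 (h4 (Sum.inr j) a)).1
      simp only [Sum.elim_inr] at h5
      have h7 : cc H (nw (⟨i, by omega⟩ : Fin m) H φ' h' f) (q j) (i + 1) a ≤
          1 / 2 * cc H φ' (q j) i a + Real.sqrt (Λ * cc H φ' (q j) i a) := by
        have h8 := cc_eq H φ' (q j) i (by omega) a
        have h9 := cc_eq H (nw (⟨i, by omega⟩ : Fin m) H φ' h' f) (q j) (i + 1) hi a
        have h10 : (2 : ℝ) ^ m / 2 ^ (i + 1) = 1 / 2 * (2 ^ m / 2 ^ i) := by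
          rw [pow_succ]
          field_simp
        rw [h10] at h9
        linarith
      have h6 := sqrt_step (cc H φ' (q j) i a)
        (cc H (nw (⟨i, by omega⟩ : Fin m) H φ' h' f) (q j) (i + 1) a) Λ
        (Real.sqrt (Gj / 2 ^ i)) (cc_nonneg H φ' (q j) (hT.hq0 j) i a) hΛ0 h7 (h2' j a)
      refine h6.trans (le_of_eq ?_)
      rw [← Real.sqrt_div (by positivity), pow_succ, div_div]

/-- **Token smoothing with nodes**, `2 ^ m` colours: the range of the nodes does not grow. -/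
theorem smooth2W (H : SimpleGraph V) (φ : V → V → Cl m) (h : PEC H φ)
    (nd : V → N) (s : V → ℝ) (hs : ∀ v, s v = 0 ∨ s v = 1 ∨ s v = -1)
    {I J1 J2 : Type u} [Fintype I] [Fintype J1] [Fintype J2] (k : I → V → ℝ) (g : J1 → V → ℝ)
    (q : J2 → V → ℝ) (K0 S L : ℕ) (Λ : ℝ) (hT : Tst H φ s k g q K0 S L Λ (2 ^ m)) :
    ∃ φ' : V → V → Cl m, PEC H φ' ∧
      (∀ r, ∑ b, |wt H φ' (k r) b - (∑ v, k r v * ((mis H φ v).card : ℝ)) / 2 ^ m| ≤
        Real.sqrt (∑ v, k r v ^ 2 * ((mis H φ v).card : ℝ)) *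
          (5 * Real.sqrt (2 ^ m) + 2 * m * Real.sqrt Λ)) ∧
      (∀ j b, wt H φ' (g j) b ≤
        2 * ((∑ v, g j v * ((mis H φ v).card : ℝ)) / 2 ^ m) + 12 * Λ) ∧
      (∀ j b, wc H φ' (q j) b ≤ 2 * ((∑ v, q j v *
        ((univ.filter (fun w => H.Adj v w)).card : ℝ)) / 2 ^ m) + 12 * Λ) ∧
      Mono H φ φ' nd s := by
  obtain ⟨φ', h', h1, h2, h2', h3⟩ := levels2W H φ h nd s hs k g q K0 S L Λ hT m le_rfl
  refine ⟨φ', h', fun r => ?_, fun j b => ?_, fun j b => ?_, h3⟩
  · have h3 := h1 r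
    simp only [cs_full] at h3
    refine h3.trans ?_
    rw [div_self (by positivity), one_mul]
    exact noise_sum (K2 H φ (k r)) Λ (K2_nonneg H φ (k r)) hT.hΛ0 m
  · have h4 := h2 j b
    rw [cs_full] at h4
    exact sq_bound _ _ Λ (wt_nonneg H φ' (g j) (hT.hg0 j) b) (div_nonneg (Finset.sum_nonneg
      fun v _ => mul_nonneg (hT.hg0 j v) (Nat.cast_nonneg _)) (by positivity)) hT.hΛ0 h4
  · have h4 := h2' j b
    rw [cc_full] at h4
    exact sq_bound _ _ Λ (wc_nonneg H φ' (q j) (hT.hq0 j) b) (div_nonneg (Finset.sum_nonneg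
      fun v _ => mul_nonneg (hT.hq0 j v) (Nat.cast_nonneg _)) (by positivity)) hT.hΛ0 h4

end level

end Pool.Agent.Work.MP_db9399_ch
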