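import Pool.Agent.Work.MP_db9399_tkn_helper59.EQ3

/-!
# MP_db9399, all scales: chained Kempe coins, abstract functionals (helper26)
-/

set_option autoImplicit false

namespace Pool.Agent.Work.MP_db9399_ch

open Finset Classical
open Pool.Agent.Work.MP_db9399_tk
open Pool.Agent.Work.MP_db9399_tkn (MonoX)

universe u v w

theorem MonoX.refl {V : Type u} [Fintype V] {C : Type v} [Fintype C] {X : Type w}
    (H : SimpleGraph V) (φ : V → V → C) (k : X → V → ℝ) : MonoX H φ φ k :=
  fun _ _ _ h => h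

theorem MonoX.trans {V : Type u} [Fintype V] {C : Type v} [Fintype C] {X : Type w}
    {H : SimpleGraph V} {φ φ' φ'' : V → V → C} {k : X → V → ℝ} (h : MonoX H φ φ' k)
    (h' : MonoX H φ' φ'' k) : MonoX H φ φ'' k :=
  fun n lo hi hb => h' n lo hi (h n lo hi hb)

/-- chains exist on every level of every hypercube -/
def ChHyp {V : Type u} [Fintype V] {X : Type w} (s : V → ℝ) (k : X → V → ℝ) : Prop :=
  ∀ (m : ℕ) (i : Fin m) (H : SimpleGraph V) (φ : V → V → Cl m) (h : PEC H φ),
    ∃ κ : Cl m × V → Cl m × V, ChainP i H φ h s κ ∧ (∀ p, (κ p).1 = p.1) ∧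
      ∀ (f : Cl m × V → Fin 2) (x : X) (b : Cl m), b i = false →
        |nz i H φ h (fun p => 0 + f (κ p)) (k x) b| ≤ |wt H φ (k x) b - wt H φ (k x) (fl i b)|

section level
variable {V : Type u} [Fintype V] {m : ℕ} {X : Type w}

/-- the range of the functionals does not grow in one level -/
theorem monoX_level (i : Fin m) (H : SimpleGraph V) (φ : V → V → Cl m) (h : PEC H φ)
    (F : Cl m × V → Fin 2) (k : X → V → ℝ)
    (hF : ∀ (x : X) (b : Cl m), b i = false → |nz i H φ h F (k x) b| ≤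
      |wt H φ (k x) b - wt H φ (k x) (fl i b)|) :
    MonoX H φ (nw i H φ h F) k := by
  intro n lo hi hb
  have key : ∀ b : Cl m, b i = false →
      (lo ≤ wt H (nw i H φ h F) (k n) b ∧ wt H (nw i H φ h F) (k n) b ≤ hi) ∧
      (lo ≤ wt H (nw i H φ h F) (k n) (fl i b) ∧
        wt H (nw i H φ h F) (k n) (fl i b) ≤ hi) := by
    intro b hbi
    have h1 := hF n b hbi
    rw [← nz_eq i H φ h F (k n) b hbi] at h1
    have h2 : wt H (nw i H φ h F) (k n) b + wt H (nw i H φ h F) (k n) (fl i b) =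
        wt H φ (k n) b + wt H φ (k n) (fl i b) := by
      rw [wt_eq, wt_eq, wt_eq, wt_eq, ← sum_add_distrib, ← sum_add_distrib]
      refine sum_congr rfl fun v _ => ?_
      rw [← mul_add, ← mul_add, xm_add]
    obtain ⟨a1, a2⟩ := hb b
    obtain ⟨a3, a4⟩ := hb (fl i b)
    obtain ⟨a5, a6⟩ := abs_le.1 h1
    rcases abs_cases (wt H φ (k n) b - wt H φ (k n) (fl i b)) with ⟨a7, _⟩ | ⟨a7, _⟩ <;>
      rw [a7] at a5 a6 <;> refine ⟨⟨?_, ?_⟩, ?_, ?_⟩ <;> linarith
  intro b
  cases hbi : b i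
  · exact (key b hbi).1
  · have h1 := (key (fl i b) (by rw [fl_same, hbi]; rfl)).2
    rw [fl_fl] at h1
    exact h1

end level

end Pool.Agent.Work.MP_db9399_ch
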