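import Pool.Agent.Work.MP_db9399_ch_helper26.StepV
import Pool.Agent.Work.MP_db9399_ch_helper26.MonoX

/-!
# MP_db9399, all scales: chained Kempe coins, all levels with squares (helper26)
-/

set_option autoImplicit false

namespace Pool.Agent.Work.MP_db9399_ch

open Finset Classical
open Pool.Agent.Work.MP_db9399_all (pr DepOnI PackI)
open Pool.Agent.Work.MP_db9399_tk
open Pool.Agent.Work.MP_db9399_tkn (MonoX)

universe u v w

/-- the test functions, with sup norms `km` of the tests `k` -/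
structure TstV {V : Type u} [Fintype V] {C : Type v} [Fintype C] (H : SimpleGraph V)
    (φ : V → V → C) (s : V → ℝ) {I J1 J2 : Type u} [Fintype I] [Fintype J1] [Fintype J2]
    (k : I → V → ℝ) (km : I → ℝ) (g : J1 → V → ℝ) (q : J2 → V → ℝ) (K0 S L : ℕ) (Λ M : ℝ) :
    Prop where
  hks : ∀ r v, k r v ≠ 0 → s v = 0
  hgs : ∀ j v, g j v ≠ 0 → s v = 0
  hqs : ∀ j v, q j v ≠ 0 → s v = 0
  hK : ∀ r v, k r v ≠ 0 → (mis H φ v).card ≤ K0
  hK1 : ∀ j v, g j v ≠ 0 → (mis H φ v).card ≤ K0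
  hK2 : ∀ j v, q j v ≠ 0 → (mis H φ v).card ≤ K0
  hS : ∀ r, (univ.filter (fun v => k r v ≠ 0)).card ≤ S
  hS1 : ∀ j, (univ.filter (fun v => g j v ≠ 0)).card ≤ S
  hS2 : ∀ j, (univ.filter (fun v => q j v ≠ 0)).card ≤ S
  hL : ∀ v, (univ.filter (fun r => k r v ≠ 0)).card ≤ L
  hL1 : ∀ v, (univ.filter (fun j => g j v ≠ 0)).card ≤ L
  hL2 : ∀ v, (univ.filter (fun j => q j v ≠ 0)).card ≤ L
  hkm : ∀ r v, |k r v| ≤ km r
  hg0 : ∀ j v, 0 ≤ g j v
  hg1 : ∀ j v, g j v ≤ 1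
  hq0 : ∀ j v, 0 ≤ q j v
  hq1 : ∀ j v, q j v ≤ 1
  hL0 : 1 ≤ L
  hΛ0 : 0 ≤ Λ
  hΛ : 96 * ((S : ℝ) * K0 + 1) * L * (M + 2) ≤ Real.exp Λ

theorem TstV.congr {V : Type u} [Fintype V] {C : Type v} [Fintype C] {H : SimpleGraph V}
    {φ φ' : V → V → C} {s : V → ℝ} {I J1 J2 : Type u}
    [Fintype I] [Fintype J1] [Fintype J2] {k : I → V → ℝ} {km : I → ℝ} {g : J1 → V → ℝ}
    {q : J2 → V → ℝ} {K0 S L : ℕ} {Λ M : ℝ} (hT : TstV H φ s k km g q K0 S L Λ M)
    (h : PEC H φ) (h' : PEC H φ') : TstV H φ' s k km g q K0 S L Λ M := by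
  have hm := mis_card_eq H φ φ' h h'
  exact { hT with
    hK := fun r v hv => by rw [hm v]; exact hT.hK r v hv
    hK1 := fun r v hv => by rw [hm v]; exact hT.hK1 r v hv
    hK2 := fun r v hv => by rw [hm v]; exact hT.hK2 r v hv }

section levels
variable {V : Type u} [Fintype V] {m : ℕ} {N : Type w}

theorem vs_le (i : Fin m) (H : SimpleGraph V) (φ : V → V → Cl m) (k w : V → ℝ) (c : ℝ)
    (hw : ∀ v, 0 ≤ w v) (hkw : ∀ v, k v ^ 2 = c * w v) (hc : 0 ≤ c) (a : Cl m) :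
    vs i H φ k a ≤ c * cs H φ w i a := by
  unfold vs cs
  rw [← sum_half i (fun b => ag i a b) (fun b => ag_fl_iff' i a b), mul_sum]
  refine Finset.sum_le_sum fun b _ => ?_
  rw [wt_eq, wt_eq, ← Finset.sum_add_distrib, mul_sum]
  refine Finset.sum_le_sum fun v _ => ?_
  rw [← mul_add, hkw]
  have h1 := mul_le_mul_of_nonneg_left (dx_sq i H φ b v) (mul_nonneg hc (hw v))
  linarith

/-- the weights `k² / km²` -/
noncomputable def gq (k : V → ℝ) (km : ℝ) (v : V) : ℝ := k v ^ 2 / km ^ 2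

omit [Fintype V] in
theorem gq_le (k : V → ℝ) (km : ℝ) (hk : ∀ v, |k v| ≤ km) (v : V) :
    0 ≤ gq k km v ∧ gq k km v ≤ 1 ∧ k v ^ 2 = km ^ 2 * gq k km v := by
  unfold gq
  have h0 : 0 ≤ km := (abs_nonneg _).trans (hk v)
  have h1 : k v ^ 2 ≤ km ^ 2 := by
    rw [← sq_abs]
    exact pow_le_pow_left₀ (abs_nonneg _) (hk v) 2
  refine ⟨by positivity, div_le_one_of_le₀ h1 (sq_nonneg _), ?_⟩
  rcases eq_or_ne km 0 with h2 | h2
  · rw [h2] at h1
    have h3 : k v ^ 2 = 0 := le_antisymm (by simpa using h1) (sq_nonneg _)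
    rw [h3, h2]
    ring
  · field_simp

omit [Fintype V] in
theorem gq_ne (k : V → ℝ) (km : ℝ) (v : V) (h : gq k km v ≠ 0) : k v ≠ 0 := by
  intro h1
  apply h
  unfold gq
  rw [h1]
  simp

/-- **One level**, chains and squares. -/
theorem level2X (i : Fin m) (H : SimpleGraph V) (φ : V → V → Cl m) (h : PEC H φ)
    (s : V → ℝ) (Kf : N → V → ℝ) (hs : ChHyp s Kf)
    {I J' : Type u} [Fintype I] [Fintype J'] (k : I → V → ℝ) (g : J' → V → ℝ)
    (hks : ∀ r v, k r v ≠ 0 → s v = 0) (hgs : ∀ j v, g j v ≠ 0 → s v = 0)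
    (B : J' → Cl m → ℝ) (Bk : I → ℝ) (K0 S L : ℕ)
    (Λ : ℝ) (hK : ∀ r v, k r v ≠ 0 → (mis H φ v).card ≤ K0)
    (hK' : ∀ j v, g j v ≠ 0 → (mis H φ v).card ≤ K0)
    (hS : ∀ r, (univ.filter (fun v => k r v ≠ 0)).card ≤ S)
    (hS' : ∀ j, (univ.filter (fun v => g j v ≠ 0)).card ≤ S)
    (hL : ∀ v, (univ.filter (fun r => k r v ≠ 0)).card ≤ L)
    (hL' : ∀ v, (univ.filter (fun j => g j v ≠ 0)).card ≤ L)
    (hB0 : ∀ j a, 0 ≤ B j a) (hB : ∀ j a, vs i H φ (g j) a ≤ B j a)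
    (hBk : ∀ r a, vs i H φ (k r) a ≤ Bk r)
    (hL1 : 1 ≤ L) (hΛ0 : 0 ≤ Λ)
    (hΛ : 32 * ((S : ℝ) * K0 + 1) * L * (2 ^ m + 2) ≤ Real.exp Λ) :
    ∃ F : Cl m × V → Fin 2,
      (∀ r, ∑ a, |cs H (nw i H φ h F) (k r) (i + 1) a - 1 / 2 * cs H φ (k r) i a| ≤
        2 ^ m / 2 ^ ((i : ℕ) + 1) *
          Real.sqrt (4 * K2 H φ (k r) * (2 ^ (i : ℕ) * Real.log 2 + Λ))) ∧
      (∀ r W, ∑ a, (cs H (nw i H φ h F) (k r) (i + 1) a - W / 2) ^ 2 ≤
        1 / 4 * ∑ a, (cs H φ (k r) i a - W) ^ 2 +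
          1 / 4 * (2 ^ m / 2 ^ (i : ℕ) * (4 * K2 H φ (k r) + 8 * Λ * Bk r))) ∧
      (∀ j a, |cs H (nw i H φ h F) (g j) (i + 1) a - 1 / 2 * cs H φ (g j) i a| ≤
        Real.sqrt (Λ * B j a)) ∧ MonoX H φ (nw i H φ h F) Kf := by
  obtain ⟨κ, hκ, hκ1, hN⟩ := hs m i H φ h
  obtain ⟨f, h1, h2, h3⟩ := level2V i H φ h s κ (fun _ => 0) hκ hκ1 k g hks hgs B Bk K0 S L Λ hK
    hK' hS hS' hL hL' hB0 hB hBk hL1 hΛ0 hΛ
  refine ⟨fun p => 0 + f (κ p), h1, fun r W => ?_, h3,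
    monoX_level i H φ h _ Kf fun n b hb => hN f n b hb⟩
  rw [cs_sq]
  have h4 := mul_le_mul_of_nonneg_left (h2 r) (by norm_num : (0 : ℝ) ≤ 1 / 4)
  linarith

/-- the bound of the squares at the level `j` -/
noncomputable def bj (H : SimpleGraph V) (φ : V → V → Cl m) (k : V → ℝ) (km Λ : ℝ) (j : ℕ) : ℝ :=
  4 * K2 H φ k + 8 * Λ * (km ^ 2 * (2 * ((∑ v, gq k km v * ((mis H φ v).card : ℝ)) / 2 ^ j) + 12 * Λ))

/-- all levels -/
theorem levelsV (H : SimpleGraph V) (φ : V → V → Cl m) (h : PEC H φ)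
    (s : V → ℝ) (Kf : N → V → ℝ) (hs : ChHyp s Kf)
    {I J1 J2 : Type u} [Fintype I] [Fintype J1] [Fintype J2] (k : I → V → ℝ) (km : I → ℝ)
    (g : J1 → V → ℝ) (q : J2 → V → ℝ) (K0 S L : ℕ) (Λ : ℝ)
    (hT : TstV H φ s k km g q K0 S L Λ (2 ^ m)) (i : ℕ) (hi : i ≤ m) :
    ∃ φ' : V → V → Cl m, PEC H φ' ∧
      (∀ r, ∑ a, |cs H φ' (k r) i a - (∑ v, k r v * ((mis H φ v).card : ℝ)) / 2 ^ i| ≤
        2 ^ m / 2 ^ i * ∑ j ∈ range i, Real.sqrt (4 * K2 H φ (k r) * (2 ^ j * Real.log 2 + Λ))) ∧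
      (∀ r, ∑ a, (cs H φ' (k r) i a - (∑ v, k r v * ((mis H φ v).card : ℝ)) / 2 ^ i) ^ 2 ≤
        2 ^ m / 4 ^ i * ∑ j ∈ range i, 2 ^ j * bj H φ (k r) (km r) Λ j) ∧
      (∀ r a, Real.sqrt (cs H φ' (gq (k r) (km r)) i a) ≤
        Real.sqrt ((∑ v, gq (k r) (km r) v * ((mis H φ v).card : ℝ)) / 2 ^ i) +
          (1 + Real.sqrt 2) * Real.sqrt Λ) ∧
      (∀ j a, Real.sqrt (cs H φ' (g j) i a) ≤
        Real.sqrt ((∑ v, g j v * ((mis H φ v).card : ℝ)) / 2 ^ i) +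
          (1 + Real.sqrt 2) * Real.sqrt Λ) ∧
      (∀ j a, Real.sqrt (cc H φ' (q j) i a) ≤
        Real.sqrt ((∑ v, q j v * ((univ.filter (fun w => H.Adj v w)).card : ℝ)) / 2 ^ i) +
          (1 + Real.sqrt 2) * Real.sqrt Λ) ∧ MonoX H φ φ' Kf := by
  have hΛ0 := hT.hΛ0
  have hgq := fun r => gq_le (k r) (km r) (hT.hkm r)
  induction i with
  | zero =>
    have h1 := Real.sqrt_nonneg Λ
    have h2 := Real.sqrt_nonneg 2
    have h3 : 0 ≤ (1 + Real.sqrt 2) * Real.sqrt Λ := by positivity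
    refine ⟨φ, h, fun r => ?_, fun r => ?_, fun r a => ?_, fun j a => ?_, fun j a => ?_,
      MonoX.refl H φ Kf⟩
    · rw [Finset.range_zero, Finset.sum_empty, mul_zero]
      refine le_of_eq (Finset.sum_eq_zero fun a _ => ?_)
      rw [cs_zero, pow_zero, div_one, sub_self, abs_zero]
    · rw [Finset.range_zero, Finset.sum_empty, mul_zero]
      refine le_of_eq (Finset.sum_eq_zero fun a _ => ?_)
      rw [cs_zero, pow_zero, div_one, sub_self, zero_pow two_ne_zero]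
    · rw [cs_zero, pow_zero, div_one]
      linarith
    · rw [cs_zero, pow_zero, div_one]
      linarith
    · rw [cc_zero H φ h, pow_zero, div_one]
      linarith
  | succ i ih =>
    obtain ⟨φ', h', h1, hsq, hg', h2, h2', h2n⟩ := ih (by omega)
    have hm : ∀ v, (mis H φ' v).card = (mis H φ v).card := mis_card_eq H φ φ' h h'
    have hT' := hT.congr h h'
    obtain ⟨f, h3, h3s, h4, h4n⟩ := level2X (⟨i, by omega⟩ : Fin m) H φ' h' s Kf hs k
      (Sum.elim (fun r => gq (k r) (km r)) (Sum.elim g q) : I ⊕ (J1 ⊕ J2) → V → ℝ) hT.hks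
      (by
        rintro (r | j | j) v hv
        · exact hT.hks r v (gq_ne _ _ _ hv)
        · exact hT.hgs j v hv
        · exact hT.hqs j v hv)
      (fun j a => Sum.elim (fun r => cs H φ' (gq (k r) (km r)) i a)
        (Sum.elim (fun j => cs H φ' (g j) i a) (fun j => cc H φ' (q j) i a)) j)
      (fun r => km r ^ 2 * (2 * ((∑ v, gq (k r) (km r) v * ((mis H φ v).card : ℝ)) / 2 ^ i) +
        12 * Λ))
      K0 S (3 * L) Λ hT'.hK
      (by
        rintro (r | j | j) v hv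
        · exact hT'.hK r v (gq_ne _ _ _ hv)
        · exact hT'.hK1 j v hv
        · exact hT'.hK2 j v hv)
      hT.hS
      (by
        rintro (r | j | j)
        · refine (card_le_card fun v hv => ?_).trans (hT.hS r)
          exact mem_filter.2 ⟨mem_univ _, gq_ne _ _ _ (mem_filter.1 hv).2⟩
        · exact hT.hS1 j
        · exact hT.hS2 j)
      (fun v => (hT.hL v).trans (by omega))
      (fun v => by
        have h5 : (univ.filter (fun j : I ⊕ (J1 ⊕ J2) =>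
            (Sum.elim (fun r => gq (k r) (km r)) (Sum.elim g q) :
              I ⊕ (J1 ⊕ J2) → V → ℝ) j v ≠ 0)).card ≤
            (univ.filter (fun r => k r v ≠ 0)).card + ((univ.filter (fun j => g j v ≠ 0)).card +
              (univ.filter (fun j => q j v ≠ 0)).card) := by
          rw [← Finset.card_disjSum, ← Finset.card_disjSum]
          refine Finset.card_le_card ?_
          rintro (r | j | j) hj
          · rw [Finset.inl_mem_disjSum]
            exact mem_filter.2 ⟨mem_univ _, gq_ne _ _ _ (mem_filter.1 hj).2⟩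
          · rw [Finset.inr_mem_disjSum, Finset.inl_mem_disjSum]
            exact mem_filter.2 ⟨mem_univ _, (mem_filter.1 hj).2⟩
          · rw [Finset.inr_mem_disjSum, Finset.inr_mem_disjSum]
            exact mem_filter.2 ⟨mem_univ _, (mem_filter.1 hj).2⟩
        have h6 := hT.hL1 v
        have h7 := hT.hL2 v
        have h8 := hT.hL v
        omega)
      (by
        rintro (r | j | j) a
        · exact cs_nonneg H φ' _ (fun v => (hgq r v).1) i a
        · exact cs_nonneg H φ' (g j) (hT.hg0 j) i a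
        · exact cc_nonneg H φ' (q j) (hT.hq0 j) i a)
      (by
        rintro (r | j | j) a
        · exact vs_cs _ H φ' _ a (fun v => (hgq r v).1) (fun v => (hgq r v).2.1)
        · exact vs_cs _ H φ' (g j) a (hT.hg0 j) (hT.hg1 j)
        · exact vs_cc _ H φ' (q j) a (hT.hq0 j) (hT.hq1 j))
      (by
        intro r a
        refine (vs_le _ H φ' (k r) (gq (k r) (km r)) (km r ^ 2) (fun v => (hgq r v).1)
          (fun v => (hgq r v).2.2) (sq_nonneg _) a).trans ?_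
        refine mul_le_mul_of_nonneg_left ?_ (sq_nonneg _)
        refine sq_bound _ _ Λ (cs_nonneg H φ' _ (fun v => (hgq r v).1) i a)
          (div_nonneg (sum_nonneg fun v _ => mul_nonneg (hgq r v).1 (Nat.cast_nonneg _))
            (by positivity)) hΛ0 (hg' r a))
      (by have := hT.hL0; omega) hΛ0
      (by
        refine le_trans (le_of_eq ?_) hT.hΛ
        push_cast
        ring)
    have hrec : ∀ (G : ℝ) (w : V → ℝ), (∀ v, 0 ≤ w v) →
        (∀ a, |cs H (nw (⟨i, by omega⟩ : Fin m) H φ' h' f) w (i + 1) a - 1 / 2 * cs H φ' w i a| ≤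
          Real.sqrt (Λ * cs H φ' w i a)) →
        (∀ a, Real.sqrt (cs H φ' w i a) ≤
          Real.sqrt (G / 2 ^ i) + (1 + Real.sqrt 2) * Real.sqrt Λ) → 0 ≤ G →
        ∀ a, Real.sqrt (cs H (nw (⟨i, by omega⟩ : Fin m) H φ' h' f) w (i + 1) a) ≤
          Real.sqrt (G / 2 ^ (i + 1)) + (1 + Real.sqrt 2) * Real.sqrt Λ := by
      intro G w hw hx hy hG a
      have h5 := (abs_le.1 (hx a)).2
      have h6 := sqrt_step (cs H φ' w i a)
        (cs H (nw (⟨i, by omega⟩ : Fin m) H φ' h' f) w (i + 1) a) Λ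
        (Real.sqrt (G / 2 ^ i)) (cs_nonneg H φ' w hw i a) hΛ0 (by linarith) (hy a)
      refine h6.trans (le_of_eq ?_)
      rw [← Real.sqrt_div (by positivity), pow_succ, div_div]
    refine ⟨nw (⟨i, by omega⟩ : Fin m) H φ' h' f, nw_pec _ H φ' h' f, fun r => ?_, fun r => ?_,
      fun r => ?_, fun j => ?_, fun j a => ?_, MonoX.trans h2n h4n⟩
    · set Wr := ∑ v, k r v * ((mis H φ v).card : ℝ) with hWr
      have h5 := h3 r
      rw [K2_eq H φ φ' h h' (k r)] at h5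
      have h6 := h1 r
      have h7 : ∀ a, |cs H (nw (⟨i, by omega⟩ : Fin m) H φ' h' f) (k r) (i + 1) a -
          Wr / 2 ^ (i + 1)| ≤
          |cs H (nw (⟨i, by omega⟩ : Fin m) H φ' h' f) (k r) (i + 1) a -
            1 / 2 * cs H φ' (k r) i a| + 1 / 2 * |cs H φ' (k r) i a - Wr / 2 ^ i| := by
        intro a
        have h8 : cs H (nw (⟨i, by omega⟩ : Fin m) H φ' h' f) (k r) (i + 1) a -
          Wr / 2 ^ (i + 1) = (cs H (nw (⟨i, by omega⟩ : Fin m) H φ' h' f) (k r) (i + 1) a -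
            1 / 2 * cs H φ' (k r) i a) + 1 / 2 * (cs H φ' (k r) i a - Wr / 2 ^ i) := by
          rw [pow_succ]
          field_simp
          ring
        rw [h8]
        refine (abs_add_le _ _).trans (add_le_add_right (le_of_eq ?_) _)
        rw [abs_mul, abs_of_nonneg (by norm_num : (0 : ℝ) ≤ 1 / 2)]
      refine (Finset.sum_le_sum fun a _ => h7 a).trans ?_
      rw [Finset.sum_add_distrib, ← Finset.mul_sum, Finset.sum_range_succ]
      have h9 : (2 : ℝ) ^ m / 2 ^ (i + 1) = 1 / 2 * (2 ^ m / 2 ^ i) := by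
        rw [pow_succ]
        field_simp
      refine (add_le_add h5 (mul_le_mul_of_nonneg_left h6 (by norm_num : (0 : ℝ) ≤ 1 / 2))).trans
        (le_of_eq ?_)
      rw [h9]
      ring
    · set Wr := ∑ v, k r v * ((mis H φ v).card : ℝ) with hWr
      have h5 := h3s r (Wr / 2 ^ i)
      rw [K2_eq H φ φ' h h' (k r)] at h5
      have h6 : Wr / 2 ^ i / 2 = Wr / 2 ^ (i + 1) := by
        rw [pow_succ, div_div]
      rw [h6] at h5
      refine h5.trans ?_
      have h7 := mul_le_mul_of_nonneg_left (hsq r) (by norm_num : (0 : ℝ) ≤ 1 / 4)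
      rw [Finset.sum_range_succ]
      have h8 : 2 ^ m / 4 ^ (i + 1) * (∑ j ∈ range i, 2 ^ j * bj H φ (k r) (km r) Λ j +
          2 ^ i * bj H φ (k r) (km r) Λ i) =
          1 / 4 * (2 ^ m / 4 ^ i * ∑ j ∈ range i, 2 ^ j * bj H φ (k r) (km r) Λ j) +
          1 / 4 * (2 ^ m / 2 ^ i * bj H φ (k r) (km r) Λ i) := by
        have h9 : (4 : ℝ) ^ i = 2 ^ i * 2 ^ i := by
          rw [← mul_pow]
          norm_num
        rw [pow_succ, h9]
        field_simp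
      rw [h8]
      refine add_le_add h7 (le_of_eq ?_)
      rfl
    · exact hrec _ _ (fun v => (hgq r v).1) (fun a => h4 (Sum.inl r) a) (hg' r)
        (sum_nonneg fun v _ => mul_nonneg (hgq r v).1 (Nat.cast_nonneg _))
    · exact hrec _ _ (hT.hg0 j) (fun a => h4 (Sum.inr (Sum.inl j)) a) (h2 j)
        (sum_nonneg fun v _ => mul_nonneg (hT.hg0 j v) (Nat.cast_nonneg _))
    · set Gj := ∑ v, q j v * ((univ.filter (fun w => H.Adj v w)).card : ℝ) with hGj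
      have hG0 : 0 ≤ Gj :=
        Finset.sum_nonneg fun v _ => mul_nonneg (hT.hq0 j v) (Nat.cast_nonneg _)
      have h5 := (abs_le.1 (h4 (Sum.inr (Sum.inr j)) a)).1
      simp only [Sum.elim_inr] at h5
      have h7 : cc H (nw (⟨i, by omega⟩ : Fin m) H φ' h' f) (q j) (i + 1) a ≤
          1 / 2 * cc H φ' (q j) i a + Real.sqrt (Λ * cc H φ' (q j) i a) := by
        have h8 := cc_eq H φ' (q j) i (by omega) a
        have h9 := cc_eq H (nw (⟨i, by omega⟩ : Fin m) H φ' h' f) (q j) (i + 1) hi a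
        have h10 : (2 : ℝ) ^ m / 2 ^ (i + 1) = 1 / 2 * (2 ^ m / 2 ^ i) := by
          rw [pow_succ]
          field_simp
        rw [h10] at h9
        linarith
      have h6 := sqrt_step (cc H φ' (q j) i a)
        (cc H (nw (⟨i, by omega⟩ : Fin m) H φ' h' f) (q j) (i + 1) a) Λ
        (Real.sqrt (Gj / 2 ^ i)) (cc_nonneg H φ' (q j) (hT.hq0 j) i a) hΛ0 h7 (h2' j a)
      refine h6.trans (le_of_eq ?_)
      rw [← Real.sqrt_div (by positivity), pow_succ, div_div]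

/-- bound of the squares, `2 ^ m` colours -/
noncomputable def sqb (K Λ km : ℝ) (m : ℕ) : ℝ :=
  4 * K + 96 * Λ ^ 2 * km ^ 2 + 16 * Λ * m * K / 2 ^ m

theorem sq_sum (H : SimpleGraph V) (φ : V → V → Cl m) (k : V → ℝ) (km Λ : ℝ)
    (hk : ∀ v, |k v| ≤ km) (hΛ : 0 ≤ Λ) :
    2 ^ m / 4 ^ m * ∑ j ∈ range m, 2 ^ j * bj H φ k km Λ j ≤ sqb (K2 H φ k) Λ km m := by
  have hK := K2_nonneg H φ k
  have hG : km ^ 2 * (∑ v, gq k km v * ((mis H φ v).card : ℝ)) = K2 H φ k := by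
    unfold K2
    rw [mul_sum]
    refine sum_congr rfl fun v _ => ?_
    rw [(gq_le k km hk v).2.2]
    ring
  have h1 : ∀ j : ℕ, 2 ^ j * bj H φ k km Λ j =
      2 ^ j * (4 * K2 H φ k + 96 * Λ ^ 2 * km ^ 2) + 16 * Λ * K2 H φ k := by
    intro j
    unfold bj
    have h2 : (2 : ℝ) ^ j ≠ 0 := by positivity
    rw [← hG]
    field_simp
    ring
  rw [sum_congr rfl fun j _ => h1 j, sum_add_distrib, ← sum_mul, sum_const, card_range,
    nsmul_eq_mul]
  have h3 : ∑ j ∈ range m, (2 : ℝ) ^ j ≤ 2 ^ m := by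
    have h4 := geom_sum_eq (by norm_num : (2 : ℝ) ≠ 1) m
    rw [h4]
    norm_num
  have h5 : (2 : ℝ) ^ m / 4 ^ m = 1 / 2 ^ m := by
    have h9 : (4 : ℝ) ^ m = 2 ^ m * 2 ^ m := by
      rw [← mul_pow]
      norm_num
    rw [h9]
    field_simp
  rw [h5]
  have h6 : (∑ j ∈ range m, (2 : ℝ) ^ j) * (4 * K2 H φ k + 96 * Λ ^ 2 * km ^ 2) ≤
      2 ^ m * (4 * K2 H φ k + 96 * Λ ^ 2 * km ^ 2) :=
    mul_le_mul_of_nonneg_right h3 (by positivity)
  have h7 : (0 : ℝ) < 2 ^ m := by positivity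
  unfold sqb
  rw [one_div, inv_mul_le_iff₀ h7]
  have h8 : 2 ^ m * (4 * K2 H φ k + 96 * Λ ^ 2 * km ^ 2 + 16 * Λ * m * K2 H φ k / 2 ^ m) =
      2 ^ m * (4 * K2 H φ k + 96 * Λ ^ 2 * km ^ 2) + m * (16 * Λ * K2 H φ k) := by
    field_simp
  rw [h8]
  linarith

/-- **Token smoothing**, `2 ^ m` colours: the range of the nodes does not grow, sums and squares of
the deviations. -/
theorem smoothV (H : SimpleGraph V) (φ : V → V → Cl m) (h : PEC H φ)
    (s : V → ℝ) (Kf : N → V → ℝ) (hs : ChHyp s Kf)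
    {I J1 J2 : Type u} [Fintype I] [Fintype J1] [Fintype J2] (k : I → V → ℝ) (km : I → ℝ)
    (g : J1 → V → ℝ) (q : J2 → V → ℝ) (K0 S L : ℕ) (Λ : ℝ)
    (hT : TstV H φ s k km g q K0 S L Λ (2 ^ m)) :
    ∃ φ' : V → V → Cl m, PEC H φ' ∧
      (∀ r, ∑ b, |wt H φ' (k r) b - (∑ v, k r v * ((mis H φ v).card : ℝ)) / 2 ^ m| ≤
        Real.sqrt (∑ v, k r v ^ 2 * ((mis H φ v).card : ℝ)) *
          (5 * Real.sqrt (2 ^ m) + 2 * m * Real.sqrt Λ)) ∧
      (∀ r, ∑ b, (wt H φ' (k r) b - (∑ v, k r v * ((mis H φ v).card : ℝ)) / 2 ^ m) ^ 2 ≤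
        sqb (∑ v, k r v ^ 2 * ((mis H φ v).card : ℝ)) Λ (km r) m) ∧
      (∀ j b, wt H φ' (g j) b ≤
        2 * ((∑ v, g j v * ((mis H φ v).card : ℝ)) / 2 ^ m) + 12 * Λ) ∧
      (∀ j b, wc H φ' (q j) b ≤ 2 * ((∑ v, q j v *
        ((univ.filter (fun w => H.Adj v w)).card : ℝ)) / 2 ^ m) + 12 * Λ) ∧
      MonoX H φ φ' Kf := by
  obtain ⟨φ', h', h1, hsq, _, h2, h2', h3⟩ := levelsV H φ h s Kf hs k km g q K0 S L Λ hT m le_rfl
  refine ⟨φ', h', fun r => ?_, fun r => ?_, fun j b => ?_, fun j b => ?_, h3⟩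
  · have h3 := h1 r
    simp only [cs_full] at h3
    refine h3.trans ?_
    rw [div_self (by positivity), one_mul]
    exact noise_sum (K2 H φ (k r)) Λ (K2_nonneg H φ (k r)) hT.hΛ0 m
  · have h3 := hsq r
    simp only [cs_full] at h3
    exact h3.trans (sq_sum H φ (k r) (km r) Λ (hT.hkm r) hT.hΛ0)
  · have h4 := h2 j b
    rw [cs_full] at h4
    exact sq_bound _ _ Λ (wt_nonneg H φ' (g j) (hT.hg0 j) b) (div_nonneg (Finset.sum_nonneg
      fun v _ => mul_nonneg (hT.hg0 j v) (Nat.cast_nonneg _)) (by positivity)) hT.hΛ0 h4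
  · have h4 := h2' j b
    rw [cc_full] at h4
    exact sq_bound _ _ Λ (wc_nonneg H φ' (q j) (hT.hq0 j) b) (div_nonneg (Finset.sum_nonneg
      fun v _ => mul_nonneg (hT.hq0 j v) (Nat.cast_nonneg _)) (by positivity)) hT.hΛ0 h4

end levels

end Pool.Agent.Work.MP_db9399_ch
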