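import Pool.Agent.Work.MP_db9399_ch_helper26.SMP
import Pool.Agent.Work.MP_db9399_ch_helper26.EQ4

/-!
# MP_db9399, all scales: smoothing with two levels of nodes (helper26)
-/

set_option autoImplicit false

namespace Pool.Agent.Work.MP_db9399_ch

open Finset Classical
open Pool.Agent.Work.MP_db9399_tk
open Pool.Agent.Work.MP_db9399_tkn

universe u

theorem chHyp4 {V I I' : Type u} [Fintype V] (pr : I → I') (nd : V → Option (I × Bool)) :
    ChHyp (fun v => s3 (nd v))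
      (fun (x : ((I × Bool) ⊕ I) ⊕ I') (v : V) => fx4 pr x (nd v)) := by
  intro m i H φ h
  obtain ⟨κ, h1, h2, h3⟩ := chain4_level pr i H φ h nd
  exact ⟨κ, h2, h1, fun f x b _ => h3 f x b⟩

/-- **Smoothing with two levels of nodes**: sides of the nodes, signed nodes, signed pieces. -/
theorem smp4 : ∃ c : ℝ, 1 ≤ c ∧ ∀ {V I I' J J' : Type u} [Fintype V] [Fintype J] [Fintype J']
    (P : ℕ) (H : SimpleGraph V) (φ : V → V → Fin P) (pr : I → I') (nd : V → Option (I × Bool))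
    (k : J → V → ℝ) (g : J' → V → ℝ) (K0 S L : ℕ) (Λ A : ℝ), 1 ≤ P → PEC H φ →
    TstS H φ nd k g K0 S L Λ A P →
    ∃ φ' : V → V → Fin P, PEC H φ' ∧
      MonoX H φ φ' (fun (x : ((I × Bool) ⊕ I) ⊕ I') (v : V) => fx4 pr x (nd v)) ∧
      (∀ r, ∑ b, |wt H φ' (k r) b - (∑ v, k r v * ((mis H φ v).card : ℝ)) / P| ≤
        c * Real.sqrt (KK H φ (k r)) * (Real.sqrt P + (Nat.log 2 P : ℝ) * Real.sqrt Λ)) ∧
      (∀ r, ∑ b, (wt H φ' (k r) b - (∑ v, k r v * ((mis H φ v).card : ℝ)) / P) ^ 2 ≤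
        c * (KK H φ (k r) + Λ ^ 2 * A ^ 2 + Λ * (Nat.log 2 P : ℝ) * KK H φ (k r) / P)) ∧
      ∀ j b, wt H φ' (g j) b ≤ c * ((∑ v, g j v * ((mis H φ v).card : ℝ)) / P + Λ) := by
  refine ⟨357216, by norm_num, ?_⟩
  intro V I I' J J' _ _ _ P H φ pr nd k g K0 S L Λ A hP h hT
  have hΛ0 : 0 ≤ Λ := zero_le_one.trans hT.hΛ0
  have hcard : Fintype.card (Fin P) = P := Fintype.card_fin P
  have hTV : TstV H φ (fun v => s3 (nd v)) k (fun _ => A) g
      (fun (j : PEmpty.{u + 1}) (_ : V) => (0 : ℝ)) K0 S L Λ (Fintype.card (Fin P)) :=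
    { hks := fun r v hv => (s3_zero _).2 (hT.hks r v hv)
      hgs := fun r v hv => (s3_zero _).2 (hT.hgs r v hv)
      hqs := fun j => j.elim
      hK := hT.hK
      hK1 := hT.hK1
      hK2 := fun j => j.elim
      hS := hT.hS
      hS1 := hT.hS1
      hS2 := fun j => j.elim
      hL := hT.hL
      hL1 := hT.hL1
      hL2 := fun v => by simp
      hkm := hT.hA
      hg0 := hT.hg0
      hg1 := hT.hg1
      hq0 := fun j => j.elim
      hq1 := fun j => j.elim
      hL0 := hT.hL0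
      hΛ0 := hΛ0
      hΛ := by
        rw [hcard]
        refine le_trans ?_ hT.hΛ
        have h1 : (0 : ℝ) ≤ ((S : ℝ) * K0 + 1) * L := by positivity
        have h2 : (0 : ℝ) ≤ P := Nat.cast_nonneg _
        nlinarith }
  obtain ⟨φ', h', h1, h2, h3, _, h5⟩ := smoothPV H φ h (fun v => s3 (nd v))
    (fun (x : ((I × Bool) ⊕ I) ⊕ I') (v : V) => fx4 pr x (nd v)) (chHyp4 pr nd) k (fun _ => A) g
    (fun (j : PEmpty.{u + 1}) (_ : V) => (0 : ℝ)) K0 S L Λ (by rw [hcard]; omega) hTV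
  have hP0 : (0 : ℝ) < P := by exact_mod_cast hP
  refine ⟨φ', h', h5, fun r => ?_, fun r => ?_, fun j b => ?_⟩
  · have h6 := h1 r
    rw [hcard] at h6
    refine h6.trans ?_
    have h7 : Real.sqrt (∑ v, k r v ^ 2 * ((mis H φ v).card : ℝ)) = Real.sqrt (KK H φ (k r)) := rfl
    rw [h7]
    have h8 := Real.sqrt_nonneg (KK H φ (k r))
    have h9 := Real.sqrt_nonneg (P : ℝ)
    have h10 : 0 ≤ (Nat.log 2 P : ℝ) * Real.sqrt Λ := by positivity
    have h11 : Real.sqrt (KK H φ (k r)) * (301 * Real.sqrt P + 120 * (Nat.log 2 P) * Real.sqrt Λ) ≤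
        Real.sqrt (KK H φ (k r)) * (357216 * (Real.sqrt P + (Nat.log 2 P : ℝ) * Real.sqrt Λ)) :=
      mul_le_mul_of_nonneg_left (by nlinarith) h8
    refine h11.trans (le_of_eq ?_)
    ring
  · have h6 := h2 r
    rw [hcard] at h6
    refine h6.trans ?_
    have h7 : (∑ v, k r v ^ 2 * ((mis H φ v).card : ℝ)) = KK H φ (k r) := rfl
    rw [h7]
    have hKK : 0 ≤ KK H φ (k r) := sum_nonneg fun v _ => mul_nonneg (sq_nonneg _) (Nat.cast_nonneg _)
    unfold sqb
    have h8 : Λ * (Nat.log 2 P : ℝ) * KK H φ (k r) / 2 ^ (Nat.log 2 P) ≤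
        2 * (Λ * (Nat.log 2 P : ℝ) * KK H φ (k r) / P) := by
      have h9 : (P : ℝ) ≤ 2 * 2 ^ (Nat.log 2 P) := by
        have := Nat.lt_pow_succ_log_self (b := 2) (by norm_num) P
        rw [pow_succ, mul_comm] at this
        exact_mod_cast this.le
      rw [← mul_div_assoc, div_le_div_iff₀ (by positivity) hP0]
      have h10 : 0 ≤ Λ * (Nat.log 2 P : ℝ) * KK H φ (k r) := by positivity
      nlinarith
    have h11 : 16 * Λ * (Nat.log 2 P : ℝ) * KK H φ (k r) / 2 ^ (Nat.log 2 P) =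
        16 * (Λ * (Nat.log 2 P : ℝ) * KK H φ (k r) / 2 ^ (Nat.log 2 P)) := by ring
    rw [h11]
    have h12 : 0 ≤ Λ ^ 2 * A ^ 2 := by positivity
    have h13 : 0 ≤ Λ * (Nat.log 2 P : ℝ) * KK H φ (k r) / P := by positivity
    linarith
  · have h6 := h3 j b
    rw [hcard] at h6
    refine h6.trans ?_
    have h7 : 0 ≤ (∑ v, g j v * ((mis H φ v).card : ℝ)) / P :=
      div_nonneg (sum_nonneg fun v _ => mul_nonneg (hT.hg0 j v) (Nat.cast_nonneg _)) hP0.le
    rw [mul_div_assoc]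
    linarith

end Pool.Agent.Work.MP_db9399_ch
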