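import Pool.Agent.Work.MP_db9399_ch_helper26.CubeV

/-!
# MP_db9399, all scales: chained Kempe coins, every number of colours (helper26)

Proof of `smoothP2` of helper59 with chains and with the squares of the deviations.
-/

set_option autoImplicit false

namespace Pool.Agent.Work.MP_db9399_ch

open Finset Classical
open Pool.Agent.Work.MP_db9399_tk
open Pool.Agent.Work.MP_db9399_tkn (MonoX)

universe u v w

section norm
variable {C : Type v} [Fintype C]

/-- Euclidean norm -/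
noncomputable def n2 (x : C → ℝ) : ℝ := Real.sqrt (∑ c, x c ^ 2)

theorem n2_nonneg (x : C → ℝ) : 0 ≤ n2 x := Real.sqrt_nonneg _

theorem n2_sq (x : C → ℝ) : n2 x ^ 2 = ∑ c, x c ^ 2 :=
  Real.sq_sqrt (sum_nonneg fun _ _ => sq_nonneg _)

theorem n2_add (x y : C → ℝ) : n2 (fun c => x c + y c) ≤ n2 x + n2 y := by
  have h1 := norm_add_le (WithLp.toLp 2 x : EuclideanSpace ℝ C) (WithLp.toLp 2 y)
  rw [EuclideanSpace.norm_eq, EuclideanSpace.norm_eq, EuclideanSpace.norm_eq] at h1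
  simp only [Real.norm_eq_abs, sq_abs, PiLp.add_apply] at h1
  exact h1

theorem n2_tri (x y z : C → ℝ) (a b : ℝ) (h1 : n2 (fun c => x c - y c) ≤ a)
    (h2 : n2 (fun c => y c - z c) ≤ b) : n2 (fun c => x c - z c) ≤ a + b := by
  have h3 := n2_add (fun c => x c - y c) (fun c => y c - z c)
  simp only [sub_add_sub_cancel] at h3
  linarith

theorem n2_Ea (A : Finset C) (x : C → ℝ) : n2 (Ea A x) ≤ n2 x := by
  refine Real.sqrt_le_sqrt ?_
  rw [← Finset.sum_add_sum_compl A fun b => Ea A x b ^ 2,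
    ← Finset.sum_add_sum_compl A fun b => x b ^ 2]
  refine add_le_add ?_ (le_of_eq (Finset.sum_congr rfl fun b hb => ?_))
  · rcases A.eq_empty_or_nonempty with hA | hA
    · rw [hA, sum_empty, sum_empty]
    · have h0 : (0 : ℝ) < A.card := by exact_mod_cast Finset.card_pos.2 hA
      rw [Finset.sum_congr rfl fun b hb => by rw [Ea_in A x b hb], sum_const, nsmul_eq_mul, div_pow]
      have h1 := sq_sum_le_card_mul_sum_sq (s := A) (f := x)
      have h2 : (A.card : ℝ) * ((∑ c ∈ A, x c) ^ 2 / (A.card : ℝ) ^ 2) =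
          (∑ c ∈ A, x c) ^ 2 / A.card := by
        field_simp
      rw [h2, div_le_iff₀ h0]
      linarith
  · rw [Ea_out A x b (Finset.mem_compl.1 hb)]

theorem n2_Ea' (A : Finset C) (x y : C → ℝ) (a : ℝ) (h1 : n2 (fun c => x c - y c) ≤ a) :
    n2 (fun c => Ea A x c - Ea A y c) ≤ a := by
  have h2 := n2_Ea A fun c => x c - y c
  rw [Ea_sub'] at h2
  exact h2.trans h1

omit [Fintype C] in
theorem Ea_mul (A : Finset C) (t : ℝ) (x : C → ℝ) :
    Ea A (fun c => t * x c) = fun b => t * Ea A x b := by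
  funext b
  unfold Ea
  split_ifs
  · rw [← mul_sum, mul_div_assoc]
  · rfl

theorem Q5_mul (A M B : Finset C) (t : ℝ) (x : C → ℝ) :
    Q5 A M B (fun c => t * x c) = fun b => t * Q5 A M B x b := by
  unfold Q5
  rw [Ea_mul, Ea_mul, Ea_mul, Ea_mul, Ea_mul]

/-- contraction of the Euclidean norm -/
theorem Q5_contr2 (A M B : Finset C) (n : ℕ) (hn : 0 < n) (hn2 : Fintype.card C < 2 * n)
    (hA : A.card = n) (hM : M.card = n)
    (hB : B.card = n) (hAB : ∀ b, b ∈ A ∨ b ∈ B) (hAM : n ≤ 2 * (A ∩ M).card)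
    (hMB : n ≤ 2 * (M ∩ B).card) (z : C → ℝ) (hz : ∑ c, z c = 0) :
    n2 (Q5 A M B z) ≤ 11 / 12 * n2 z := by
  have hn0 : (0 : ℝ) < n := by exact_mod_cast hn
  have hnC : (n : ℝ) ≤ Fintype.card C := by
    rw [← hA]
    exact_mod_cast Finset.card_le_univ A
  have hnC2 : (Fintype.card C : ℝ) < 2 * n := by exact_mod_cast hn2
  set θ : ℝ := 1 - Fintype.card C / (12 * n) with hθ
  have hθ0 : 0 < θ := by
    have : (Fintype.card C : ℝ) / (12 * n) < 1 := by
      rw [div_lt_one (by positivity)]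
      linarith
    linarith
  have hθ1 : θ ≤ 11 / 12 := by
    have : (1 : ℝ) / 12 ≤ Fintype.card C / (12 * n) := by
      rw [div_le_div_iff₀ (by norm_num) (by positivity)]
      linarith
    linarith
  have key : ∀ b, Q5 A M B z b ^ 2 ≤
      θ * (Q5 A M B (fun c => z c ^ 2) b - (∑ c, z c ^ 2) / (12 * n)) := by
    intro b
    set l := Q5 A M B z b / θ with hl
    have h1 := Q5_low A M B n hn hA hM hB hAB hAM hMB (fun c => (z c - l) ^ 2)
      (fun c => sq_nonneg _) b
    have h2 : (fun c => (z c - l) ^ 2) = fun c => z c ^ 2 - ((2 * l) * z c - l ^ 2) := by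
      funext c
      ring
    have h3 : Q5 A M B (fun c => (z c - l) ^ 2) b =
        Q5 A M B (fun c => z c ^ 2) b - (2 * l * Q5 A M B z b - l ^ 2) := by
      rw [h2, Q5_sub, Q5_sub, Q5_mul, Q5_const]
    have h4 : ∑ c, (z c - l) ^ 2 = ∑ c, z c ^ 2 + Fintype.card C * l ^ 2 := by
      have : ∀ c, (z c - l) ^ 2 = z c ^ 2 - 2 * l * z c + l ^ 2 := fun c => by ring
      rw [sum_congr rfl fun c _ => this c, sum_add_distrib, sum_sub_distrib, ← mul_sum, hz,
        sum_const, card_univ, nsmul_eq_mul]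
      ring
    rw [h3, h4, add_div] at h1
    have h5 : Q5 A M B z b = θ * l := by
      rw [hl]
      field_simp
    have h6 : Fintype.card C * l ^ 2 / (12 * n) = (1 - θ) * l ^ 2 := by
      rw [hθ]
      field_simp
      ring
    rw [h6, h5] at h1
    rw [h5]
    have h7 : 0 ≤ Q5 A M B (fun c => z c ^ 2) b - (∑ c, z c ^ 2) / (12 * n) - θ * l ^ 2 := by
      nlinarith
    have h8 := mul_nonneg hθ0.le h7
    nlinarith
  have h9 : ∑ b, Q5 A M B z b ^ 2 ≤ θ ^ 2 * ∑ c, z c ^ 2 := by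
    refine (sum_le_sum fun b _ => key b).trans (le_of_eq ?_)
    rw [← mul_sum, sum_sub_distrib, sum_Q5, sum_const, card_univ, nsmul_eq_mul, hθ]
    ring
  unfold n2
  refine (Real.sqrt_le_sqrt h9).trans ?_
  rw [Real.sqrt_mul (sq_nonneg _), Real.sqrt_sq hθ0.le]
  exact mul_le_mul_of_nonneg_right hθ1 (Real.sqrt_nonneg _)

theorem var_le (x : C → ℝ) :
    ∑ b, (x b - (∑ c, x c) / Fintype.card C) ^ 2 ≤ ∑ b, x b ^ 2 := by
  set μ := (∑ c, x c) / Fintype.card C with hμ
  rcases Nat.eq_zero_or_pos (Fintype.card C) with h0 | h0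
  · have h1 : μ = 0 := by
      rw [hμ, h0]
      simp
    rw [h1]
    simp
  · have h1 : ∑ c, x c = Fintype.card C * μ := by
      rw [hμ]
      have : (Fintype.card C : ℝ) ≠ 0 := by positivity
      field_simp
    have h2 : ∀ b, (x b - μ) ^ 2 = x b ^ 2 - 2 * μ * x b + μ ^ 2 := fun b => by ring
    rw [sum_congr rfl fun b _ => h2 b, sum_add_distrib, sum_sub_distrib, ← mul_sum, h1, sum_const,
      card_univ, nsmul_eq_mul]
    have : (0 : ℝ) ≤ Fintype.card C * μ ^ 2 := by positivity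
    linarith

end norm

section smooth
variable {V : Type u} [Fintype V] {C : Type v} [Fintype C] {N : Type w}

theorem sqb_nonneg (K Λ km : ℝ) (m : ℕ) (hK : 0 ≤ K) (hΛ : 0 ≤ Λ) : 0 ≤ sqb K Λ km m := by
  unfold sqb
  positivity

theorem dev0s (H : SimpleGraph V) (φ : V → V → C) (k : V → ℝ) (S : ℕ)
    (hS : (univ.filter (fun v => k v ≠ 0)).card ≤ S) :
    ∑ b, wt H φ k b ^ 2 ≤ S * KK H φ k := by
  have h1 : ∀ b, wt H φ k b ^ 2 ≤ S * ∑ v, if b ∈ mis H φ v then k v ^ 2 else 0 := by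
    intro b
    have h2 : wt H φ k b = ∑ v ∈ univ.filter (fun v => k v ≠ 0),
        if b ∈ mis H φ v then k v else 0 := by
      unfold wt
      symm
      refine sum_subset (filter_subset _ _) ?_
      intro v hv hv'
      have : k v = 0 := by
        by_contra h
        exact hv' (mem_filter.2 ⟨hv, h⟩)
      rw [this]
      simp
    rw [h2]
    refine sq_sum_le_card_mul_sum_sq.trans ?_
    refine mul_le_mul (by exact_mod_cast hS) ?_ (sum_nonneg fun _ _ => sq_nonneg _)
      (Nat.cast_nonneg _)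
    refine (sum_le_sum_of_subset_of_nonneg (filter_subset _ _) fun _ _ _ => sq_nonneg _).trans ?_
    refine sum_le_sum fun v _ => ?_
    split_ifs
    · exact le_rfl
    · norm_num
  refine (sum_le_sum fun b _ => h1 b).trans (le_of_eq ?_)
  rw [← mul_sum, sum_comm]
  unfold KK
  congr 1
  refine sum_congr rfl fun v _ => ?_
  rw [← sum_filter, sum_const, nsmul_eq_mul, mul_comm]
  congr 3
  ext b
  rw [mem_filter]
  exact ⟨fun h => h.2, fun h => ⟨mem_univ _, h⟩⟩

/-- **Token smoothing with nodes**, any number of colours: sums and squares of the deviations of the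
tests `k`, bounds for the tests `g` (missing) and `q` (covered), and the range of the nodes does not
grow. -/
theorem smoothPV (H : SimpleGraph V) (φ : V → V → C) (h : PEC H φ)
    (s : V → ℝ) (Kf : N → V → ℝ) (hs : ChHyp s Kf)
    {I J1 J2 : Type u} [Fintype I] [Fintype J1] [Fintype J2] (k : I → V → ℝ) (km : I → ℝ)
    (g : J1 → V → ℝ) (q : J2 → V → ℝ) (K0 S L : ℕ) (Λ : ℝ) (hC : 0 < Fintype.card C)
    (hT : TstV H φ s k km g q K0 S L Λ (Fintype.card C)) :
    ∃ φ' : V → V → C, PEC H φ' ∧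
      (∀ r, ∑ b, |wt H φ' (k r) b - (∑ v, k r v * ((mis H φ v).card : ℝ)) / Fintype.card C| ≤
        Real.sqrt (∑ v, k r v ^ 2 * ((mis H φ v).card : ℝ)) *
          (301 * Real.sqrt (Fintype.card C) +
            120 * (Nat.log 2 (Fintype.card C)) * Real.sqrt Λ)) ∧
      (∀ r, ∑ b, (wt H φ' (k r) b - (∑ v, k r v * ((mis H φ v).card : ℝ)) / Fintype.card C) ^ 2 ≤
        3721 * sqb (∑ v, k r v ^ 2 * ((mis H φ v).card : ℝ)) Λ (km r)
          (Nat.log 2 (Fintype.card C))) ∧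
      (∀ j b, wt H φ' (g j) b ≤
        4 * (∑ v, g j v * ((mis H φ v).card : ℝ)) / Fintype.card C + 12 * Λ) ∧
      (∀ j b, wc H φ' (q j) b ≤
        4 * (∑ v, q j v * ((univ.filter (fun w => H.Adj v w)).card : ℝ)) / Fintype.card C +
          12 * Λ) ∧ MonoX H φ φ' Kf := by
  set P := Fintype.card C with hP
  set m := Nat.log 2 P with hm
  have hn1 : 2 ^ m ≤ P := Nat.pow_log_le_self 2 (by omega)
  have hn2 : P < 2 * 2 ^ m := by
    have := Nat.lt_pow_succ_log_self (b := 2) (by norm_num) P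
    rw [pow_succ, mul_comm] at this
    exact this
  have hn1' : (2 : ℝ) ^ m ≤ P := by exact_mod_cast hn1
  have hn2' : (P : ℝ) ≤ 2 * 2 ^ m := by exact_mod_cast hn2.le
  have hP0 : (0 : ℝ) < P := by exact_mod_cast hC
  have hn0 : 0 < 2 ^ m := by positivity
  obtain ⟨A, M, B, hA, hM, hB, hAB, hAM, hMB⟩ := three_sets (C := C) (2 ^ m) hn1 hn2
  have hΛ0 := hT.hΛ0
  have hg0 := hT.hg0
  have hq0 := hT.hq0
  set U : J1 → ℝ := fun j => 2 * ((∑ v, g j v * ((mis H φ v).card : ℝ)) / 2 ^ m) + 12 * Λ with hU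
  set U' : J2 → ℝ := fun j => 2 * ((∑ v, q j v *
    ((univ.filter (fun w => H.Adj v w)).card : ℝ)) / 2 ^ m) + 12 * Λ with hU'
  set N' : I → ℝ := fun r => Real.sqrt (KK H φ (k r)) *
    (5 * Real.sqrt (2 ^ m) + 2 * m * Real.sqrt Λ) with hN
  have hN0 : ∀ r, 0 ≤ N' r := fun r => by
    simp only [hN]
    positivity
  set N2 : I → ℝ := fun r => Real.sqrt (sqb (KK H φ (k r)) Λ (km r) m) with hN2
  have hN20 : ∀ r, 0 ≤ N2 r := fun r => Real.sqrt_nonneg _
  -- one cube
  have hcube : ∀ (ψ : V → V → C) (D X : Finset C), PEC H ψ → X.card = 2 ^ m →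
      (∀ j, ∀ b ∈ D, wt H ψ (g j) b ≤ U j) → (∀ j, ∀ b ∈ D, wc H ψ (q j) b ≤ U' j) →
      ∃ ψ' : V → V → C, PEC H ψ' ∧
      MonoX H ψ ψ' Kf ∧
      (∀ r, n2 (fun b => wt H ψ' (k r) b - Ea X (wt H ψ (k r)) b) ≤ N2 r) ∧
      (∀ r, ∑ b, |wt H ψ' (k r) b - Ea X (wt H ψ (k r)) b| ≤ N' r) ∧
      (∀ j, ∀ b, b ∈ D ∨ b ∈ X → wt H ψ' (g j) b ≤ U j) ∧
      (∀ j, ∀ b, b ∈ D ∨ b ∈ X → wc H ψ' (q j) b ≤ U' j) := by
    intro ψ D X hψ hX hD hD'
    have hmc : ∀ v, (mis H ψ v).card = (mis H φ v).card := mis_card_eq H φ ψ h hψ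
    obtain ⟨ψ', hψ', h1, h2, h2s, h3, h3', hMo⟩ := cubeV H ψ hψ X hX s Kf hs k km g q K0 S L Λ P
      hn1' (hT.congr h hψ)
    have hout : ∀ (k : V → ℝ) (b : C), b ∉ X → wt H ψ' k b = wt H ψ k b := by
      intro k b hb
      unfold wt
      refine Finset.sum_congr rfl fun v _ => ?_
      simp only [h1 b hb v]
    refine ⟨ψ', hψ', hMo, ?_, ?_, ?_, ?_⟩
    · intro r
      have h4 := h2s r
      rw [KK_eq H φ ψ h hψ (k r)] at h4
      refine Real.sqrt_le_sqrt (le_trans (le_of_eq ?_) h4)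
      rw [← Finset.sum_add_sum_compl X fun b => (wt H ψ' (k r) b - Ea X (wt H ψ (k r)) b) ^ 2]
      have h5 : ∑ b ∈ Xᶜ, (wt H ψ' (k r) b - Ea X (wt H ψ (k r)) b) ^ 2 = 0 := by
        refine Finset.sum_eq_zero fun b hb => ?_
        have hb' := Finset.mem_compl.1 hb
        rw [hout (k r) b hb', Ea_out X _ b hb', sub_self, zero_pow two_ne_zero]
      rw [h5, add_zero]
      refine Finset.sum_congr rfl fun b hb => ?_
      rw [Ea_in X _ b hb, hX]
      push_cast
      rfl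
    · intro r
      have h4 := h2 r
      rw [KK_eq H φ ψ h hψ (k r)] at h4
      refine le_trans (le_of_eq ?_) h4
      rw [← Finset.sum_add_sum_compl X fun b => |wt H ψ' (k r) b - Ea X (wt H ψ (k r)) b|]
      have h5 : ∑ b ∈ Xᶜ, |wt H ψ' (k r) b - Ea X (wt H ψ (k r)) b| = 0 := by
        refine Finset.sum_eq_zero fun b hb => ?_
        have hb' := Finset.mem_compl.1 hb
        rw [hout (k r) b hb', Ea_out X _ b hb', sub_self, abs_zero]
      rw [h5, add_zero]
      refine Finset.sum_congr rfl fun b hb => ?_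
      rw [Ea_in X _ b hb, hX]
      push_cast
      rfl
    · intro j b hb
      by_cases hbX : b ∈ X
      · refine (h3 j b hbX).trans ?_
        simp only [hU]
        refine add_le_add_left (mul_le_mul_of_nonneg_left (div_le_div_of_nonneg_right ?_
          (by positivity)) (by norm_num)) _
        calc ∑ c ∈ X, wt H ψ (g j) c ≤ ∑ c, wt H ψ (g j) c :=
              Finset.sum_le_sum_of_subset_of_nonneg (Finset.subset_univ _)
                fun c _ _ => wt_nonneg H ψ (g j) (hg0 j) c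
          _ = ∑ v, g j v * ((mis H φ v).card : ℝ) := by
            rw [sum_wtC]
            refine Finset.sum_congr rfl fun v _ => ?_
            rw [hmc v]
      · rw [hout (g j) b hbX]
        exact hD j b (hb.resolve_right hbX)
    · intro j b hb
      by_cases hbX : b ∈ X
      · refine (h3' j b hbX).trans ?_
        simp only [hU']
        refine add_le_add_left (mul_le_mul_of_nonneg_left (div_le_div_of_nonneg_right ?_
          (by positivity)) (by norm_num)) _
        calc ∑ c ∈ X, wc H ψ (q j) c ≤ ∑ c, wc H ψ (q j) c :=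
              Finset.sum_le_sum_of_subset_of_nonneg (Finset.subset_univ _)
                fun c _ _ => wc_nonneg H ψ (q j) (hq0 j) c
          _ = ∑ v, q j v * ((univ.filter (fun w => H.Adj v w)).card : ℝ) :=
            sum_wcC H ψ hψ (q j)
      · rw [wc_eq', hout (q j) b hbX, ← wc_eq']
        exact hD' j b (hb.resolve_right hbX)
  -- one round
  have hround : ∀ ψ : V → V → C, PEC H ψ → ∃ ψ' : V → V → C, PEC H ψ' ∧ MonoX H ψ ψ' Kf ∧
      (∀ r, n2 (fun b => wt H ψ' (k r) b - Q5 A M B (wt H ψ (k r)) b) ≤ 5 * N2 r) ∧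
      (∀ r, ∑ b, |wt H ψ' (k r) b - Q5 A M B (wt H ψ (k r)) b| ≤ 5 * N' r) ∧
      (∀ j, ∀ b, wt H ψ' (g j) b ≤ U j) ∧ (∀ j, ∀ b, wc H ψ' (q j) b ≤ U' j) := by
    intro ψ hψ
    obtain ⟨ψ1, p1, m1, v1, q1, r1, t1⟩ := hcube ψ ∅ A hψ hA
      (fun j b hb => absurd hb (Finset.notMem_empty _))
      (fun j b hb => absurd hb (Finset.notMem_empty _))
    obtain ⟨ψ2, p2, m2, v2, q2, r2, t2⟩ := hcube ψ1 A M p1 hM (fun j b hb => r1 j b (Or.inr hb))
      (fun j b hb => t1 j b (Or.inr hb))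
    obtain ⟨ψ3, p3, m3, v3, q3, r3, t3⟩ := hcube ψ2 A B p2 hB (fun j b hb => r2 j b (Or.inl hb))
      (fun j b hb => t2 j b (Or.inl hb))
    obtain ⟨ψ4, p4, m4, v4, q4, r4, t4⟩ := hcube ψ3 univ M p3 hM (fun j b _ => r3 j b (hAB b))
      (fun j b _ => t3 j b (hAB b))
    obtain ⟨ψ5, p5, m5, v5, q5, r5, t5⟩ := hcube ψ4 univ A p4 hA
      (fun j b hb => r4 j b (Or.inl hb)) (fun j b hb => t4 j b (Or.inl hb))
    refine ⟨ψ5, p5, MonoX.trans m1 (MonoX.trans m2 (MonoX.trans m3 (MonoX.trans m4 m5))), fun r => ?_, fun r => ?_,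
      fun j b => r5 j b (Or.inl (Finset.mem_univ b)),
      fun j b => t5 j b (Or.inl (Finset.mem_univ b))⟩
    · have s2 := n2_tri _ _ _ _ _ (v2 r) (n2_Ea' M _ _ _ (v1 r))
      have s3 := n2_tri _ _ _ _ _ (v3 r) (n2_Ea' B _ _ _ s2)
      have s4 := n2_tri _ _ _ _ _ (v4 r) (n2_Ea' M _ _ _ s3)
      have s5 := n2_tri _ _ _ _ _ (v5 r) (n2_Ea' A _ _ _ s4)
      refine s5.trans (le_of_eq ?_)
      ring
    have s2 := l1_tri _ _ _ _ _ (q2 r) (l1_Ea M _ _ _ (q1 r))
    have s3 := l1_tri _ _ _ _ _ (q3 r) (l1_Ea B _ _ _ s2)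
    have s4 := l1_tri _ _ _ _ _ (q4 r) (l1_Ea M _ _ _ s3)
    have s5 := l1_tri _ _ _ _ _ (q5 r) (l1_Ea A _ _ _ s4)
    refine s5.trans (le_of_eq ?_)
    ring
  -- many rounds
  set W : I → ℝ := fun r => (∑ v, k r v * ((mis H φ v).card : ℝ)) / P with hW
  have hmass : ∀ (ψ : V → V → C), PEC H ψ → ∀ r, ∑ c, (wt H ψ (k r) c - W r) = 0 := by
    intro ψ hψ r
    rw [Finset.sum_sub_distrib, sum_wtC, Finset.sum_const, Finset.card_univ, nsmul_eq_mul, ← hP]
    have h1 : ∑ v, k r v * ((mis H ψ v).card : ℝ) = ∑ v, k r v * ((mis H φ v).card : ℝ) := by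
      refine Finset.sum_congr rfl fun v _ => ?_
      rw [mis_card_eq H φ ψ h hψ v]
    rw [h1]
    simp only [hW]
    field_simp
    ring
  have hrounds : ∀ R : ℕ, ∃ ψ : V → V → C, PEC H ψ ∧ MonoX H φ ψ Kf ∧
      (∀ r, n2 (fun b => wt H ψ (k r) b - W r) ≤
        (11 / 12) ^ R * (Real.sqrt S * Real.sqrt (KK H φ (k r))) + 60 * N2 r) ∧
      (∀ r, ∑ b, |wt H ψ (k r) b - W r| ≤
        (11 / 12) ^ R * (2 * (Real.sqrt ((S : ℝ) * K0) * Real.sqrt (KK H φ (k r)))) +
          60 * N' r) ∧ (R ≠ 0 → ∀ j b, wt H ψ (g j) b ≤ U j) ∧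
      (R ≠ 0 → ∀ j b, wc H ψ (q j) b ≤ U' j) := by
    intro R
    induction R with
    | zero =>
      refine ⟨φ, h, MonoX.refl H φ Kf, fun r => ?_, fun r => ?_, fun h0 => absurd rfl h0,
        fun h0 => absurd rfl h0⟩
      · rw [pow_zero, one_mul]
        have h1 := dev0s H φ (k r) S (hT.hS r)
        have h2 : n2 (fun b => wt H φ (k r) b - W r) ≤
            Real.sqrt S * Real.sqrt (KK H φ (k r)) := by
          rw [← Real.sqrt_mul (Nat.cast_nonneg _)]
          refine Real.sqrt_le_sqrt (le_trans ?_ h1)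
          have h3 : W r = (∑ b, wt H φ (k r) b) / P := by
            simp only [hW]
            rw [sum_wtC]
          rw [h3, hP]
          exact var_le _
        have := hN20 r
        linarith
      rw [pow_zero, one_mul]
      have h1 := dev0 H φ (k r) K0 S (hT.hK r) (hT.hS r)
      have h2 : ∑ _b : C, |W r| ≤ Real.sqrt ((S : ℝ) * K0) * Real.sqrt (KK H φ (k r)) := by
        refine le_trans ?_ h1
        rw [Finset.sum_const, Finset.card_univ, nsmul_eq_mul, ← hP]
        simp only [hW]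
        rw [abs_div, Nat.abs_cast, ← sum_wtC]
        rw [mul_div_cancel₀ _ hP0.ne']
        exact Finset.abs_sum_le_sum_abs _ _
      have h3 : ∑ b, |wt H φ (k r) b - W r| ≤ ∑ b, |wt H φ (k r) b| + ∑ _b : C, |W r| := by
        rw [← Finset.sum_add_distrib]
        exact Finset.sum_le_sum fun b _ => abs_sub _ _
      have := hN0 r
      linarith
    | succ R ih =>
      obtain ⟨ψ, hψ, hM1, h1s, h1, _, _⟩ := ih
      obtain ⟨ψ', hψ', hM2, h3s, h3, h4, h4'⟩ := hround ψ hψ
      refine ⟨ψ', hψ', MonoX.trans hM1 hM2, fun r => ?_, fun r => ?_, fun _ => h4, fun _ => h4'⟩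
      · have h5 := Q5_contr2 A M B (2 ^ m) hn0 (by rw [← hP]; exact hn2) hA hM hB hAB hAM hMB
          (fun c => wt H ψ (k r) c - W r) (hmass ψ hψ r)
        have h6 : ∀ b, Q5 A M B (fun c => wt H ψ (k r) c - W r) b =
            Q5 A M B (wt H ψ (k r)) b - W r := by
          intro b
          have h7 := congrFun (Q5_sub A M B (wt H ψ (k r)) fun _ => W r) b
          rw [h7]
          simp only [Q5_const]
        rw [funext h6] at h5
        have h8 := n2_tri _ _ _ _ _ (h3s r) h5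
        refine h8.trans ?_
        have h9 := h1s r
        rw [pow_succ]
        linarith
      have h5 := Q5_contr A M B (2 ^ m) hn0 hA hM hB hAB hAM hMB
        (fun c => wt H ψ (k r) c - W r) (hmass ψ hψ r)
      have h6 : ∀ b, Q5 A M B (fun c => wt H ψ (k r) c - W r) b =
          Q5 A M B (wt H ψ (k r)) b - W r := by
        intro b
        have h7 := congrFun (Q5_sub A M B (wt H ψ (k r)) fun _ => W r) b
        rw [h7]
        simp only [Q5_const]
      simp only [h6] at h5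
      have h8 := l1_tri _ _ _ _ _ (h3 r) h5
      refine h8.trans ?_
      have h9 := h1 r
      rw [pow_succ]
      linarith
  obtain ⟨R, hR, hR2⟩ : ∃ R : ℕ, (11 / 12 : ℝ) ^ R * (2 * Real.sqrt ((S : ℝ) * K0)) ≤ 1 ∧
      (11 / 12 : ℝ) ^ R * Real.sqrt S ≤ 1 := by
    obtain ⟨R, hR⟩ := exists_pow_lt_of_lt_one (y := (11 / 12 : ℝ))
      (x := 1 / (2 * Real.sqrt ((S : ℝ) * K0) + Real.sqrt S + 1)) (by positivity) (by norm_num)
    have hs0 := Real.sqrt_nonneg ((S : ℝ) * K0)
    have hs1 := Real.sqrt_nonneg (S : ℝ)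
    refine ⟨R, ?_, ?_⟩
    · have h1 := mul_le_mul_of_nonneg_right hR.le
        (by positivity : 0 ≤ 2 * Real.sqrt ((S : ℝ) * K0))
      refine h1.trans ?_
      rw [div_mul_eq_mul_div, one_mul, div_le_one (by positivity)]
      linarith
    · have h1 := mul_le_mul_of_nonneg_right hR.le hs1
      refine h1.trans ?_
      rw [div_mul_eq_mul_div, one_mul, div_le_one (by positivity)]
      linarith
  obtain ⟨ψ, hψ, hMo, h1s, h1, h2, h2'⟩ := hrounds (R + 1)
  have hm0 : (0 : ℝ) ≤ m := Nat.cast_nonneg _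
  refine ⟨ψ, hψ, fun r => ?_, fun r => ?_, fun j b => ?_, fun j b => ?_, hMo⟩
  rotate_left
  · have h3 := h1s r
    have h4 : (11 / 12 : ℝ) ^ (R + 1) * (Real.sqrt S * Real.sqrt (KK H φ (k r))) ≤ N2 r := by
      have h5 : (11 / 12 : ℝ) ^ (R + 1) * Real.sqrt S ≤ 1 := by
        refine le_trans ?_ hR2
        refine mul_le_mul_of_nonneg_right ?_ (Real.sqrt_nonneg _)
        exact pow_le_pow_of_le_one (by norm_num) (by norm_num) (Nat.le_succ R)
      have h6 := mul_le_mul_of_nonneg_right h5 (Real.sqrt_nonneg (KK H φ (k r)))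
      rw [mul_assoc] at h6
      refine h6.trans ?_
      rw [one_mul]
      refine Real.sqrt_le_sqrt ?_
      have hKK : 0 ≤ KK H φ (k r) := sum_nonneg fun v _ =>
        mul_nonneg (sq_nonneg _) (Nat.cast_nonneg _)
      have h7 : 0 ≤ 96 * Λ ^ 2 * km r ^ 2 := by positivity
      have h8 : 0 ≤ 16 * Λ * m * KK H φ (k r) / 2 ^ m := by positivity
      unfold sqb
      linarith
    have h5 : n2 (fun b => wt H ψ (k r) b - W r) ≤ 61 * N2 r := by linarith
    have h6 := pow_le_pow_left₀ (n2_nonneg _) h5 2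
    rw [n2_sq] at h6
    refine h6.trans (le_of_eq ?_)
    have hKK : 0 ≤ KK H φ (k r) := sum_nonneg fun v _ =>
      mul_nonneg (sq_nonneg _) (Nat.cast_nonneg _)
    simp only [hN2]
    rw [mul_pow, Real.sq_sqrt (sqb_nonneg _ _ _ _ hKK hΛ0)]
    have h7 : (∑ v, k r v ^ 2 * ((mis H φ v).card : ℝ)) = KK H φ (k r) := rfl
    rw [h7]
    norm_num
  rotate_right
  · refine (h1 r).trans ?_
    have hs := Real.sqrt_nonneg (KK H φ (k r))
    have hsP : Real.sqrt (2 ^ m) ≤ Real.sqrt P := Real.sqrt_le_sqrt hn1'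
    have hsP1 : 1 ≤ Real.sqrt P := by
      rw [Real.one_le_sqrt]
      exact_mod_cast hC
    have h3 : (11 / 12 : ℝ) ^ (R + 1) * (2 * (Real.sqrt ((S : ℝ) * K0) *
        Real.sqrt (KK H φ (k r)))) ≤ 1 * Real.sqrt (KK H φ (k r)) := by
      have h4 : (11 / 12 : ℝ) ^ (R + 1) * (2 * Real.sqrt ((S : ℝ) * K0)) ≤ 1 := by
        refine le_trans ?_ hR
        refine mul_le_mul_of_nonneg_right ?_ (by positivity)
        exact pow_le_pow_of_le_one (by norm_num) (by norm_num) (Nat.le_succ R)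
      have h5 := mul_le_mul_of_nonneg_right h4 hs
      refine le_trans (le_of_eq ?_) h5
      ring
    refine (add_le_add_left h3 _).trans ?_
    have h6 : (∑ v, k r v ^ 2 * ((mis H φ v).card : ℝ)) = KK H φ (k r) := rfl
    rw [h6]
    simp only [hN]
    have h7 : 1 * Real.sqrt (KK H φ (k r)) + 60 * (Real.sqrt (KK H φ (k r)) *
        (5 * Real.sqrt (2 ^ m) + 2 * m * Real.sqrt Λ)) = Real.sqrt (KK H φ (k r)) *
        (1 + 300 * Real.sqrt (2 ^ m) + 120 * m * Real.sqrt Λ) := by ring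
    rw [h7]
    refine mul_le_mul_of_nonneg_left ?_ hs
    linarith
  · refine (h2 (Nat.succ_ne_zero R) j b).trans ?_
    simp only [hU]
    have hG0 : 0 ≤ ∑ v, g j v * ((mis H φ v).card : ℝ) :=
      Finset.sum_nonneg fun v _ => mul_nonneg (hg0 j v) (Nat.cast_nonneg _)
    refine add_le_add_left ?_ _
    rw [← mul_div_assoc, div_le_div_iff₀ (by positivity) hP0]
    nlinarith
  · refine (h2' (Nat.succ_ne_zero R) j b).trans ?_
    simp only [hU']
    have hG0 : 0 ≤ ∑ v, q j v * ((univ.filter (fun w => H.Adj v w)).card : ℝ) :=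
      Finset.sum_nonneg fun v _ => mul_nonneg (hq0 j v) (Nat.cast_nonneg _)
    refine add_le_add_left ?_ _
    rw [← mul_div_assoc, div_le_div_iff₀ (by positivity) hP0]
    nlinarith

end smooth

end Pool.Agent.Work.MP_db9399_ch
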