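import Pool.Agent.Work.MP_db9399_ch_helper26.Level

/-!
# MP_db9399, all scales: chained Kempe coins, part 3 (helper26)

The random part of one level: `level2N`.
-/

set_option autoImplicit false

namespace Pool.Agent.Work.MP_db9399_ch

open Finset Classical
open Pool.Agent.Work.MP_db9399_all (pr DepOnI PackI)
open Pool.Agent.Work.MP_db9399_tk

universe u v w

section step
variable {V : Type u} [Fintype V] {m : ℕ}

theorem sum_pairs0 (i : Fin m) (F : Cl m → V → ℝ) :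
    ∑ b ∈ univ.filter (fun b : Cl m => b i = false), ∑ v, F b v =
      ∑ o ∈ univ.filter (fun o : Cl m × V => o.1 i = false), F o.1 o.2 := by
  rw [Finset.sum_filter, Finset.sum_filter, Fintype.sum_prod_type]
  refine Finset.sum_congr rfl fun b _ => ?_
  by_cases hb : b i = false
  · simp only [if_pos hb]
  · simp only [if_neg hb, Finset.sum_const_zero]

/-- the coefficient of a chain -/
noncomputable def gk (i : Fin m) (H : SimpleGraph V) (φ : V → V → Cl m) (h : PEC H φ)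
    (κ : Cl m × V → Cl m × V) (ε : Cl m × V → Fin 2) (k : V → ℝ) (w : Cl m → ℝ)
    (q : Cl m × V) : ℝ :=
  ∑ o ∈ (univ.filter (fun o : Cl m × V => o.1 i = false)).filter
    (fun o => κ (o.1, rp i H φ h o.1 o.2) = q),
    sg (ε (o.1, rp i H φ h o.1 o.2)) * (w o.1 * (k o.2 * dx i H φ o.1 o.2))

theorem gk_sum (i : Fin m) (H : SimpleGraph V) (φ : V → V → Cl m) (h : PEC H φ)
    (κ : Cl m × V → Cl m × V) (ε : Cl m × V → Fin 2) (k : V → ℝ) (w : Cl m → ℝ)
    (f : Cl m × V → Fin 2) :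
    ∑ q, sg (f q) * gk i H φ h κ ε k w q =
      ∑ b ∈ univ.filter (fun b : Cl m => b i = false),
        w b * nz i H φ h (fun p => ε p + f (κ p)) k b := by
  have h1 : ∀ b : Cl m, w b * nz i H φ h (fun p => ε p + f (κ p)) k b =
      ∑ v, sg (ε (b, rp i H φ h b v) + f (κ (b, rp i H φ h b v))) *
        (w b * (k v * dx i H φ b v)) := by
    intro b
    rw [nz_v, mul_sum]
    exact sum_congr rfl fun v _ => by ring
  rw [sum_congr rfl fun b _ => h1 b, sum_pairs0]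
  unfold gk
  have h2 : ∀ q, sg (f q) * ∑ o ∈ (univ.filter (fun o : Cl m × V => o.1 i = false)).filter
      (fun o => κ (o.1, rp i H φ h o.1 o.2) = q),
      sg (ε (o.1, rp i H φ h o.1 o.2)) * (w o.1 * (k o.2 * dx i H φ o.1 o.2)) =
      ∑ o ∈ (univ.filter (fun o : Cl m × V => o.1 i = false)).filter
        (fun o => κ (o.1, rp i H φ h o.1 o.2) = q),
        sg (ε (o.1, rp i H φ h o.1 o.2) + f (κ (o.1, rp i H φ h o.1 o.2))) *
          (w o.1 * (k o.2 * dx i H φ o.1 o.2)) := by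
    intro q
    rw [mul_sum]
    refine sum_congr rfl fun o ho => ?_
    rw [(mem_filter.1 ho).2, sg_add]
    ring
  rw [sum_congr rfl fun q _ => h2 q]
  exact sum_fiberwise _ (fun o : Cl m × V => κ (o.1, rp i H φ h o.1 o.2)) _

theorem gk_sq (i : Fin m) (H : SimpleGraph V) (φ : V → V → Cl m) (h : PEC H φ) (s : V → ℝ)
    (κ : Cl m × V → Cl m × V) (ε : Cl m × V → Fin 2) (hκ : ChainP i H φ h s κ)
    (k : V → ℝ) (hk : ∀ v, k v ≠ 0 → s v = 0) (w : Cl m → ℝ) :
    ∑ q, gk i H φ h κ ε k w q ^ 2 ≤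
      2 * ∑ b ∈ univ.filter (fun b : Cl m => b i = false),
        w b ^ 2 * ∑ v, k v ^ 2 * dx i H φ b v ^ 2 := by
  have h1 : ∀ q, gk i H φ h κ ε k w q ^ 2 ≤
      2 * ∑ o ∈ (univ.filter (fun o : Cl m × V => o.1 i = false)).filter
        (fun o => κ (o.1, rp i H φ h o.1 o.2) = q), (w o.1 * (k o.2 * dx i H φ o.1 o.2)) ^ 2 := by
    intro q
    set E := univ.filter (fun o : Cl m × V => (o.1 i = false ∧ dx i H φ o.1 o.2 ≠ 0) ∧ s o.2 = 0 ∧
      κ (o.1, rp i H φ h o.1 o.2) = q) with hE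
    have hsub : E ⊆ (univ.filter (fun o : Cl m × V => o.1 i = false)).filter
        (fun o => κ (o.1, rp i H φ h o.1 o.2) = q) := by
      intro o ho
      have h2 := (mem_filter.1 ho).2
      exact mem_filter.2 ⟨mem_filter.2 ⟨mem_univ _, h2.1.1⟩, h2.2.2⟩
    have h2 : gk i H φ h κ ε k w q = ∑ o ∈ E, sg (ε (o.1, rp i H φ h o.1 o.2)) *
        (w o.1 * (k o.2 * dx i H φ o.1 o.2)) := by
      unfold gk
      symm
      refine sum_subset hsub ?_
      intro o ho ho'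
      have h3 := (mem_filter.1 ho).2
      have h4 := (mem_filter.1 (mem_filter.1 ho).1).2
      by_cases h5 : dx i H φ o.1 o.2 = 0
      · rw [h5]
        ring
      · by_cases h6 : k o.2 = 0
        · rw [h6]
          ring
        · exact absurd (mem_filter.2 ⟨mem_univ _, ⟨h4, h5⟩, hk _ h6, h3⟩) ho'
    rw [h2]
    refine sq_sum_le_card_mul_sum_sq.trans ?_
    have h3 : (E.card : ℝ) ≤ 2 := by exact_mod_cast hκ q
    have h4 : ∑ o ∈ E, (sg (ε (o.1, rp i H φ h o.1 o.2)) *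
        (w o.1 * (k o.2 * dx i H φ o.1 o.2))) ^ 2 ≤
        ∑ o ∈ (univ.filter (fun o : Cl m × V => o.1 i = false)).filter
          (fun o => κ (o.1, rp i H φ h o.1 o.2) = q),
          (w o.1 * (k o.2 * dx i H φ o.1 o.2)) ^ 2 := by
      rw [sum_congr rfl fun o _ => by rw [mul_pow, sg_sq, one_mul]]
      exact sum_le_sum_of_subset_of_nonneg hsub fun o _ _ => sq_nonneg _
    exact mul_le_mul h3 h4 (sum_nonneg fun o _ => sq_nonneg _) (by norm_num)
  refine (sum_le_sum fun q _ => h1 q).trans (le_of_eq ?_)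
  rw [← mul_sum]
  congr 1
  refine (sum_fiberwise _ (fun o : Cl m × V => κ (o.1, rp i H φ h o.1 o.2)) _).trans ?_
  rw [← sum_pairs0 i (fun b v => (w b * (k v * dx i H φ b v)) ^ 2)]
  refine sum_congr rfl fun b _ => ?_
  rw [mul_sum]
  exact sum_congr rfl fun v _ => by ring

/-- scope of the events of a test function -/
noncomputable def QC (i : Fin m) (H : SimpleGraph V) (φ : V → V → Cl m) (h : PEC H φ)
    (κ : Cl m × V → Cl m × V) (k : V → ℝ) : Finset (Cl m × V) := (QT i H φ h k).image κ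

theorem gk_zero (i : Fin m) (H : SimpleGraph V) (φ : V → V → Cl m) (h : PEC H φ)
    (κ : Cl m × V → Cl m × V) (ε : Cl m × V → Fin 2) (k : V → ℝ) (w : Cl m → ℝ)
    (q : Cl m × V) (hq : q ∉ QC i H φ h κ k) : gk i H φ h κ ε k w q = 0 := by
  unfold gk
  refine sum_eq_zero fun o ho => ?_
  have h3 := (mem_filter.1 ho).2
  have h4 := (mem_filter.1 (mem_filter.1 ho).1).2
  by_cases h5 : dx i H φ o.1 o.2 = 0
  · rw [h5]
    ring
  · by_cases h6 : k o.2 = 0
    · rw [h6]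
      ring
    · exfalso
      apply hq
      rw [← h3]
      refine mem_image_of_mem κ (mem_filter.2 ⟨mem_univ _, h4, o.2, ?_, h6⟩)
      exact mem_filter.2 ⟨mem_univ _, rfl, h5⟩

theorem QC_card (i : Fin m) (H : SimpleGraph V) (φ : V → V → Cl m) (h : PEC H φ)
    (κ : Cl m × V → Cl m × V) (k : V → ℝ) (K0 S : ℕ)
    (hk0 : ∀ v, k v ≠ 0 → (mis H φ v).card ≤ K0)
    (hk1 : (univ.filter (fun v => k v ≠ 0)).card ≤ S) : (QC i H φ h κ k).card ≤ S * K0 :=
  card_image_le.trans (QT_card i H φ h k K0 S hk0 hk1)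

theorem QC_deg (i : Fin m) (H : SimpleGraph V) (φ : V → V → Cl m) (h : PEC H φ) (s : V → ℝ)
    (κ : Cl m × V → Cl m × V) (hκ : ChainP i H φ h s κ)
    {I : Type u} [Fintype I] (k : I → V → ℝ) (hk : ∀ r v, k r v ≠ 0 → s v = 0) (L : ℕ)
    (hk2 : ∀ v, (univ.filter (fun r => k r v ≠ 0)).card ≤ L) (q : Cl m × V) :
    (univ.filter (fun r => q ∈ QC i H φ h κ (k r))).card ≤ 2 * L := by
  set E := univ.filter (fun o : Cl m × V => (o.1 i = false ∧ dx i H φ o.1 o.2 ≠ 0) ∧ s o.2 = 0 ∧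
    κ (o.1, rp i H φ h o.1 o.2) = q) with hE
  have h1 : univ.filter (fun r => q ∈ QC i H φ h κ (k r)) ⊆
      E.biUnion (fun o => univ.filter (fun r => k r o.2 ≠ 0)) := by
    intro r hr
    obtain ⟨p, hp, hpq⟩ := mem_image.1 (mem_filter.1 hr).2
    obtain ⟨hb, v, hv, hkv⟩ := (mem_filter.1 hp).2
    obtain ⟨hr', hd⟩ := (mem_filter.1 hv).2
    refine mem_biUnion.2 ⟨(p.1, v), mem_filter.2 ⟨mem_univ _, ⟨hb, hd⟩, hk r v hkv, ?_⟩,
      mem_filter.2 ⟨mem_univ _, hkv⟩⟩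
    show κ (p.1, rp i H φ h p.1 v) = q
    rw [hr', ← hpq]
  refine (card_le_card h1).trans (card_biUnion_le.trans ?_)
  refine (sum_le_sum (g := fun _ => L) fun o _ => hk2 o.2).trans ?_
  rw [sum_const, smul_eq_mul]
  exact Nat.mul_le_mul_right _ (hκ q)

/-- weights of the events -/
noncomputable def wa (i : Fin m) (a : Cl m) (b : Cl m) : ℝ := if ag i a b then 1 else 0

theorem Zc_gk (i : Fin m) (H : SimpleGraph V) (φ : V → V → Cl m) (h : PEC H φ)
    (κ : Cl m × V → Cl m × V) (ε : Cl m × V → Fin 2) (k : V → ℝ)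
    (f : Cl m × V → Fin 2) (a : Cl m) :
    Zc i H φ h (fun p => ε p + f (κ p)) k a = ∑ q, sg (f q) * gk i H φ h κ ε k (wa i a) q := by
  rw [gk_sum]
  unfold Zc wa
  rw [sum_filter, sum_filter]
  refine sum_congr rfl fun b _ => ?_
  by_cases hb : b i = false
  · by_cases hg : ag i a b
    · rw [if_pos ⟨hb, hg⟩, if_pos hb, if_pos hg, one_mul]
    · rw [if_neg (fun h => hg h.2), if_pos hb, if_neg hg, zero_mul]
  · rw [if_neg (fun h => hb h.1), if_neg hb]

/-- total square weight of the ends seen by a test function at one level -/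
noncomputable def vs (i : Fin m) (H : SimpleGraph V) (φ : V → V → Cl m) (k : V → ℝ)
    (a : Cl m) : ℝ :=
  ∑ b ∈ univ.filter (fun b : Cl m => b i = false ∧ ag i a b), ∑ v, k v ^ 2 * dx i H φ b v ^ 2

theorem wa_sq (i : Fin m) (H : SimpleGraph V) (φ : V → V → Cl m) (h : PEC H φ) (s : V → ℝ)
    (κ : Cl m × V → Cl m × V) (ε : Cl m × V → Fin 2) (hκ : ChainP i H φ h s κ)
    (k : V → ℝ) (hk : ∀ v, k v ≠ 0 → s v = 0) (a : Cl m) :
    ∑ q, gk i H φ h κ ε k (wa i a) q ^ 2 ≤ 2 * vs i H φ k a := by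
  refine (gk_sq i H φ h s κ ε hκ k hk (wa i a)).trans (le_of_eq ?_)
  congr 1
  unfold wa vs
  rw [sum_filter, sum_filter]
  refine sum_congr rfl fun b _ => ?_
  by_cases hb : b i = false
  · by_cases hg : ag i a b
    · rw [if_pos hb, if_pos hg, if_pos (⟨hb, hg⟩ : b i = false ∧ ag i a b), one_pow, one_mul]
    · rw [if_pos hb, if_neg hg, if_neg (fun h : b i = false ∧ ag i a b => hg h.2),
        zero_pow two_ne_zero, zero_mul]
  · rw [if_neg hb, if_neg (fun h : b i = false ∧ ag i a b => hb h.1)]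

theorem sn_sq' (i : Fin m) (H : SimpleGraph V) (φ : V → V → Cl m) (h : PEC H φ) (s : V → ℝ)
    (κ : Cl m × V → Cl m × V) (ε : Cl m × V → Fin 2) (hκ : ChainP i H φ h s κ)
    (k : V → ℝ) (hk : ∀ v, k v ≠ 0 → s v = 0) (τ : (Fin (i : ℕ) → Bool) → Bool) :
    ∑ q, gk i H φ h κ ε k (sn i τ) q ^ 2 ≤ 2 * K2 H φ k := by
  refine (gk_sq i H φ h s κ ε hκ k hk (sn i τ)).trans ?_
  refine mul_le_mul_of_nonneg_left ?_ (by norm_num)
  have h1 : ∀ b ∈ univ.filter (fun b : Cl m => b i = false),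
      sn i τ b ^ 2 * ∑ v, k v ^ 2 * dx i H φ b v ^ 2 ≤
        wt H φ (fun v => k v ^ 2) b + wt H φ (fun v => k v ^ 2) (fl i b) := by
    intro b _
    rw [sn_sq, one_mul, wt_eq, wt_eq, ← sum_add_distrib]
    refine sum_le_sum fun v _ => ?_
    rw [← mul_add]
    exact mul_le_mul_of_nonneg_left (dx_sq i H φ b v) (sq_nonneg _)
  refine (sum_le_sum h1).trans ?_
  rw [sum_half' i (fun b => wt H φ (fun v => k v ^ 2) b), sum_wt]
  exact le_of_eq rfl

theorem sum_abs_ZcC (i : Fin m) (H : SimpleGraph V) (φ : V → V → Cl m) (h : PEC H φ)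
    (κ : Cl m × V → Cl m × V) (ε : Cl m × V → Fin 2) (k : V → ℝ)
    (f : Cl m × V → Fin 2) (τ : (Fin (i : ℕ) → Bool) → Bool)
    (hτ : ∀ a, |Zc i H φ h (fun p => ε p + f (κ p)) k a| =
      sn i τ a * Zc i H φ h (fun p => ε p + f (κ p)) k a) :
    ∑ a, |Zc i H φ h (fun p => ε p + f (κ p)) k a| =
      2 ^ m / 2 ^ (i : ℕ) * ∑ q, sg (f q) * gk i H φ h κ ε k (sn i τ) q := by
  rw [sum_abs_Zc i H φ h _ k τ hτ, gk_sum]
  congr 1
  rw [Fintype.sum_prod_type, sum_filter]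
  refine sum_congr rfl fun b _ => ?_
  unfold cT nz
  by_cases hb : b i = false
  · simp only [if_pos hb]
    rw [mul_sum]
    exact sum_congr rfl fun R _ => by ring
  · simp only [if_neg hb, mul_zero, sum_const_zero]

/-- one level, for given chains -/
theorem level2K (i : Fin m) (H : SimpleGraph V) (φ : V → V → Cl m) (h : PEC H φ)
    (s : V → ℝ) (κ : Cl m × V → Cl m × V) (ε : Cl m × V → Fin 2) (hκ : ChainP i H φ h s κ)
    {I J' : Type u} [Fintype I] [Fintype J'] (k : I → V → ℝ) (g : J' → V → ℝ)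
    (hks : ∀ r v, k r v ≠ 0 → s v = 0) (hgs : ∀ j v, g j v ≠ 0 → s v = 0)
    (B : J' → Cl m → ℝ) (K0 S L : ℕ)
    (Λ : ℝ) (hK : ∀ r v, k r v ≠ 0 → (mis H φ v).card ≤ K0)
    (hK' : ∀ j v, g j v ≠ 0 → (mis H φ v).card ≤ K0)
    (hS : ∀ r, (univ.filter (fun v => k r v ≠ 0)).card ≤ S)
    (hS' : ∀ j, (univ.filter (fun v => g j v ≠ 0)).card ≤ S)
    (hL : ∀ v, (univ.filter (fun r => k r v ≠ 0)).card ≤ L)
    (hL' : ∀ v, (univ.filter (fun j => g j v ≠ 0)).card ≤ L)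
    (hB0 : ∀ j a, 0 ≤ B j a) (hB : ∀ j a, vs i H φ (g j) a ≤ B j a)
    (hL1 : 1 ≤ L) (hΛ0 : 0 ≤ Λ)
    (hΛ : 32 * ((S : ℝ) * K0 + 1) * L * (2 ^ m + 1) ≤ Real.exp Λ) :
    ∃ f : Cl m × V → Fin 2,
      (∀ r, ∑ a, |cs H (nw i H φ h fun p => ε p + f (κ p)) (k r) (i + 1) a -
        1 / 2 * cs H φ (k r) i a| ≤ 2 ^ m / 2 ^ ((i : ℕ) + 1) *
          Real.sqrt (4 * K2 H φ (k r) * (2 ^ (i : ℕ) * Real.log 2 + Λ))) ∧
      ∀ j a, |cs H (nw i H φ h fun p => ε p + f (κ p)) (g j) (i + 1) a -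
        1 / 2 * cs H φ (g j) i a| ≤ Real.sqrt (Λ * B j a) := by
  set T : ℝ := 1 / (4 * ((S : ℝ) * K0 + 1)) with hT
  set W : ℝ := T / (2 * L * (2 ^ m + 1)) with hW
  have hSK : (1 : ℝ) ≤ (S : ℝ) * K0 + 1 := by
    have : (0 : ℝ) ≤ (S : ℝ) * K0 := by positivity
    linarith
  have hT0 : 0 ≤ T := by positivity
  have hT1 : T ≤ 1 / 4 := by
    rw [hT]
    refine one_div_le_one_div_of_le (by norm_num) ?_
    linarith
  have hL0 : (0 : ℝ) < L := by exact_mod_cast hL1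
  have hpos := Real.exp_pos (-Λ)
  have hW4 : 4 * Real.exp (-Λ) ≤ W := by
    have h1 : W = 1 / (8 * ((S : ℝ) * K0 + 1) * L * (2 ^ m + 1)) := by
      rw [hW, hT]
      field_simp
      ring
    rw [h1, Real.exp_neg, le_div_iff₀ (by positivity)]
    have h2 := Real.exp_pos Λ
    rw [← div_eq_mul_inv, div_mul_eq_mul_div, div_le_one h2]
    linarith
  have hW0 : 0 ≤ W := by positivity
  have hexp : ∀ Q : Finset (Cl m × V), Q.card ≤ S * K0 → Real.exp (2 * T * (Q.card : ℝ)) ≤ 2 := by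
    intro Q hQ
    have h1 : (Q.card : ℝ) ≤ (S : ℝ) * K0 := by exact_mod_cast hQ
    have h2 : 2 * T * (Q.card : ℝ) ≤ 1 / 2 := by
      rw [hT]
      have h3 : 2 * (1 / (4 * ((S : ℝ) * K0 + 1))) * (Q.card : ℝ) =
          (Q.card : ℝ) / (2 * ((S : ℝ) * K0 + 1)) := by
        field_simp
        ring
      rw [h3, div_le_iff₀ (by positivity)]
      linarith
    exact (Real.exp_le_exp.2 h2).trans exp_half
  have hlog : 0 < Real.log 2 := Real.log_pos (by norm_num)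
  -- packages
  have P1 : ∀ r, PackI T (QC i H φ h κ (k r)) W (fun f : Cl m × V → Fin 2 =>
      ¬ ∃ τ : (Fin (i : ℕ) → Bool) → Bool,
        Real.sqrt (4 * K2 H φ (k r) * (2 ^ (i : ℕ) * Real.log 2 + Λ)) <
          ∑ p, sg (f p) * gk i H φ h κ ε (k r) (sn i τ) p) := by
    intro r
    have hK2 := K2_nonneg H φ (k r)
    have hA : 0 ≤ 2 ^ (i : ℕ) * Real.log 2 + Λ := by positivity
    refine packT T W (Real.exp (-Λ)) (2 * K2 H φ (k r)) _ (QC i H φ h κ (k r))
      (fun τ => gk i H φ h κ ε (k r) (sn i τ))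
      (fun τ p hp => gk_zero i H φ h κ ε (k r) (sn i τ) p hp)
      (fun τ => sn_sq' i H φ h s κ ε hκ (k r) (hks r) τ) (by linarith) (Real.sqrt_nonneg _)
      hpos.le ?_ (by linarith) (hexp _ (QC_card i H φ h κ (k r) K0 S (hK r) (hS r)))
    intro h0
    rw [Real.sq_sqrt (by positivity)]
    have h2 : (Fintype.card ((Fin (i : ℕ) → Bool) → Bool) : ℝ) =
        Real.exp (2 ^ (i : ℕ) * Real.log 2) := by
      rw [Fintype.card_fun, Fintype.card_fun, Fintype.card_bool, Fintype.card_fin]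
      push_cast
      rw [mul_comm, Real.exp_mul, Real.exp_log (by norm_num)]
      norm_cast
    rw [h2, ← Real.exp_add]
    refine Real.exp_le_exp.2 (le_of_eq ?_)
    have h3 : K2 H φ (k r) ≠ 0 := by
      intro h4
      rw [h4] at h0
      simp at h0
    field_simp
    ring
  have P2 : ∀ y : J' × Cl m, PackI T (QC i H φ h κ (g y.1)) W (fun f : Cl m × V → Fin 2 =>
      ¬ ∃ τ : Bool, 2 * Real.sqrt (Λ * B y.1 y.2) <
        ∑ p, sg (f p) * ((if τ = true then 1 else -1) * gk i H φ h κ ε (g y.1) (wa i y.2) p)) := by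
    intro y
    have hB' := hB0 y.1 y.2
    refine packT T W (2 * Real.exp (-Λ)) (2 * B y.1 y.2) _ (QC i H φ h κ (g y.1))
      (fun τ p => (if τ = true then 1 else -1) * gk i H φ h κ ε (g y.1) (wa i y.2) p)
      (fun τ p hp => by rw [gk_zero i H φ h κ ε (g y.1) (wa i y.2) p hp, mul_zero])
      (fun τ => ?_) (by linarith) (by positivity) (by linarith) ?_
      (by linarith) (hexp _ (QC_card i H φ h κ (g y.1) K0 S (hK' y.1) (hS' y.1)))
    · refine (le_of_eq ?_).trans ((wa_sq i H φ h s κ ε hκ (g y.1) (hgs y.1) y.2).trans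
        (mul_le_mul_of_nonneg_left (hB y.1 y.2) (by norm_num)))
      refine sum_congr rfl fun p _ => ?_
      cases τ <;> simp
    · intro h0
      rw [mul_pow, Real.sq_sqrt (by positivity), Fintype.card_bool, Nat.cast_ofNat]
      refine mul_le_mul_of_nonneg_left (Real.exp_le_exp.2 (le_of_eq ?_)) (by norm_num)
      have h3 : B y.1 y.2 ≠ 0 := by
        intro h4
        rw [h4] at h0
        simp at h0
      field_simp
  obtain ⟨f, hf1, hf2⟩ := lll2 (fun r => QC i H φ h κ (k r))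
    (fun y : J' × Cl m => QC i H φ h κ (g y.1)) _ _ T W (2 * L) (2 * L * 2 ^ m) hT0 hT1 hW0
    P1 P2
    (fun p E hE => by
      refine (card_le_card ?_).trans (QC_deg i H φ h s κ hκ k hks L hL p)
      intro r hr
      exact mem_filter.2 ⟨mem_univ _, hE r hr⟩)
    (fun p E hE => by
      have h5 : (univ : Finset (Cl m)).card = 2 ^ m := by
        rw [card_univ, Fintype.card_fun, Fintype.card_bool, Fintype.card_fin]
      have h6 := Nat.mul_le_mul_right (2 ^ m) (QC_deg i H φ h s κ hκ g hgs L hL' p)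
      rw [← h5, ← card_product, h5] at h6
      refine (card_le_card ?_).trans h6
      intro y hy
      exact mem_product.2 ⟨mem_filter.2 ⟨mem_univ _, hE y hy⟩, mem_univ _⟩)
    (by
      have h1 : (((2 * L : ℕ) : ℝ) + ((2 * L * 2 ^ m : ℕ) : ℝ)) = 2 * L * (2 ^ m + 1) := by
        push_cast
        ring
      rw [h1, hW]
      refine le_of_eq ?_
      field_simp)
  refine ⟨f, fun r => ?_, fun j a => ?_⟩
  · have h1 := hf1 r
    obtain ⟨τ, hτ⟩ := exists_sign i H φ h (fun p => ε p + f (κ p)) (k r)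
    have h2 := sum_abs_ZcC i H φ h κ ε (k r) f τ hτ
    have h3 : ∑ p, sg (f p) * gk i H φ h κ ε (k r) (sn i τ) p ≤
        Real.sqrt (4 * K2 H φ (k r) * (2 ^ (i : ℕ) * Real.log 2 + Λ)) :=
      not_lt.1 fun h4 => h1 ⟨τ, h4⟩
    rw [sum_congr rfl fun a _ => cs_diff i H φ h (fun p => ε p + f (κ p)) (k r) a, ← mul_sum, h2,
      pow_succ, ← mul_assoc]
    have h5 : 1 / 2 * ((2 : ℝ) ^ m / 2 ^ (i : ℕ)) = 2 ^ m / (2 ^ (i : ℕ) * 2) := by
      field_simp
    rw [h5]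
    exact mul_le_mul_of_nonneg_left h3 (by positivity)
  · have h1 := hf2 (j, a)
    have h2 : ∀ τ : Bool, ∑ p, sg (f p) * ((if τ = true then 1 else -1) *
        gk i H φ h κ ε (g j) (wa i a) p) ≤
        2 * Real.sqrt (Λ * B j a) := fun τ => not_lt.1 fun h4 => h1 ⟨τ, h4⟩
    have h3 : ∀ c : ℝ, ∑ p, sg (f p) * (c * gk i H φ h κ ε (g j) (wa i a) p) =
        c * Zc i H φ h (fun p => ε p + f (κ p)) (g j) a := by
      intro c
      rw [Zc_gk, mul_sum]
      exact sum_congr rfl fun p _ => by ring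
    have h4 := h2 true
    have h5 := h2 false
    rw [h3] at h4 h5
    rw [if_pos rfl] at h4
    rw [if_neg (by decide)] at h5
    rw [cs_diff]
    have h6 : |Zc i H φ h (fun p => ε p + f (κ p)) (g j) a| ≤ 2 * Real.sqrt (Λ * B j a) :=
      abs_le.2 ⟨by linarith, by linarith⟩
    linarith

/-- **One level, with one coin per chain.** The test functions `k`, `g` live on the vertices with
`s = 0`; for the nodes the halving is exact up to `1`, deterministically. -/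
theorem level2N {N : Type w} (i : Fin m) (H : SimpleGraph V) (φ : V → V → Cl m) (h : PEC H φ)
    (nd : V → N) (s : V → ℝ) (hs : ∀ v, s v = 0 ∨ s v = 1 ∨ s v = -1)
    {I J' : Type u} [Fintype I] [Fintype J'] (k : I → V → ℝ) (g : J' → V → ℝ)
    (hks : ∀ r v, k r v ≠ 0 → s v = 0) (hgs : ∀ j v, g j v ≠ 0 → s v = 0)
    (B : J' → Cl m → ℝ) (K0 S L : ℕ)
    (Λ : ℝ) (hK : ∀ r v, k r v ≠ 0 → (mis H φ v).card ≤ K0)
    (hK' : ∀ j v, g j v ≠ 0 → (mis H φ v).card ≤ K0)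
    (hS : ∀ r, (univ.filter (fun v => k r v ≠ 0)).card ≤ S)
    (hS' : ∀ j, (univ.filter (fun v => g j v ≠ 0)).card ≤ S)
    (hL : ∀ v, (univ.filter (fun r => k r v ≠ 0)).card ≤ L)
    (hL' : ∀ v, (univ.filter (fun j => g j v ≠ 0)).card ≤ L)
    (hB0 : ∀ j a, 0 ≤ B j a) (hB : ∀ j a, vs i H φ (g j) a ≤ B j a)
    (hL1 : 1 ≤ L) (hΛ0 : 0 ≤ Λ)
    (hΛ : 32 * ((S : ℝ) * K0 + 1) * L * (2 ^ m + 1) ≤ Real.exp Λ) :
    ∃ F : Cl m × V → Fin 2,
      (∀ r, ∑ a, |cs H (nw i H φ h F) (k r) (i + 1) a - 1 / 2 * cs H φ (k r) i a| ≤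
        2 ^ m / 2 ^ ((i : ℕ) + 1) *
          Real.sqrt (4 * K2 H φ (k r) * (2 ^ (i : ℕ) * Real.log 2 + Λ))) ∧
      (∀ j a, |cs H (nw i H φ h F) (g j) (i + 1) a - 1 / 2 * cs H φ (g j) i a| ≤
        Real.sqrt (Λ * B j a)) ∧
      ∀ n a, |cs H (nw i H φ h F) (nt nd s n) (i + 1) a - 1 / 2 * cs H φ (nt nd s n) i a| ≤ 1 := by
  obtain ⟨κ, ε, hκ, hN⟩ := chain_level i H φ h nd s hs
  obtain ⟨f, h1, h2⟩ := level2K i H φ h s κ ε hκ k g hks hgs B K0 S L Λ hK hK' hS hS' hL hL' hB0 hB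
    hL1 hΛ0 hΛ
  refine ⟨fun p => ε p + f (κ p), h1, h2, fun n a => ?_⟩
  rw [cs_diff]
  have := hN f n a
  linarith

end step

end Pool.Agent.Work.MP_db9399_ch
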