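import Pool.Agent.Work.MP_db9399_ch_helper26.LevelS
import Pool.Agent.Work.MP_db9399_ch_helper26.Chaos

/-!
# MP_db9399, all scales: chained Kempe coins, squares of the deviations, one level (helper26)
-/

set_option autoImplicit false

namespace Pool.Agent.Work.MP_db9399_ch

open Finset Classical
open Pool.Agent.Work.MP_db9399_all (pr DepOnI PackI)
open Pool.Agent.Work.MP_db9399_tk

universe u v w

section sq
variable {V : Type u} [Fintype V] {m : ℕ}

/-- the two halves of a class -/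
theorem cs_halves (i : Fin m) (H : SimpleGraph V) (φ : V → V → Cl m) (k : V → ℝ) (a : Cl m) :
    cs H φ k (i + 1) a + cs H φ k (i + 1) (fl i a) = cs H φ k i a := by
  unfold cs
  rw [sum_split i a, sum_add_distrib]
  congr 1
  refine sum_nbij' (fun b => fl i b) (fun b => fl i b) ?_ ?_ (fun b _ => fl_fl i b)
    (fun b _ => fl_fl i b) ?_
  · intro b hb
    rw [mem_filter] at hb ⊢
    refine ⟨mem_univ _, ?_⟩
    rw [← ag_succ_fl]
    exact hb.2
  · intro b hb
    rw [mem_filter] at hb ⊢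
    refine ⟨mem_univ _, ?_⟩
    rw [ag_succ_fl, fl_fl]
    exact hb.2
  · intro b _
    rw [fl_fl]

theorem cs_fl (i : Fin m) (H : SimpleGraph V) (φ : V → V → Cl m) (k : V → ℝ) (a : Cl m) :
    cs H φ k i (fl i a) = cs H φ k i a := by
  unfold cs
  refine sum_congr ?_ fun _ _ => rfl
  ext b
  rw [mem_filter, mem_filter, ag_fl_iff]

/-- exact recursion for the squares of the deviations -/
theorem cs_sq (i : Fin m) (H : SimpleGraph V) (φ : V → V → Cl m) (h : PEC H φ)
    (f : Cl m × V → Fin 2) (k : V → ℝ) (W : ℝ) :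
    ∑ a, (cs H (nw i H φ h f) k (i + 1) a - W / 2) ^ 2 =
      1 / 4 * ∑ a, (cs H φ k i a - W) ^ 2 + 1 / 4 * ∑ a, Zc i H φ h f k a ^ 2 := by
  set u : Cl m → ℝ := fun a => cs H (nw i H φ h f) k (i + 1) a - 1 / 2 * cs H φ k i a with hu
  have h1 : ∀ a, u a ^ 2 = 1 / 4 * Zc i H φ h f k a ^ 2 := by
    intro a
    rw [← sq_abs, hu]
    simp only
    rw [cs_diff, mul_pow, sq_abs]
    norm_num
  have h2 : ∀ a, u (fl i a) = - u a := by
    intro a
    have h3 := cs_halves i H (nw i H φ h f) k a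
    rw [cs_nw] at h3
    simp only [hu]
    rw [cs_fl]
    linarith
  have h3 : ∑ a, u a * (cs H φ k i a - W) = 0 := by
    have h4 : ∑ a, u a * (cs H φ k i a - W) = ∑ a, u (fl i a) * (cs H φ k i (fl i a) - W) := by
      refine sum_nbij' (fun b => fl i b) (fun b => fl i b) (fun _ _ => mem_univ _)
        (fun _ _ => mem_univ _) (fun b _ => fl_fl i b) (fun b _ => fl_fl i b) ?_
      intro b _
      simp only [fl_fl]
    have h5 : ∑ a, u (fl i a) * (cs H φ k i (fl i a) - W) =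
        - ∑ a, u a * (cs H φ k i a - W) := by
      rw [← sum_neg_distrib]
      refine sum_congr rfl fun a _ => ?_
      rw [h2, cs_fl]
      ring
    linarith
  have h4 : ∀ a, (cs H (nw i H φ h f) k (i + 1) a - W / 2) ^ 2 =
      1 / 4 * Zc i H φ h f k a ^ 2 + u a * (cs H φ k i a - W) +
        1 / 4 * (cs H φ k i a - W) ^ 2 := by
    intro a
    have h5 : cs H (nw i H φ h f) k (i + 1) a - W / 2 = u a + 1 / 2 * (cs H φ k i a - W) := by
      simp only [hu]
      ring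
    rw [h5, ← h1]
    ring
  rw [sum_congr rfl fun a _ => h4 a, sum_add_distrib, sum_add_distrib, h3, ← mul_sum, ← mul_sum]
  ring

/-- sums over words of functions of the first letters -/
theorem sum_rst (i : Fin m) (F : (Fin (i : ℕ) → Bool) → ℝ) :
    ∑ a : Cl m, F (rst i a) = 2 ^ m / 2 ^ (i : ℕ) * ∑ p, F p := by
  rw [← sum_fiberwise univ (fun a : Cl m => rst i a) (fun a => F (rst i a)), mul_sum]
  refine sum_congr rfl fun p _ => ?_
  have h1 : ∀ a ∈ univ.filter (fun a : Cl m => rst i a = p), F (rst i a) = F p := by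
    intro a ha
    rw [(mem_filter.1 ha).2]
  rw [sum_congr rfl h1, sum_const, nsmul_eq_mul]
  congr 1
  rw [← card_class (i : ℕ) i.2.le (ext i p)]
  congr 2
  ext a
  rw [mem_filter, mem_filter]
  refine and_congr_right fun _ => ?_
  have h2 : rst i (MP_db9399_tk.ext i p) = p := by
    funext j
    unfold rst MP_db9399_tk.ext
    rw [dif_pos (show ((Fin.castLE i.2.le j : Fin m) : ℕ) < i from j.2)]
    rfl
  constructor
  · intro h3 j hj
    have h4 : rst i a ⟨j, hj⟩ = rst i (ext i p) ⟨j, hj⟩ := by rw [h3, h2]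
    exact h4.symm
  · intro h3
    rw [← h2]
    funext j
    exact (h3 _ j.2).symm

theorem gk_wa (i : Fin m) (H : SimpleGraph V) (φ : V → V → Cl m) (h : PEC H φ)
    (κ : Cl m × V → Cl m × V) (ε : Cl m × V → Fin 2) (hκ1 : ∀ p, (κ p).1 = p.1) (k : V → ℝ)
    (a : Cl m) (q : Cl m × V) :
    gk i H φ h κ ε k (wa i a) q = if ag i a q.1 then gk i H φ h κ ε k (fun _ => 1) q else 0 := by
  unfold gk
  by_cases hg : ag i a q.1
  · rw [if_pos hg]
    refine sum_congr rfl fun o ho => ?_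
    have h1 : o.1 = q.1 := by
      rw [← (mem_filter.1 ho).2, hκ1]
    unfold wa
    rw [h1, if_pos hg]
  · rw [if_neg hg]
    refine sum_eq_zero fun o ho => ?_
    have h1 : o.1 = q.1 := by
      rw [← (mem_filter.1 ho).2, hκ1]
    unfold wa
    rw [h1, if_neg hg, zero_mul, mul_zero]

theorem rst_ag (i : Fin m) (a b : Cl m) : ag i a b ↔ rst i b = rst i a := by
  constructor
  · intro h5
    funext j
    exact (h5 _ j.2).symm
  · intro h5 j hj
    exact (congrFun h5 ⟨j, hj⟩).symm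

/-- the noise of a class as a block of the chaos -/
theorem Zc_zs (i : Fin m) (H : SimpleGraph V) (φ : V → V → Cl m) (h : PEC H φ)
    (κ : Cl m × V → Cl m × V) (ε : Cl m × V → Fin 2) (hκ1 : ∀ p, (κ p).1 = p.1) (k : V → ℝ)
    (f : Cl m × V → Fin 2) (a : Cl m) :
    Zc i H φ h (fun p => ε p + f (κ p)) k a =
      zs (gk i H φ h κ ε k (fun _ => 1)) (fun q : Cl m × V => rst i q.1) univ f (rst i a) := by
  rw [Zc_gk]
  unfold zs
  rw [sum_filter]
  refine sum_congr rfl fun q _ => ?_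
  rw [gk_wa i H φ h κ ε hκ1]
  by_cases hg : ag i a q.1
  · rw [if_pos hg, if_pos ((rst_ag i a q.1).1 hg)]
  · rw [if_neg hg, if_neg (fun h => hg ((rst_ag i a q.1).2 h)), mul_zero]

theorem vr_vs (i : Fin m) (H : SimpleGraph V) (φ : V → V → Cl m) (h : PEC H φ) (s : V → ℝ)
    (κ : Cl m × V → Cl m × V) (ε : Cl m × V → Fin 2) (hκ : ChainP i H φ h s κ)
    (hκ1 : ∀ p, (κ p).1 = p.1) (k : V → ℝ) (hk : ∀ v, k v ≠ 0 → s v = 0)
    (p : Fin (i : ℕ) → Bool) :
    vr (gk i H φ h κ ε k (fun _ => 1)) (fun q : Cl m × V => rst i q.1) univ p ≤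
      2 * vs i H φ k (ext i p) := by
  refine (le_of_eq ?_).trans (wa_sq i H φ h s κ ε hκ k hk (ext i p))
  unfold vr
  rw [sum_filter]
  refine sum_congr rfl fun q _ => ?_
  rw [gk_wa i H φ h κ ε hκ1]
  have h2 : rst i (MP_db9399_tk.ext i p) = p := by
    funext j
    unfold rst MP_db9399_tk.ext
    rw [dif_pos (show ((Fin.castLE i.2.le j : Fin m) : ℕ) < i from j.2)]
    rfl
  by_cases hg : ag i (ext i p) q.1
  · rw [if_pos hg, if_pos (((rst_ag i _ q.1).1 hg).trans h2)]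
  · rw [if_neg hg, if_neg (fun h => hg ((rst_ag i _ q.1).2 (h.trans h2.symm))),
      zero_pow two_ne_zero]

theorem gk1_sq (i : Fin m) (H : SimpleGraph V) (φ : V → V → Cl m) (h : PEC H φ) (s : V → ℝ)
    (κ : Cl m × V → Cl m × V) (ε : Cl m × V → Fin 2) (hκ : ChainP i H φ h s κ)
    (k : V → ℝ) (hk : ∀ v, k v ≠ 0 → s v = 0) :
    ∑ q, gk i H φ h κ ε k (fun _ => 1) q ^ 2 ≤ 2 * K2 H φ k := by
  have h1 := sn_sq' i H φ h s κ ε hκ k hk (fun _ => true)
  have h2 : sn i (fun _ => true) = fun _ : Cl m => (1 : ℝ) := by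
    funext b
    unfold sn
    rw [if_pos rfl]
  rw [h2] at h1
  exact h1

/-- **One level, given chains, with the squares.** -/
theorem level2V (i : Fin m) (H : SimpleGraph V) (φ : V → V → Cl m) (h : PEC H φ)
    (s : V → ℝ) (κ : Cl m × V → Cl m × V) (ε : Cl m × V → Fin 2) (hκ : ChainP i H φ h s κ)
    (hκ1 : ∀ p, (κ p).1 = p.1)
    {I J' : Type u} [Fintype I] [Fintype J'] (k : I → V → ℝ) (g : J' → V → ℝ)
    (hks : ∀ r v, k r v ≠ 0 → s v = 0) (hgs : ∀ j v, g j v ≠ 0 → s v = 0)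
    (B : J' → Cl m → ℝ) (Bk : I → ℝ) (K0 S L : ℕ)
    (Λ : ℝ) (hK : ∀ r v, k r v ≠ 0 → (mis H φ v).card ≤ K0)
    (hK' : ∀ j v, g j v ≠ 0 → (mis H φ v).card ≤ K0)
    (hS : ∀ r, (univ.filter (fun v => k r v ≠ 0)).card ≤ S)
    (hS' : ∀ j, (univ.filter (fun v => g j v ≠ 0)).card ≤ S)
    (hL : ∀ v, (univ.filter (fun r => k r v ≠ 0)).card ≤ L)
    (hL' : ∀ v, (univ.filter (fun j => g j v ≠ 0)).card ≤ L)
    (hB0 : ∀ j a, 0 ≤ B j a) (hB : ∀ j a, vs i H φ (g j) a ≤ B j a)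
    (hBk : ∀ r a, vs i H φ (k r) a ≤ Bk r)
    (hL1 : 1 ≤ L) (hΛ0 : 0 ≤ Λ)
    (hΛ : 32 * ((S : ℝ) * K0 + 1) * L * (2 ^ m + 2) ≤ Real.exp Λ) :
    ∃ f : Cl m × V → Fin 2,
      (∀ r, ∑ a, |cs H (nw i H φ h fun p => ε p + f (κ p)) (k r) (i + 1) a -
        1 / 2 * cs H φ (k r) i a| ≤ 2 ^ m / 2 ^ ((i : ℕ) + 1) *
          Real.sqrt (4 * K2 H φ (k r) * (2 ^ (i : ℕ) * Real.log 2 + Λ))) ∧
      (∀ r, ∑ a, Zc i H φ h (fun p => ε p + f (κ p)) (k r) a ^ 2 ≤
        2 ^ m / 2 ^ (i : ℕ) * (4 * K2 H φ (k r) + 8 * Λ * Bk r)) ∧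
      ∀ j a, |cs H (nw i H φ h fun p => ε p + f (κ p)) (g j) (i + 1) a -
        1 / 2 * cs H φ (g j) i a| ≤ Real.sqrt (Λ * B j a) := by
  set T : ℝ := 1 / (4 * ((S : ℝ) * K0 + 1)) with hT
  set W : ℝ := T / (2 * L * (2 ^ m + 2)) with hW
  have hSK : (1 : ℝ) ≤ (S : ℝ) * K0 + 1 := by
    have : (0 : ℝ) ≤ (S : ℝ) * K0 := by positivity
    linarith
  have hT0 : 0 ≤ T := by positivity
  have hT1 : T ≤ 1 / 4 := by
    rw [hT]
    refine one_div_le_one_div_of_le (by norm_num) ?_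
    linarith
  have hL0 : (0 : ℝ) < L := by exact_mod_cast hL1
  have hpos := Real.exp_pos (-Λ)
  have hW4 : 4 * Real.exp (-Λ) ≤ W := by
    have h1 : W = 1 / (8 * ((S : ℝ) * K0 + 1) * L * (2 ^ m + 2)) := by
      rw [hW, hT]
      field_simp
      ring
    rw [h1, Real.exp_neg, le_div_iff₀ (by positivity)]
    have h2 := Real.exp_pos Λ
    rw [← div_eq_mul_inv, div_mul_eq_mul_div, div_le_one h2]
    linarith
  have hW0 : 0 ≤ W := by positivity
  have hexp : ∀ Q : Finset (Cl m × V), Q.card ≤ S * K0 → Real.exp (2 * T * (Q.card : ℝ)) ≤ 2 := by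
    intro Q hQ
    have h1 : (Q.card : ℝ) ≤ (S : ℝ) * K0 := by exact_mod_cast hQ
    have h2 : 2 * T * (Q.card : ℝ) ≤ 1 / 2 := by
      rw [hT]
      have h3 : 2 * (1 / (4 * ((S : ℝ) * K0 + 1))) * (Q.card : ℝ) =
          (Q.card : ℝ) / (2 * ((S : ℝ) * K0 + 1)) := by
        field_simp
        ring
      rw [h3, div_le_iff₀ (by positivity)]
      linarith
    exact (Real.exp_le_exp.2 h2).trans exp_half
  have hlog : 0 < Real.log 2 := Real.log_pos (by norm_num)
  -- packages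
  have P1 : ∀ r, PackI T (QC i H φ h κ (k r)) W (fun f : Cl m × V → Fin 2 =>
      ¬ ∃ τ : (Fin (i : ℕ) → Bool) → Bool,
        Real.sqrt (4 * K2 H φ (k r) * (2 ^ (i : ℕ) * Real.log 2 + Λ)) <
          ∑ p, sg (f p) * gk i H φ h κ ε (k r) (sn i τ) p) := by
    intro r
    have hK2 := K2_nonneg H φ (k r)
    have hA : 0 ≤ 2 ^ (i : ℕ) * Real.log 2 + Λ := by positivity
    refine packT T W (Real.exp (-Λ)) (2 * K2 H φ (k r)) _ (QC i H φ h κ (k r))
      (fun τ => gk i H φ h κ ε (k r) (sn i τ))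
      (fun τ p hp => gk_zero i H φ h κ ε (k r) (sn i τ) p hp)
      (fun τ => sn_sq' i H φ h s κ ε hκ (k r) (hks r) τ) (by linarith) (Real.sqrt_nonneg _)
      hpos.le ?_ (by linarith) (hexp _ (QC_card i H φ h κ (k r) K0 S (hK r) (hS r)))
    intro h0
    rw [Real.sq_sqrt (by positivity)]
    have h2 : (Fintype.card ((Fin (i : ℕ) → Bool) → Bool) : ℝ) =
        Real.exp (2 ^ (i : ℕ) * Real.log 2) := by
      rw [Fintype.card_fun, Fintype.card_fun, Fintype.card_bool, Fintype.card_fin]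
      push_cast
      rw [mul_comm, Real.exp_mul, Real.exp_log (by norm_num)]
      norm_cast
    rw [h2, ← Real.exp_add]
    refine Real.exp_le_exp.2 (le_of_eq ?_)
    have h3 : K2 H φ (k r) ≠ 0 := by
      intro h4
      rw [h4] at h0
      simp at h0
    field_simp
    ring
  have P1' : ∀ r, PackI T (QC i H φ h κ (k r)) W (fun f : Cl m × V → Fin 2 =>
      ¬ (2 * ∑ q, gk i H φ h κ ε (k r) (fun _ => 1) q ^ 2 + 4 * Λ * (2 * Bk r) <
        ∑ p, zs (gk i H φ h κ ε (k r) (fun _ => 1)) (fun q : Cl m × V => rst i q.1) univ f p ^ 2)) := by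
    intro r
    refine packSq T W (2 * Bk r) Λ (QC i H φ h κ (k r)) _ _
      (fun p hp => gk_zero i H φ h κ ε (k r) _ p hp) (fun p => ?_) ?_ hΛ0 (by linarith)
      (hexp _ (QC_card i H φ h κ (k r) K0 S (hK r) (hS r)))
    · refine (vr_vs i H φ h s κ ε hκ hκ1 (k r) (hks r) p).trans ?_
      have := hBk r (ext i p)
      linarith
    · have h1 := hBk r (fun _ => false)
      have h2 : 0 ≤ vs i H φ (k r) (fun _ => false) := by
        unfold vs
        exact sum_nonneg fun _ _ => sum_nonneg fun _ _ => mul_nonneg (sq_nonneg _) (sq_nonneg _)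
      linarith
  have P2 : ∀ y : J' × Cl m, PackI T (QC i H φ h κ (g y.1)) W (fun f : Cl m × V → Fin 2 =>
      ¬ ∃ τ : Bool, 2 * Real.sqrt (Λ * B y.1 y.2) <
        ∑ p, sg (f p) * ((if τ = true then 1 else -1) * gk i H φ h κ ε (g y.1) (wa i y.2) p)) := by
    intro y
    have hB' := hB0 y.1 y.2
    refine packT T W (2 * Real.exp (-Λ)) (2 * B y.1 y.2) _ (QC i H φ h κ (g y.1))
      (fun τ p => (if τ = true then 1 else -1) * gk i H φ h κ ε (g y.1) (wa i y.2) p)
      (fun τ p hp => by rw [gk_zero i H φ h κ ε (g y.1) (wa i y.2) p hp, mul_zero])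
      (fun τ => ?_) (by linarith) (by positivity) (by linarith) ?_
      (by linarith) (hexp _ (QC_card i H φ h κ (g y.1) K0 S (hK' y.1) (hS' y.1)))
    · refine (le_of_eq ?_).trans ((wa_sq i H φ h s κ ε hκ (g y.1) (hgs y.1) y.2).trans
        (mul_le_mul_of_nonneg_left (hB y.1 y.2) (by norm_num)))
      refine sum_congr rfl fun p _ => ?_
      cases τ <;> simp
    · intro h0
      rw [mul_pow, Real.sq_sqrt (by positivity), Fintype.card_bool, Nat.cast_ofNat]
      refine mul_le_mul_of_nonneg_left (Real.exp_le_exp.2 (le_of_eq ?_)) (by norm_num)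
      have h3 : B y.1 y.2 ≠ 0 := by
        intro h4
        rw [h4] at h0
        simp at h0
      field_simp
  obtain ⟨f, hf1, hf2⟩ := lll2 (fun r : I ⊕ I => QC i H φ h κ (Sum.elim k k r))
    (fun y : J' × Cl m => QC i H φ h κ (g y.1))
    (fun r f => Sum.elim (fun r => ¬ ∃ τ : (Fin (i : ℕ) → Bool) → Bool,
        Real.sqrt (4 * K2 H φ (k r) * (2 ^ (i : ℕ) * Real.log 2 + Λ)) <
          ∑ p, sg (f p) * gk i H φ h κ ε (k r) (sn i τ) p)
      (fun r => ¬ (2 * ∑ q, gk i H φ h κ ε (k r) (fun _ => 1) q ^ 2 + 4 * Λ * (2 * Bk r) <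
        ∑ p, zs (gk i H φ h κ ε (k r) (fun _ => 1)) (fun q : Cl m × V => rst i q.1) univ f p ^ 2)) r)
    _ T W (4 * L) (2 * L * 2 ^ m) hT0 hT1 hW0
    (by
      rintro (r | r)
      · exact P1 r
      · exact P1' r)
    P2
    (fun p E hE => by
      have h5 : E.card ≤ (univ.filter (fun r => p ∈ QC i H φ h κ (k r))).card +
          (univ.filter (fun r => p ∈ QC i H φ h κ (k r))).card := by
        rw [← card_disjSum]
        refine card_le_card ?_
        rintro (r | r) hr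
        · rw [inl_mem_disjSum]
          exact mem_filter.2 ⟨mem_univ _, hE _ hr⟩
        · rw [inr_mem_disjSum]
          exact mem_filter.2 ⟨mem_univ _, hE _ hr⟩
      have h6 := QC_deg i H φ h s κ hκ k hks L hL p
      omega)
    (fun p E hE => by
      have h5 : (univ : Finset (Cl m)).card = 2 ^ m := by
        rw [card_univ, Fintype.card_fun, Fintype.card_bool, Fintype.card_fin]
      have h6 := Nat.mul_le_mul_right (2 ^ m) (QC_deg i H φ h s κ hκ g hgs L hL' p)
      rw [← h5, ← card_product, h5] at h6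
      refine (card_le_card ?_).trans h6
      intro y hy
      exact mem_product.2 ⟨mem_filter.2 ⟨mem_univ _, hE y hy⟩, mem_univ _⟩)
    (by
      have h1 : (((4 * L : ℕ) : ℝ) + ((2 * L * 2 ^ m : ℕ) : ℝ)) = 2 * L * (2 ^ m + 2) := by
        push_cast
        ring
      rw [h1, hW]
      refine le_of_eq ?_
      field_simp)
  refine ⟨f, fun r => ?_, fun r => ?_, fun j a => ?_⟩
  · have h1 := hf1 (Sum.inl r)
    simp only [Sum.elim_inl] at h1
    obtain ⟨τ, hτ⟩ := exists_sign i H φ h (fun p => ε p + f (κ p)) (k r)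
    have h2 := sum_abs_ZcC i H φ h κ ε (k r) f τ hτ
    have h3 : ∑ p, sg (f p) * gk i H φ h κ ε (k r) (sn i τ) p ≤
        Real.sqrt (4 * K2 H φ (k r) * (2 ^ (i : ℕ) * Real.log 2 + Λ)) :=
      not_lt.1 fun h4 => h1 ⟨τ, h4⟩
    rw [sum_congr rfl fun a _ => cs_diff i H φ h (fun p => ε p + f (κ p)) (k r) a, ← mul_sum, h2,
      pow_succ, ← mul_assoc]
    have h5 : 1 / 2 * ((2 : ℝ) ^ m / 2 ^ (i : ℕ)) = 2 ^ m / (2 ^ (i : ℕ) * 2) := by
      field_simp
    rw [h5]
    exact mul_le_mul_of_nonneg_left h3 (by positivity)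
  · have h1 := hf1 (Sum.inr r)
    simp only [Sum.elim_inr] at h1
    have h2 := not_lt.1 h1
    have h3 := gk1_sq i H φ h s κ ε hκ (k r) (hks r)
    rw [sum_congr rfl fun a _ => by rw [Zc_zs i H φ h κ ε hκ1 (k r) f a]]
    rw [sum_rst i (fun p => zs (gk i H φ h κ ε (k r) (fun _ => 1))
      (fun q : Cl m × V => rst i q.1) univ f p ^ 2)]
    refine mul_le_mul_of_nonneg_left ?_ (by positivity)
    linarith
  · have h1 := hf2 (j, a)
    have h2 : ∀ τ : Bool, ∑ p, sg (f p) * ((if τ = true then 1 else -1) *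
        gk i H φ h κ ε (g j) (wa i a) p) ≤
        2 * Real.sqrt (Λ * B j a) := fun τ => not_lt.1 fun h4 => h1 ⟨τ, h4⟩
    have h3 : ∀ c : ℝ, ∑ p, sg (f p) * (c * gk i H φ h κ ε (g j) (wa i a) p) =
        c * Zc i H φ h (fun p => ε p + f (κ p)) (g j) a := by
      intro c
      rw [Zc_gk, mul_sum]
      exact sum_congr rfl fun p _ => by ring
    have h4 := h2 true
    have h5 := h2 false
    rw [h3] at h4 h5
    rw [if_pos rfl] at h4
    rw [if_neg (by decide)] at h5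
    rw [cs_diff]
    have h6 : |Zc i H φ h (fun p => ε p + f (κ p)) (g j) a| ≤ 2 * Real.sqrt (Λ * B j a) :=
      abs_le.2 ⟨by linarith, by linarith⟩
    linarith

end sq

end Pool.Agent.Work.MP_db9399_ch
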